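import Mathlib

set_option autoImplicit false
set_option linter.unusedSectionVars false

open Module NumberField NumberField.ComplexEmbedding

namespace Pool.Agent.H475R3

section core

variable {K : Type} [Field K] [NumberField K] (φ : K →+* ℂ)

/-- The other embeddings. -/
abbrev JJ : Type := {σ : K →+* ℂ // σ ≠ φ ∧ σ ≠ conjugate φ}

/-- Conjugation on the other embeddings. -/
noncomputable def cj (s : JJ φ) : JJ φ :=
  ⟨conjugate s.1, by
    refine ⟨fun h => s.2.2 ?_, fun h => s.2.1 ?_⟩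
    · have h2 := congrArg conjugate h
      rwa [show conjugate (conjugate s.1) = s.1 from star_involutive s.1] at h2
    · exact star_injective h⟩

theorem cj_cj (s : JJ φ) : cj φ (cj φ s) = s := Subtype.ext (star_involutive s.1)

theorem cj_apply (s : JJ φ) (x : K) : (cj φ s).1 x = starRingEnd ℂ (s.1 x) := rfl

/-- Conjugation symmetric vectors. -/
def WW : Submodule ℝ (JJ φ → ℂ) where
  carrier := {x | ∀ s, x (cj φ s) = starRingEnd ℂ (x s)}
  add_mem' := by
    intro a b ha hb s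
    simp only [Set.mem_ofPred_eq] at ha hb
    simp [ha s, hb s]
  zero_mem' := by intro s; simp
  smul_mem' := by
    intro c x hx s
    simp only [Set.mem_ofPred_eq] at hx
    simp [hx s]

theorem mem_WW {x : JJ φ → ℂ} : x ∈ WW φ ↔ ∀ s, x (cj φ s) = starRingEnd ℂ (x s) := Iff.rfl

/-- The sum of a symmetric vector and I times a symmetric vector. -/
noncomputable def TT : (WW φ × WW φ) →ₗ[ℝ] (JJ φ → ℂ) where
  toFun p := fun s => p.1.1 s + Complex.I * p.2.1 s
  map_add' := by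
    intro p q; funext s; simp; ring
  map_smul' := by
    intro c p; funext s; simp; ring

theorem TT_injective : Function.Injective (TT φ) := by
  rw [injective_iff_map_eq_zero]
  rintro ⟨u, v⟩ h
  have h1 : ∀ s, u.1 s + Complex.I * v.1 s = 0 := fun s => congrFun h s
  have h2 : ∀ s, u.1 s - Complex.I * v.1 s = 0 := by
    intro s
    have := h1 (cj φ s)
    rw [(mem_WW φ).1 u.2 s, (mem_WW φ).1 v.2 s] at this
    have h3 := congrArg (starRingEnd ℂ) this
    simp only [map_add, map_mul, Complex.conj_conj, Complex.conj_I, map_zero] at h3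
    rw [← h3]; ring
  have hu : u = 0 := by
    apply Subtype.ext; funext s
    have := h1 s; have := h2 s
    have h5 : (2 : ℂ) * u.1 s = 0 := by linear_combination h1 s + h2 s
    simpa using h5
  have hv : v = 0 := by
    apply Subtype.ext; funext s
    have h5 : (2 * Complex.I : ℂ) * v.1 s = 0 := by linear_combination h1 s - h2 s
    simpa using h5
  rw [hu, hv]; rfl

noncomputable instance : Fintype (JJ φ) := Fintype.ofFinite _

theorem finrank_WW_le : finrank ℝ (WW φ) ≤ Fintype.card (JJ φ) := by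
  have h := LinearMap.finrank_le_finrank_of_injective (TT_injective φ)
  rw [finrank_prod, finrank_pi_fintype] at h
  simp only [Complex.finrank_real_complex, Finset.sum_const, Finset.card_univ, smul_eq_mul] at h
  omega

theorem card_JJ (hne : conjugate φ ≠ φ) :
    Fintype.card (JJ φ) + 2 = finrank ℚ K := by
  classical
  rw [← Embeddings.card K ℂ]
  have h1 : Fintype.card (JJ φ) = (Finset.univ.filter
      (fun σ : K →+* ℂ => σ ≠ φ ∧ σ ≠ conjugate φ)).card :=
    Fintype.card_of_subtype _ (by simp)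
  have h2 : (Finset.univ.filter (fun σ : K →+* ℂ => σ ≠ φ ∧ σ ≠ conjugate φ))
      = (Finset.univ \ {φ, conjugate φ}) := by
    ext σ; simp [not_or]
  rw [h1, h2, Finset.card_sdiff_of_subset (Finset.subset_univ _), Finset.card_pair hne.symm,
    Finset.card_univ]
  have : 2 ≤ Fintype.card (K →+* ℂ) := by
    rw [← Finset.card_pair hne.symm, ← Finset.card_univ]
    exact Finset.card_le_card (Finset.subset_univ _)
  omega

/-- The vector of the other conjugates. -/
noncomputable def ww0 : K →+ WW φ where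
  toFun x := ⟨fun s => s.1 x, fun s => cj_apply φ s x⟩
  map_zero' := by apply Subtype.ext; funext s; simp
  map_add' := by intro x y; apply Subtype.ext; funext s; simp

theorem ww0_apply (x : K) (s : JJ φ) : (ww0 φ x).1 s = s.1 x := rfl

/-- The lattice vectors. -/
noncomputable def bv (i : Free.ChooseBasisIndex ℤ (𝓞 K)) : ℂ × WW φ :=
  (φ (integralBasis K i), ww0 φ (integralBasis K i))

theorem bv_li : LinearIndependent ℝ (bv φ) := by
  classical
  rw [Fintype.linearIndependent_iff]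
  intro g hg
  have hlb := (canonicalEmbedding.latticeBasis K).linearIndependent
  rw [Fintype.linearIndependent_iff] at hlb
  have h1 : ∑ i, (g i : ℂ) * φ (integralBasis K i) = 0 := by
    have := congrArg Prod.fst hg
    simpa [bv, Prod.fst_sum] using this
  have h1' : ∑ i, (g i : ℂ) * conjugate φ (integralBasis K i) = 0 := by
    have := congrArg (starRingEnd ℂ) h1
    simpa [map_sum, conjugate_coe_eq] using this
  have h2 : ∀ s : JJ φ, ∑ i, (g i : ℂ) * s.1 (integralBasis K i) = 0 := by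
    intro s
    have := congrArg Prod.snd hg
    have := congrFun (congrArg Subtype.val this) s
    simpa [bv, Prod.snd_sum, ww0_apply] using this
  have h3 : ∑ i, ((g i : ℝ) : ℂ) • canonicalEmbedding.latticeBasis K i = 0 := by
    funext σ
    simp only [canonicalEmbedding.latticeBasis_apply, Finset.sum_apply, Pi.smul_apply,
      canonicalEmbedding.apply_at, smul_eq_mul, Pi.zero_apply]
    by_cases c1 : σ = φ
    · rw [c1]; exact h1
    · by_cases c2 : σ = conjugate φ
      · rw [c2]; exact h1'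
      · exact h2 ⟨σ, c1, c2⟩
  intro i
  have := hlb (fun i => (g i : ℂ)) h3 i
  exact_mod_cast this

theorem card_idx : Fintype.card (Free.ChooseBasisIndex ℤ (𝓞 K)) = finrank ℚ K :=
  (finrank_eq_card_basis (integralBasis K)).symm

theorem finrank_E (hne : conjugate φ ≠ φ) :
    Fintype.card (Free.ChooseBasisIndex ℤ (𝓞 K)) = finrank ℝ (ℂ × WW φ) := by
  apply le_antisymm
  · exact (bv_li φ).fintype_card_le_finrank
  · rw [card_idx, ← card_JJ φ hne, finrank_prod, Complex.finrank_real_complex]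
    have := finrank_WW_le φ
    omega

/-- The basis. -/
noncomputable def bb (hne : conjugate φ ≠ φ) :
    Basis (Free.ChooseBasisIndex ℤ (𝓞 K)) ℝ (ℂ × WW φ) :=
  haveI : Nonempty (Free.ChooseBasisIndex ℤ (𝓞 K)) := by
    rw [← Fintype.card_pos_iff, card_idx]; exact finrank_pos
  basisOfLinearIndependentOfCardEqFinrank (bv_li φ) (finrank_E φ hne)

theorem bb_apply (hne : conjugate φ ≠ φ) : ⇑(bb φ hne) = bv φ := by
  simp [bb]

/-- The lattice map. -/
noncomputable def Psi : 𝓞 K →ₗ[ℤ] (ℂ × WW φ) :=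
  ((((φ.toAddMonoidHom).prod (ww0 φ)).comp
    (algebraMap (𝓞 K) K).toAddMonoidHom)).toIntLinearMap

theorem Psi_apply (a : 𝓞 K) : Psi φ a = (φ (a : K), ww0 φ (a : K)) := rfl

theorem span_bb (hne : conjugate φ ≠ φ) :
    Submodule.span ℤ (Set.range (bb φ hne)) = LinearMap.range (Psi φ) := by
  rw [bb_apply, LinearMap.range_eq_map, ← (RingOfIntegers.basis K).span_eq, Submodule.map_span,
    ← Set.range_comp]
  congr 1
  congr 1
  funext i
  simp [Psi_apply, bv, integralBasis_apply]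

/-- Multiplication by the conjugates of x. -/
noncomputable def DD (x : K) (hx : x ≠ 0) : WW φ ≃ₗ[ℝ] WW φ where
  toFun v := ⟨fun s => s.1 x * v.1 s, fun s => by
    change (cj φ s).1 x * v.1 (cj φ s) = starRingEnd ℂ (s.1 x * v.1 s)
    rw [(mem_WW φ).1 v.2 s, cj_apply, map_mul]⟩
  invFun v := ⟨fun s => (s.1 x)⁻¹ * v.1 s, fun s => by
    change ((cj φ s).1 x)⁻¹ * v.1 (cj φ s) = starRingEnd ℂ ((s.1 x)⁻¹ * v.1 s)
    rw [(mem_WW φ).1 v.2 s, cj_apply, map_mul, map_inv₀]⟩
  map_add' := by intro u v; apply Subtype.ext; funext s; simp; ring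
  map_smul' := by intro c v; apply Subtype.ext; funext s; simp; ring
  left_inv := by
    intro v; apply Subtype.ext; funext s
    have : s.1 x ≠ 0 := (map_ne_zero s.1).2 hx
    simp [this]
  right_inv := by
    intro v; apply Subtype.ext; funext s
    have : s.1 x ≠ 0 := (map_ne_zero s.1).2 hx
    simp [this]

theorem DD_apply (x : K) (hx : x ≠ 0) (v : WW φ) (s : JJ φ) :
    (DD φ x hx v).1 s = s.1 x * v.1 s := rfl

theorem DD_symm_apply (x : K) (hx : x ≠ 0) (v : WW φ) (s : JJ φ) :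
    ((DD φ x hx).symm v).1 s = (s.1 x)⁻¹ * v.1 s := rfl

theorem norm_mul_le' (m v : JJ φ → ℂ) : ‖fun s => m s * v s‖ ≤ ‖m‖ * ‖v‖ := by
  rw [pi_norm_le_iff_of_nonneg (by positivity)]
  intro s
  rw [norm_mul]
  exact mul_le_mul (norm_le_pi_norm m s) (norm_le_pi_norm v s) (norm_nonneg _) (norm_nonneg _)

/-- The lattice in the plane. -/
noncomputable def LL : AddSubgroup ℂ :=
  (φ.toAddMonoidHom.comp (algebraMap (𝓞 K) K).toAddMonoidHom).range

theorem mem_LL {v : ℂ} : v ∈ LL φ ↔ ∃ a : 𝓞 K, φ (a : K) = v := Iff.rfl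

theorem exists_w : ∃ w : ℂ →+ WW φ, ∀ x : K, w (φ x) = ww0 φ x := by
  let f : K →ₗ[ℚ] ℂ := φ.toAddMonoidHom.toRatLinearMap
  have hf : LinearMap.ker f = ⊥ := by
    rw [LinearMap.ker_eq_bot]; exact φ.injective
  obtain ⟨g, hg⟩ := f.exists_leftInverse_of_injective hf
  refine ⟨(ww0 φ).comp g.toAddMonoidHom, fun x => ?_⟩
  have : g (f x) = x := congrArg (fun h => h x) hg
  change ww0 φ (g (f x)) = _
  rw [this]

theorem core_data (hne : conjugate φ ≠ φ) (a : 𝓞 K) (ha : (a : K) ≠ 0)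
    (hdom : ∀ s : JJ φ, ‖s.1 (a : K)‖ < ‖φ (a : K)‖) :
    ∃ (J : Type) (_ : Fintype J) (W : Submodule ℝ (J → ℂ)) (L : AddSubgroup ℂ)
      (w : ℂ →+ W) (D : W ≃ₗ[ℝ] W) (rho rho' : ℝ),
      0 ≤ rho ∧ rho < ‖φ (a : K)‖ ∧ 0 ≤ rho' ∧ (∀ v, ‖D v‖ ≤ rho * ‖v‖) ∧
      (∀ v, ‖D.symm v‖ ≤ rho' * ‖v‖) ∧
      (∀ v ∈ L, φ (a : K) * v ∈ L) ∧
      (∀ v, (∃ j : ℕ, φ (a : K) ^ j * v ∈ L) → w (φ (a : K) * v) = D (w v)) ∧
      (∀ r, {v | v ∈ L ∧ ‖v‖ ≤ r ∧ ‖w v‖ ≤ r}.Finite) ∧
      (∃ R0 Bc, 0 < R0 ∧ 0 ≤ Bc ∧ ∀ (z : ℂ) (v : W), ∃ y ∈ L, ‖y - z‖ ≤ R0 ∧ ‖w y - v‖ ≤ Bc) := by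
  obtain ⟨w, hw⟩ := exists_w φ
  have hφa : φ (a : K) ≠ 0 := (map_ne_zero φ).2 ha
  refine ⟨JJ φ, inferInstance, WW φ, LL φ, w, DD φ (a : K) ha,
    ‖fun s : JJ φ => s.1 (a : K)‖, ‖fun s : JJ φ => (s.1 (a : K))⁻¹‖,
    norm_nonneg _, ?_, norm_nonneg _, ?_, ?_, ?_, ?_, ?_, ?_⟩
  · rw [pi_norm_lt_iff (norm_pos_iff.2 hφa)]
    exact hdom
  · intro v
    exact norm_mul_le' φ (fun s => s.1 (a : K)) v.1
  · intro v
    exact norm_mul_le' φ (fun s => (s.1 (a : K))⁻¹) v.1
  · rintro v ⟨b, rfl⟩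
    refine ⟨a * b, ?_⟩
    simp
  · rintro v ⟨j, b, hb⟩
    have hb' : φ (b : K) = φ (a : K) ^ j * v := hb
    have hv : v = φ (((a : K) ^ j)⁻¹ * (b : K)) := by
      rw [map_mul, map_inv₀, map_pow, hb']
      field_simp
    rw [hv, ← map_mul, hw, hw]
    apply Subtype.ext; funext s
    rw [DD_apply, ww0_apply, ww0_apply, map_mul]
  · intro r
    have hfin := ZSpan.setFinite_inter (bb φ hne)
      (Metric.isBounded_closedBall (x := (0 : ℂ × WW φ)) (r := r))
    refine Set.Finite.of_injOn (f := fun v : ℂ => (v, w v)) ?_ ?_ hfin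
    · rintro v ⟨⟨b, hb⟩, h1, h2⟩
      refine ⟨?_, ?_⟩
      · rw [mem_closedBall_zero_iff, Prod.norm_def]
        exact max_le h1 h2
      · change _ ∈ Submodule.span ℤ (Set.range (bb φ hne))
        rw [span_bb]
        refine ⟨b, ?_⟩
        have hb' : φ (b : K) = v := hb
        change (φ (b : K), ww0 φ (b : K)) = (v, w v)
        rw [← hb', hw]
    · intro v _ v' _ h
      exact congrArg Prod.fst h
  · refine ⟨(∑ i, ‖bb φ hne i‖) + 1, ∑ i, ‖bb φ hne i‖, by positivity, by positivity, ?_⟩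
    intro z v
    have h1 : ((ZSpan.floor (bb φ hne) (z, v) : ℂ × WW φ)) ∈ LinearMap.range (Psi φ) := by
      have h0 := (ZSpan.floor (bb φ hne) (z, v)).2
      exact (span_bb φ hne) ▸ h0
    obtain ⟨b, hb⟩ := h1
    have h2 := ZSpan.norm_fract_le (bb φ hne) (z, v)
    rw [ZSpan.fract_apply, ← hb, Psi_apply, Prod.norm_def] at h2
    refine ⟨φ (b : K), ⟨b, rfl⟩, ?_, ?_⟩
    · have := (le_max_left _ _).trans h2
      rw [norm_sub_rev]
      refine le_trans this (by linarith)
    · have := (le_max_right _ _).trans h2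
      rw [norm_sub_rev, hw]
      exact this

end core

theorem exists_algData (lam : ℂ) (hint : IsIntegral ℤ lam) (h1 : 1 < ‖lam‖)
    (hp : ∀ mu : ℂ, Polynomial.aeval mu (minpoly ℚ lam) = 0 → mu ≠ lam →
      mu ≠ starRingEnd ℂ lam → ‖mu‖ < ‖lam‖) :
    ∃ (J : Type) (_ : Fintype J) (W : Submodule ℝ (J → ℂ)) (L : AddSubgroup ℂ)
      (w : ℂ →+ W) (D : W ≃ₗ[ℝ] W) (rho rho' : ℝ),
      0 ≤ rho ∧ rho < ‖lam‖ ∧ 0 ≤ rho' ∧ (∀ v, ‖D v‖ ≤ rho * ‖v‖) ∧
      (∀ v, ‖D.symm v‖ ≤ rho' * ‖v‖) ∧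
      (∀ v ∈ L, lam * v ∈ L) ∧
      (∀ v, (∃ j : ℕ, lam ^ j * v ∈ L) → w (lam * v) = D (w v)) ∧
      (∀ r, {v | v ∈ L ∧ ‖v‖ ≤ r ∧ ‖w v‖ ≤ r}.Finite) ∧
      (∃ R0 Bc, 0 < R0 ∧ 0 ≤ Bc ∧ ∀ (z : ℂ) (v : W), ∃ y ∈ L, ‖y - z‖ ≤ R0 ∧ ‖w y - v‖ ≤ Bc) := by
  have hlam0 : lam ≠ 0 := by
    rintro rfl; simp at h1; linarith
  -- the extra generator
  obtain ⟨s, hsi, hsne, hs⟩ : ∃ s : ℂ, IsIntegral ℤ s ∧ starRingEnd ℂ s ≠ s ∧
      (s = lam ∨ (s = Complex.I ∧ starRingEnd ℂ lam = lam)) := by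
    by_cases hr : starRingEnd ℂ lam = lam
    · refine ⟨Complex.I, ?_, ?_, Or.inr ⟨rfl, hr⟩⟩
      · refine ⟨Polynomial.X ^ 2 + Polynomial.C 1, ?_, ?_⟩
        · exact Polynomial.monic_X_pow_add_C 1 two_ne_zero
        · simp
      · rw [Complex.conj_I]
        intro h
        have := congrArg Complex.im h
        simp at this
        norm_num at this
    · exact ⟨lam, hint, hr, Or.inl rfl⟩
  let K : IntermediateField ℚ ℂ := IntermediateField.adjoin ℚ {lam, s}
  have hintQ : IsIntegral ℚ lam := hint.tower_top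
  have hsiQ : IsIntegral ℚ s := hsi.tower_top
  have : FiniteDimensional ℚ K := IntermediateField.finiteDimensional_adjoin_pair hintQ hsiQ
  have : NumberField K := ⟨⟩
  have hlK : lam ∈ K := IntermediateField.subset_adjoin _ _ (by simp)
  have hsK : s ∈ K := IntermediateField.subset_adjoin _ _ (by simp)
  let φ : K →+* ℂ := algebraMap K ℂ
  have hext : ∀ σ τ : K →+* ℂ, σ ⟨lam, hlK⟩ = τ ⟨lam, hlK⟩ → σ ⟨s, hsK⟩ = τ ⟨s, hsK⟩ → σ = τ := by
    intro σ τ e1 e2
    have : σ.toRatAlgHom = τ.toRatAlgHom := by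
      refine IntermediateField.algHom_ext_of_eq_adjoin (F := ℚ) (E := ℂ) (K := ℂ) (S := K)
        (s := {lam, s}) rfl ?_
      intro x hx
      rcases hx with rfl | hx
      · exact e1
      · rw [Set.mem_singleton_iff] at hx
        subst hx
        exact e2
    ext x
    exact congrArg (fun f => f x) this
  have hφl : φ ⟨lam, hlK⟩ = lam := rfl
  have hφs : φ ⟨s, hsK⟩ = s := rfl
  have hne : conjugate φ ≠ φ := by
    intro h
    have := congrArg (fun f : K →+* ℂ => f ⟨s, hsK⟩) h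
    simp only [conjugate_coe_eq, hφs] at this
    exact hsne this
  have hkey : ∀ σ : K →+* ℂ, (σ ⟨lam, hlK⟩ = lam ∨ σ ⟨lam, hlK⟩ = starRingEnd ℂ lam) →
      σ = φ ∨ σ = conjugate φ := by
    intro σ hσ
    rcases hs with hs | ⟨hs, hreal⟩
    · subst hs
      rcases hσ with h | h
      · left; exact hext σ φ h h
      · right
        apply hext σ (conjugate φ)
        · rw [conjugate_coe_eq, hφl]; exact h
        · rw [conjugate_coe_eq, hφs]; exact h
    · subst hs
      rw [hreal, or_self] at hσ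
      have hsq : (σ ⟨Complex.I, hsK⟩ - Complex.I) * (σ ⟨Complex.I, hsK⟩ + Complex.I) = 0 := by
        have h2 : (⟨Complex.I, hsK⟩ : K) * ⟨Complex.I, hsK⟩ = -1 := by
          apply Subtype.ext
          simp
        have h3 := congrArg σ h2
        rw [map_mul, map_neg, map_one] at h3
        have h4 : Complex.I * Complex.I = -1 := Complex.I_mul_I
        linear_combination h3 - h4
      rcases mul_eq_zero.1 hsq with h | h
      · left
        exact hext σ φ (by rw [hφl]; exact hσ) (by rw [hφs]; exact sub_eq_zero.1 h)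
      · right
        refine hext σ (conjugate φ) (by rw [conjugate_coe_eq, hφl, hreal]; exact hσ) ?_
        rw [conjugate_coe_eq, hφs, Complex.conj_I]
        exact eq_neg_of_add_eq_zero_left h
  have haint : IsIntegral ℤ (⟨lam, hlK⟩ : K) := by
    have := (isIntegral_algebraMap_iff (R := ℤ) (A := K) (B := ℂ) (x := ⟨lam, hlK⟩)
      (algebraMap K ℂ).injective).1
    exact this hint
  let a : 𝓞 K := ⟨⟨lam, hlK⟩, haint⟩
  have hacoe : (a : K) = ⟨lam, hlK⟩ := rfl
  have ha0 : (a : K) ≠ 0 := by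
    rw [hacoe]
    intro h
    exact hlam0 (congrArg Subtype.val h)
  have hφa : φ (a : K) = lam := rfl
  have hroot : Polynomial.aeval (⟨lam, hlK⟩ : K) (minpoly ℚ lam) = 0 := by
    apply (algebraMap K ℂ).injective
    rw [← Polynomial.aeval_algebraMap_apply, map_zero]
    exact minpoly.aeval ℚ lam
  have hdom : ∀ t : JJ φ, ‖t.1 (a : K)‖ < ‖φ (a : K)‖ := by
    intro t
    rw [hφa, hacoe]
    apply hp
    · have := congrArg t.1.toRatAlgHom hroot
      rw [← Polynomial.aeval_algHom_apply, map_zero] at this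
      exact this
    · intro h
      rcases hkey t.1 (Or.inl h) with h | h
      · exact t.2.1 h
      · exact t.2.2 h
    · intro h
      rcases hkey t.1 (Or.inr h) with h | h
      · exact t.2.1 h
      · exact t.2.2 h
  exact core_data φ hne a ha0 hdom

end Pool.Agent.H475R3
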