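import Mathlib

set_option autoImplicit false
open Set

namespace Pool.Agent.H475R3

/-- algebraic data attached to an expansion constant. -/
structure Alg (W : Type) [NormedAddCommGroup W] [NormedSpace ℝ W] where
  lam : ℂ
  h1 : 1 < ‖lam‖
  L : AddSubgroup ℂ
  w : ℂ →+ W
  D : W ≃ₗ[ℝ] W
  rho : ℝ
  rho' : ℝ
  hrho0 : 0 ≤ rho
  hrho : rho < ‖lam‖
  hrho' : 0 ≤ rho'
  hD : ∀ v, ‖D v‖ ≤ rho * ‖v‖
  hD' : ∀ v, ‖D.symm v‖ ≤ rho' * ‖v‖
  hL : ∀ v ∈ L, lam * v ∈ L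
  hw : ∀ v, (∃ j : ℕ, lam ^ j * v ∈ L) → w (lam * v) = D (w v)
  fin : ∀ r : ℝ, {v | v ∈ L ∧ ‖v‖ ≤ r ∧ ‖w v‖ ≤ r}.Finite
  R0 : ℝ
  Bc : ℝ
  hR0 : 0 < R0
  hBc : 0 ≤ Bc
  coc : ∀ (z : ℂ) (v : W), ∃ y ∈ L, ‖y - z‖ ≤ R0 ∧ ‖w y - v‖ ≤ Bc

namespace Alg
variable {W : Type} [NormedAddCommGroup W] [NormedSpace ℝ W] (G : Alg W)

noncomputable def a : ℝ := ‖G.lam‖
lemma a1 : 1 < G.a := G.h1
lemma a0 : 0 < G.a := lt_trans zero_lt_one G.h1
lemma lam0 : G.lam ≠ 0 := norm_pos_iff.1 G.a0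
lemma ap (k : ℤ) : 0 < G.a ^ k := zpow_pos G.a0 k
lemma norm_lam_zpow (k : ℤ) : ‖G.lam ^ k‖ = G.a ^ k := norm_zpow _ _

/-- the module `M`. -/
def M : Set ℂ := {v | ∃ j : ℕ, G.lam ^ j * v ∈ G.L}

lemma L_pow (v : ℂ) (hv : v ∈ G.L) (j : ℕ) : G.lam ^ j * v ∈ G.L := by
  induction j with
  | zero => simpa using hv
  | succ j ih =>
    have := G.hL _ ih
    rw [pow_succ']
    rwa [mul_assoc]

lemma M_of_L {v : ℂ} (hv : v ∈ G.L) : v ∈ G.M := ⟨0, by simpa using hv⟩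

lemma M_sub {u v : ℂ} (hu : u ∈ G.M) (hv : v ∈ G.M) : u - v ∈ G.M := by
  obtain ⟨i, hi⟩ := hu
  obtain ⟨j, hj⟩ := hv
  refine ⟨i + j, ?_⟩
  have h1 := G.L_pow _ hi j
  have h2 := G.L_pow _ hj i
  have : G.lam ^ (i + j) * (u - v) = G.lam ^ j * (G.lam ^ i * u) - G.lam ^ i * (G.lam ^ j * v) := by
    rw [pow_add]; ring
  rw [this]
  exact G.L.sub_mem h1 h2

lemma M_zpow {v : ℂ} (hv : v ∈ G.M) (k : ℤ) : G.lam ^ k * v ∈ G.M := by
  obtain ⟨i, hi⟩ := hv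
  rcases Int.eq_nat_or_neg k with ⟨n, rfl | rfl⟩
  · refine ⟨i, ?_⟩
    have := G.L_pow _ hi n
    rw [zpow_natCast]
    have e : G.lam ^ i * (G.lam ^ n * v) = G.lam ^ n * (G.lam ^ i * v) := by ring
    rwa [e]
  · refine ⟨i + n, ?_⟩
    have e : G.lam ^ (i + n) * (G.lam ^ (-(n : ℤ)) * v) = G.lam ^ i * v := by
      rw [zpow_neg, zpow_natCast, pow_add]
      field_simp [G.lam0]
    rwa [e]

lemma M_of_zpow {v : ℂ} (k : ℤ) (hv : G.lam ^ k * v ∈ G.L) : v ∈ G.M := by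
  have := G.M_zpow (G.M_of_L hv) (-k)
  have e : G.lam ^ (-k) * (G.lam ^ k * v) = v := by
    rw [← mul_assoc, ← zpow_add₀ G.lam0]; simp
  rwa [e] at this

noncomputable def Dz (d : ℤ) : W →ₗ[ℝ] W := ((G.D ^ d : W ≃ₗ[ℝ] W) : W →ₗ[ℝ] W)

lemma w_mul {v : ℂ} (hv : v ∈ G.M) : G.w (G.lam * v) = G.D (G.w v) := G.hw v hv

lemma w_zpow {v : ℂ} (hv : v ∈ G.M) (d : ℤ) : G.w (G.lam ^ d * v) = G.Dz d (G.w v) := by
  have hnat : ∀ (n : ℕ) (v : ℂ), v ∈ G.M → G.w (G.lam ^ (n : ℤ) * v) = G.Dz n (G.w v) := by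
    intro n
    induction n with
    | zero => intro v _; simp [Dz]
    | succ n ih =>
      intro v hv
      have e : G.lam ^ ((n + 1 : ℕ) : ℤ) * v = G.lam ^ (n : ℤ) * (G.lam * v) := by
        push_cast
        rw [zpow_add₀ G.lam0, zpow_one]; ring
      have hv' : G.lam * v ∈ G.M := by simpa using G.M_zpow hv 1
      rw [e, ih _ hv', G.w_mul hv]
      simp only [Dz]
      push_cast
      rw [zpow_add, zpow_one]
      rfl
  rcases Int.eq_nat_or_neg d with ⟨n, rfl | rfl⟩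
  · exact hnat n v hv
  · have hv' : G.lam ^ (-(n : ℤ)) * v ∈ G.M := G.M_zpow hv _
    have h := hnat n _ hv'
    have e : G.lam ^ (n : ℤ) * (G.lam ^ (-(n : ℤ)) * v) = v := by
      rw [← mul_assoc, ← zpow_add₀ G.lam0]; simp
    rw [e] at h
    rw [h]
    simp only [Dz]
    change _ = ((G.D ^ (-(n : ℤ))) * (G.D ^ (n : ℤ))) _
    rw [← zpow_add, neg_add_cancel]
    rfl

noncomputable def M1 : ℝ := max 1 (max G.rho G.rho')
lemma M1_one : 1 ≤ G.M1 := le_max_left _ _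
lemma M1_rho : G.rho ≤ G.M1 := (le_max_left _ _).trans (le_max_right _ _)
lemma M1_rho' : G.rho' ≤ G.M1 := (le_max_right _ _).trans (le_max_right _ _)

lemma Dz_small (d : ℤ) (hd : |d| ≤ 1) (v : W) : ‖G.Dz d v‖ ≤ G.M1 * ‖v‖ := by
  have hd' : d = -1 ∨ d = 0 ∨ d = 1 := by
    rw [abs_le] at hd; omega
  rcases hd' with rfl | rfl | rfl
  · have : G.Dz (-1) v = G.D.symm v := by simp [Dz]
    rw [this]
    exact (G.hD' v).trans (mul_le_mul_of_nonneg_right G.M1_rho' (norm_nonneg _))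
  · have : G.Dz 0 v = v := by simp [Dz]
    rw [this]
    nlinarith [G.M1_one, norm_nonneg v]
  · have : G.Dz 1 v = G.D v := by simp [Dz]
    rw [this]
    exact (G.hD v).trans (mul_le_mul_of_nonneg_right G.M1_rho (norm_nonneg _))

lemma Dz_nat (n : ℕ) (v : W) : ‖G.Dz n v‖ ≤ G.rho ^ n * ‖v‖ := by
  induction n generalizing v with
  | zero => simp [Dz]
  | succ n ih =>
    have e : G.Dz ((n + 1 : ℕ) : ℤ) v = G.Dz n (G.D v) := by
      simp only [Dz]; push_cast; rw [zpow_add, zpow_one]; rfl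
    rw [e]
    calc ‖G.Dz n (G.D v)‖ ≤ G.rho ^ n * ‖G.D v‖ := ih _
      _ ≤ G.rho ^ n * (G.rho * ‖v‖) := mul_le_mul_of_nonneg_left (G.hD v) (pow_nonneg G.hrho0 n)
      _ = G.rho ^ (n + 1) * ‖v‖ := by ring

noncomputable def B0 : ℝ := G.M1 * (G.Bc + 1)
noncomputable def R : ℝ := 2 * G.R0 * G.a
noncomputable def K : ℝ := G.B0 + G.M1 * G.B0 + 1
lemma hR : 0 < G.R := by have := G.hR0; have := G.a0; unfold R; positivity
lemma hB0 : 0 < G.B0 := by have := G.hBc; have := G.M1_one; unfold B0; positivity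
lemma hK : 0 < G.K := by have := G.hB0; have := G.M1_one; unfold K; positivity

/-- the finite set of differences -/
def DD (r : ℝ) : Set ℂ := {v | G.lam * v ∈ G.L ∧ ‖v‖ ≤ r * G.a ∧ ‖G.w v‖ ≤ G.K}

lemma DD_finite (r : ℝ) : (G.DD r).Finite := by
  have h := G.fin (max (r * G.a * G.a) (G.rho * G.K))
  have hinj : Function.Injective (fun v : ℂ => G.lam * v) := mul_right_injective₀ G.lam0
  refine Set.Finite.of_finite_image (f := fun v : ℂ => G.lam * v) (h.subset ?_) hinj.injOn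
  rintro _ ⟨v, ⟨h1, h2, h3⟩, rfl⟩
  refine ⟨h1, ?_, ?_⟩
  · refine le_trans ?_ (le_max_left _ _)
    simp only [norm_mul]
    have : ‖G.lam‖ = G.a := rfl
    rw [this]
    nlinarith [G.a0]
  · refine le_trans ?_ (le_max_right _ _)
    have hv : v ∈ G.M := ⟨1, by simpa using h1⟩
    simp only
    rw [G.w_mul hv]
    exact (G.hD _).trans (mul_le_mul_of_nonneg_left h3 G.hrho0)

end Alg
end Pool.Agent.H475R3
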