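import Pool.Agent.H475R3.Tiles2

set_option autoImplicit false
open Set Metric Filter Topology

namespace Pool.Agent.H475R3
namespace TS
variable (S : TS)

/-- the shift by `lam ^ j`. -/
noncomputable def sh (lam : ℂ) (j : ℤ) (p : ℂ × ℤ) : ℂ × ℤ := (lam ^ j * p.1, p.2 + j)

lemma sh_sh (lam : ℂ) (h0 : lam ≠ 0) (i j : ℤ) (p : ℂ × ℤ) : sh lam i (sh lam j p) = sh lam (i + j) p := by
  simp only [sh, zpow_add₀ h0]
  ext
  · simp [mul_assoc]
  · simp only; ring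

lemma sh_zero (lam : ℂ) (p : ℂ × ℤ) : sh lam 0 p = p := by simp [sh]

/-- all data needed for the assembly of the final tiling -/
structure Data where
  S : TS
  lam : ℂ
  hlam : ‖lam‖ = S.a
  hP : ∀ n p, p ∈ S.P n ↔ sh lam 1 p ∈ S.P n
  hPar : ∀ n q p, S.Par n q p ↔ S.Par n (sh lam 1 q) (sh lam 1 p)
  C : Set (ℂ × ℤ)
  hCP : C ⊆ S.P 0
  hCs : ∀ p, sh lam 1 p ∈ C → p ∈ C
  hCout : ∀ p ∈ S.P 0, ∃ j : ℤ, sh lam j p ∉ C
  hCin : ∀ p ∈ S.P 0, ∃ j : ℤ, sh lam j p ∈ C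
  hCne : C.Nonempty
  hCb : ∃ B : ℝ, ∀ p ∈ C, ‖p.1‖ ≤ B
  hCpath : ∀ p ∈ C, ∃ A : Set (ℂ × ℤ), A.Finite ∧ S.Chain 0 A ∧ A ⊆ C ∧ p ∈ A ∧ sh lam (-1) p ∈ A
  N : ℕ
  hN : 1 ≤ N
  hshape : ∀ lo hi : ℤ, ∃ F : Finset (Set ℂ), ∀ n p, p ∈ S.P n → lo ≤ p.2 → p.2 ≤ hi →
    ∃ X ∈ F, ∃ z : ℂ, S.T n {p} = (fun w => w + z) '' X
  hlab : ∃ lo hi : ℤ, ∀ n p p0, p0 ∈ S.P 0 → p ∈ S.desc 0 n {p0} →
    sh lam (-((n : ℤ) * N + N)) p0 ∈ C → sh lam (-((n : ℤ) * N)) p0 ∉ C → lo ≤ p.2 ∧ p.2 ≤ hi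

namespace Data
variable (G : Data)

lemma lam0 : G.lam ≠ 0 := by
  rw [← norm_pos_iff, G.hlam]; exact lt_trans zero_lt_one G.S.ha

lemma sh_inj (j : ℤ) {p q : ℂ × ℤ} (h : sh G.lam j p = sh G.lam j q) : p = q := by
  have := congrArg (sh G.lam (-j)) h
  rwa [sh_sh _ G.lam0, sh_sh _ G.lam0, neg_add_cancel, sh_zero, sh_zero] at this

lemma T_sh (n : ℕ) (p : ℂ × ℤ) : G.S.T n {sh G.lam 1 p} = (fun z => G.lam * z) '' G.S.T n {p} := by
  have h := G.S.sim_T n n p (G.lam ^ (1 : ℤ)) 0 1 (by rw [zpow_one, zpow_one, G.hlam])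
    (fun n n' _ => n = n') ?_ ?_ rfl
  · simpa [sh] using h
  · rintro n n' p rfl q'
    have e : ((G.lam ^ (1 : ℤ)) * p.1 + 0, p.2 + 1) = sh G.lam 1 p := by simp [sh]
    rw [e]
    constructor
    · intro hq
      refine ⟨sh G.lam (-1) q', ?_, ?_⟩
      · rw [G.hPar, sh_sh _ G.lam0]
        simpa [sh_zero] using hq
      · have : sh G.lam 1 (sh G.lam (-1) q') = q' := by rw [sh_sh _ G.lam0]; simp [sh_zero]
        have e3 : ((G.lam ^ (1 : ℤ)) * (sh G.lam (-1) q').1 + 0, (sh G.lam (-1) q').2 + 1)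
            = sh G.lam 1 (sh G.lam (-1) q') := by simp only [sh, add_zero]
        exact e3.trans this
    · rintro ⟨q, hq, rfl⟩
      have e2 : ((G.lam ^ (1 : ℤ)) * q.1 + 0, q.2 + 1) = sh G.lam 1 q := by simp [sh]
      rw [e2]
      exact (G.hPar n q p).1 hq
  · rintro n n' p rfl q _
    rfl

lemma P_sh (n : ℕ) (p : ℂ × ℤ) (j : ℤ) : p ∈ G.S.P n ↔ sh G.lam j p ∈ G.S.P n := by
  have hnat : ∀ (i : ℕ) p, p ∈ G.S.P n ↔ sh G.lam (i : ℤ) p ∈ G.S.P n := by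
    intro i
    induction i with
    | zero => intro p; simp [sh_zero]
    | succ i ih =>
      intro p
      rw [ih p, G.hP n (sh G.lam (i : ℤ) p), sh_sh _ G.lam0]
      have : (1 : ℤ) + (i : ℤ) = ((i + 1 : ℕ) : ℤ) := by push_cast; ring
      rw [this]
  rcases Int.eq_nat_or_neg j with ⟨i, rfl | rfl⟩
  · exact hnat i p
  · rw [hnat i (sh G.lam (-(i : ℤ)) p), sh_sh _ G.lam0]
    simp [sh_zero]

lemma desc_sh (m : ℕ) (p q : ℂ × ℤ) (h : q ∈ G.S.desc 0 m {p}) :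
    sh G.lam 1 q ∈ G.S.desc 0 m {sh G.lam 1 p} := by
  induction m generalizing q with
  | zero =>
    have : q = p := h
    subst this; rfl
  | succ m ih =>
    obtain ⟨r, hr, hq⟩ := h
    exact ⟨sh G.lam 1 r, ih r hr, (G.hPar _ _ _).1 hq⟩

lemma C_down (p : ℂ × ℤ) (i : ℕ) (h : sh G.lam (i : ℤ) p ∈ G.C) : p ∈ G.C := by
  induction i generalizing p with
  | zero => simpa [sh_zero] using h
  | succ i ih =>
    apply ih
    apply G.hCs
    rw [sh_sh _ G.lam0]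
    have : (1 : ℤ) + (i : ℤ) = ((i + 1 : ℕ) : ℤ) := by push_cast; ring
    rw [this]; exact h

lemma C_mono (p : ℂ × ℤ) (i j : ℤ) (hij : i ≤ j) (h : sh G.lam j p ∈ G.C) : sh G.lam i p ∈ G.C := by
  apply G.C_down (sh G.lam i p) (j - i).toNat
  rw [sh_sh _ G.lam0, Int.toNat_of_nonneg (by omega)]
  simpa using h

def F0 : Set ℂ := {0} ∪ ⋃ p ∈ G.C, G.S.T 0 {p}

lemma T_sub_F0 (p : ℂ × ℤ) (hp : p ∈ G.C) : G.S.T 0 {p} ⊆ G.F0 := by
  intro z hz
  right
  exact mem_biUnion hp hz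

lemma F0_closed : IsClosed G.F0 := by
  rw [← isOpen_compl_iff, isOpen_iff_mem_nhds]
  intro z hz
  have hz0 : z ≠ 0 := by
    rintro rfl; exact hz (Or.inl rfl)
  obtain ⟨e, he, hfin⟩ := G.S.hloc 0 z hz0
  set B := {p | p ∈ G.S.P 0 ∧ ∃ z', ‖z' - z‖ ≤ e ∧ ‖z' - p.1‖ ≤ G.S.E * G.S.a ^ p.2} with hB
  have hBC : (B ∩ G.C).Finite := hfin.subset inter_subset_left
  have hcl : IsClosed (⋃ p ∈ B ∩ G.C, G.S.T 0 {p}) :=
    hBC.isClosed_biUnion (fun p _ => (G.S.T_compact 0 {p} (finite_singleton p)).isClosed)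
  have hz1 : z ∈ (⋃ p ∈ B ∩ G.C, G.S.T 0 {p})ᶜ := by
    intro h
    simp only [mem_iUnion] at h
    obtain ⟨p, hp, h⟩ := h
    exact hz (G.T_sub_F0 p hp.2 h)
  have h1 := hcl.isOpen_compl.mem_nhds hz1
  have h2 : ball z e ∈ 𝓝 z := ball_mem_nhds z he
  have h3 : ({0} : Set ℂ)ᶜ ∈ 𝓝 z := isOpen_compl_singleton.mem_nhds hz0
  filter_upwards [h1, h2, h3] with w hw1 hw2 hw3
  intro hw
  rcases hw with hw | hw
  · exact hw3 hw
  · simp only [mem_iUnion] at hw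
    obtain ⟨p, hp, hw⟩ := hw
    apply hw1
    have hb := G.S.T_subset_ball 0 p hw
    rw [mem_closedBall, dist_eq_norm] at hb
    have hpB : p ∈ B ∩ G.C := ⟨⟨G.hCP hp, w, by rw [← dist_eq_norm]; exact (mem_ball.1 hw2).le, hb⟩, hp⟩
    exact mem_biUnion hpB hw

lemma F0_compact : IsCompact G.F0 := by
  obtain ⟨B, hB⟩ := G.hCb
  refine (isCompact_closedBall (0 : ℂ) (2 * |B|)).of_isClosed_subset G.F0_closed ?_
  rintro z (hz | hz)
  · rw [mem_singleton_iff] at hz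
    subst hz
    exact mem_closedBall_self (by positivity)
  · simp only [mem_iUnion] at hz
    obtain ⟨p, hp, hz⟩ := hz
    have h1 := G.S.T_subset_ball 0 p hz
    rw [mem_closedBall, dist_eq_norm] at h1
    have h2 := G.S.hsmall 0 p (G.hCP hp)
    have h3 := (hB p hp).trans (le_abs_self B)
    rw [mem_closedBall, dist_zero_right]
    calc ‖z‖ ≤ ‖z - p.1‖ + ‖p.1‖ := by simpa using norm_sub_le_norm_sub_add_norm_sub z p.1 0
      _ ≤ 2 * |B| := by linarith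

lemma small_shift (x e : ℝ) (he : 0 < e) : ∃ i : ℕ, ∀ j : ℕ, i ≤ j → x * G.S.a ^ (-(j : ℤ)) < e := by
  obtain ⟨i, hi⟩ := pow_unbounded_of_one_lt (|x| / e) G.S.ha
  refine ⟨i, fun j hj => ?_⟩
  have h1 : G.S.a ^ i ≤ G.S.a ^ j := pow_le_pow_right₀ G.S.ha.le hj
  have h0 : 0 < G.S.a ^ j := pow_pos (lt_trans zero_lt_one G.S.ha) j
  rw [zpow_neg, zpow_natCast, ← div_eq_mul_inv, div_lt_iff₀ h0]
  rw [div_lt_iff₀ he] at hi
  calc x ≤ |x| := le_abs_self x
    _ < G.S.a ^ i * e := hi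
    _ ≤ e * G.S.a ^ j := by nlinarith

lemma norm_sh (j : ℤ) (p : ℂ × ℤ) : ‖(sh G.lam j p).1‖ = ‖p.1‖ * G.S.a ^ j := by
  simp only [sh, norm_mul, norm_zpow, G.hlam]; ring

lemma F0_closure : closure (interior G.F0) = G.F0 := by
  apply Subset.antisymm
  · exact closure_minimal interior_subset G.F0_closed
  · rintro z (hz | hz)
    · rw [mem_singleton_iff] at hz
      subst hz
      rw [Metric.mem_closure_iff]
      intro e he
      obtain ⟨p, hp⟩ := G.hCne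
      obtain ⟨i, hi⟩ := G.small_shift ‖p.1‖ e he
      have hq : sh G.lam (-(i : ℤ)) p ∈ G.C :=
        G.C_mono p _ 0 (by omega) (by simpa [sh_zero] using hp)
      refine ⟨(sh G.lam (-(i : ℤ)) p).1, ?_, ?_⟩
      · exact interior_mono (G.T_sub_F0 _ hq) (G.S.center_mem 0 _ (G.hCP hq))
      · rw [dist_zero_left, G.norm_sh]
        exact hi i le_rfl
    · simp only [mem_iUnion] at hz
      obtain ⟨p, hp, hz⟩ := hz
      rw [← G.S.closure_int 0 p (G.hCP hp)] at hz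
      exact closure_mono (interior_mono (G.T_sub_F0 p hp)) hz

lemma sh_eq (j : ℤ) : (fun p => sh G.lam j p) = fun p : ℂ × ℤ => sh G.lam j p := rfl

lemma T_sh_neg (n : ℕ) (p : ℂ × ℤ) (i : ℕ) :
    G.S.T n {sh G.lam (-(i : ℤ)) p} = (fun z => (G.lam ^ i)⁻¹ * z) '' G.S.T n {p} := by
  induction i with
  | zero => simp [sh_zero]
  | succ i ih =>
    have h1 := G.T_sh n (sh G.lam (-((i + 1 : ℕ) : ℤ)) p)
    have h2 : sh G.lam 1 (sh G.lam (-((i + 1 : ℕ) : ℤ)) p) = sh G.lam (-(i : ℤ)) p := by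
      rw [sh_sh _ G.lam0]; congr 1; push_cast; ring
    rw [h2, ih] at h1
    have h3 := congrArg (fun X => (fun z => G.lam⁻¹ * z) '' X) h1
    simp only [image_image] at h3
    have h4 : (fun x : ℂ => G.lam⁻¹ * (G.lam * x)) = id := by
      ext x; simp [inv_mul_cancel_left₀ G.lam0]
    rw [h4, image_id] at h3
    rw [← h3]
    congr 1
    ext x
    rw [pow_succ, mul_inv]; ring

lemma T_union_sh (A : Set (ℂ × ℤ)) (hA : A.Finite) (i : ℕ) :
    G.S.T 0 ((fun p => sh G.lam (-(i : ℤ)) p) '' A) = (fun z => (G.lam ^ i)⁻¹ * z) '' G.S.T 0 A := by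
  rw [G.S.T_union 0 _ (hA.image _), G.S.T_union 0 A hA, image_iUnion₂, biUnion_image]
  exact iUnion₂_congr (fun p _ => G.T_sh_neg 0 p i)

lemma F0_connected : IsConnected G.F0 := by
  refine ⟨⟨0, Or.inl rfl⟩, ?_⟩
  have hkey : ∀ p ∈ G.C, ∃ X : Set ℂ, X ⊆ G.F0 ∧ (0 : ℂ) ∈ X ∧ G.S.T 0 {p} ⊆ X ∧ IsPreconnected X := by
    intro p hp
    obtain ⟨A, hAf, hAch, hAC, hpA, hpA'⟩ := G.hCpath p hp
    have hconn : IsConnected (G.S.T 0 A) := G.S.T_connected 0 A hAf hAch (hAC.trans G.hCP)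
    let U : ℕ → Set ℂ := fun i => (fun z => (G.lam ^ i)⁻¹ * z) '' G.S.T 0 A
    have hUc : ∀ i, IsPreconnected (U i) := fun i =>
      (hconn.isPreconnected.image _ (by fun_prop))
    have hpU : ∀ i : ℕ, G.S.T 0 {sh G.lam (-(i : ℤ)) p} ⊆ U i := by
      intro i
      rw [G.T_sh_neg]
      exact image_mono (G.S.T_mono 0 (singleton_subset_iff.2 hpA))
    have hpU' : ∀ i : ℕ, G.S.T 0 {sh G.lam (-((i + 1 : ℕ) : ℤ)) p} ⊆ U i := by
      intro i
      have e : sh G.lam (-((i + 1 : ℕ) : ℤ)) p = sh G.lam (-(i : ℤ)) (sh G.lam (-1) p) := by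
        rw [sh_sh _ G.lam0]; congr 1; push_cast; ring
      rw [e, G.T_sh_neg]
      exact image_mono (G.S.T_mono 0 (singleton_subset_iff.2 hpA'))
    have hUn : IsPreconnected (⋃ i, U i) := by
      apply IsPreconnected.iUnion_of_chain hUc
      intro i
      have hq : sh G.lam (-((i + 1 : ℕ) : ℤ)) p ∈ G.S.P 0 := (G.P_sh 0 p _).1 (G.hCP hp)
      obtain ⟨z, hz⟩ := (G.S.single_connected 0 _ hq).nonempty
      exact ⟨z, hpU' i hz, hpU (i + 1) hz⟩
    have hUF : (⋃ i, U i) ⊆ G.F0 := by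
      intro z hz
      rw [mem_iUnion] at hz
      obtain ⟨i, hz⟩ := hz
      have : z ∈ G.S.T 0 ((fun p => sh G.lam (-(i : ℤ)) p) '' A) := by
        rw [G.T_union_sh A hAf i]; exact hz
      rw [G.S.T_union 0 _ (hAf.image _), biUnion_image] at this
      simp only [mem_iUnion] at this
      obtain ⟨q, hq, hz'⟩ := this
      refine G.T_sub_F0 _ ?_ hz'
      exact G.C_mono q _ 0 (by omega) (by simpa [sh_zero] using hAC hq)
    have h0cl : (0 : ℂ) ∈ closure (⋃ i, U i) := by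
      rw [Metric.mem_closure_iff]
      intro e he
      obtain ⟨i, hi⟩ := G.small_shift ‖p.1‖ e he
      refine ⟨(sh G.lam (-(i : ℤ)) p).1, ?_, ?_⟩
      · refine mem_iUnion.2 ⟨i, hpU i ?_⟩
        exact interior_subset (G.S.center_mem 0 _ ((G.P_sh 0 p _).1 (G.hCP hp)))
      · rw [dist_zero_left, G.norm_sh]
        exact hi i le_rfl
    refine ⟨insert 0 (⋃ i, U i), ?_, mem_insert _ _, ?_, ?_⟩
    · exact insert_subset (Or.inl rfl) hUF
    · refine Subset.trans ?_ (subset_insert _ _)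
      refine Subset.trans ?_ (subset_iUnion U 0)
      simpa [sh_zero] using hpU 0
    · apply hUn.subset_closure (subset_insert _ _)
      exact insert_subset h0cl subset_closure
  choose! X hX1 hX2 hX3 hX4 using hkey
  have hF : G.F0 = ⋃₀ (insert {0} (X '' G.C)) := by
    apply Subset.antisymm
    · rintro z (hz | hz)
      · exact mem_sUnion.2 ⟨{0}, mem_insert _ _, hz⟩
      · simp only [mem_iUnion] at hz
        obtain ⟨p, hp, hz⟩ := hz
        exact mem_sUnion.2 ⟨X p, Or.inr ⟨p, hp, rfl⟩, hX3 p hp hz⟩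
    · apply sUnion_subset
      rintro Y (rfl | ⟨p, hp, rfl⟩)
      · rintro z hz; exact Or.inl hz
      · exact hX1 p hp
  rw [hF]
  apply isPreconnected_sUnion 0
  · rintro Y (rfl | ⟨p, hp, rfl⟩)
    · rfl
    · exact hX2 p hp
  · rintro Y (rfl | ⟨p, hp, rfl⟩)
    · exact isPreconnected_singleton
    · exact hX4 p hp

/-- membership in the final tiling at generation `n`. -/
def Sel (n : ℕ) (p : ℂ × ℤ) : Prop :=
  ∃ p0 ∈ G.S.P 0, p ∈ G.S.desc 0 n {p0} ∧ sh G.lam (-((n : ℤ) * G.N + G.N)) p0 ∈ G.C ∧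
    sh G.lam (-((n : ℤ) * G.N)) p0 ∉ G.C

lemma Sel_P (n : ℕ) (p : ℂ × ℤ) (h : G.Sel n p) : p ∈ G.S.P n := by
  obtain ⟨p0, hp0, hp, _⟩ := h
  have := G.S.desc_single_subset 0 n p0 p hp0 hp
  rwa [zero_add] at this

def Til : Set (Set ℂ) := {G.F0} ∪ {t | ∃ n p, G.Sel n p ∧ t = G.S.T n {p}}

lemma anc_le (m k : ℕ) (p0 q : ℂ × ℤ) (h : q ∈ G.S.desc 0 (m + k) {p0}) :
    ∃ r ∈ G.S.desc 0 m {p0}, q ∈ G.S.desc m k {r} := by
  induction k generalizing q with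
  | zero => exact ⟨q, h, rfl⟩
  | succ k ih =>
    obtain ⟨s, hs, hq⟩ := h
    obtain ⟨r, hr, hsr⟩ := ih s hs
    refine ⟨r, hr, s, hsr, ?_⟩
    rw [show m + k = 0 + (m + k) by omega]; exact hq

lemma disj_Sel_aux (n k : ℕ) (p q : ℂ × ℤ) (hp : G.Sel n p) (hq : G.Sel (n + k) q)
    (hne : G.S.T n {p} ≠ G.S.T (n + k) {q}) :
    Disjoint (interior (G.S.T n {p})) (interior (G.S.T (n + k) {q})) := by
  obtain ⟨p0, hp0, hpd, hp1, hp2⟩ := hp
  obtain ⟨q0, hq0, hqd, hq1, hq2⟩ := hq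
  obtain ⟨r, hr, hqr⟩ := G.anc_le n k q0 q hqd
  have hpP : p ∈ G.S.P n := by
    have := G.S.desc_single_subset 0 n p0 p hp0 hpd
    rwa [zero_add] at this
  have hrP : r ∈ G.S.P n := by
    have := G.S.desc_single_subset 0 n q0 r hq0 hr
    rwa [zero_add] at this
  by_cases hpr : p = r
  · subst hpr
    have h00 : p0 = q0 := G.S.ancestor_unique 0 n p p0 q0 hpd hr
    subst h00
    have hk : k = 0 := by
      by_contra hk
      apply hq2
      refine G.C_mono p0 _ _ ?_ hp1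
      have : (1 : ℤ) ≤ k := by omega
      have hN : (1 : ℤ) ≤ G.N := by exact_mod_cast G.hN
      push_cast
      nlinarith
    subst hk
    have : q = p := hqr
    subst this
    exact absurd rfl hne
  · refine (G.S.disj_same n p r hpP hrP hpr).mono_right ?_
    exact interior_mono (G.S.T_desc_sub n k r q hqr)

lemma disj_Sel (n m : ℕ) (p q : ℂ × ℤ) (hp : G.Sel n p) (hq : G.Sel m q)
    (hne : G.S.T n {p} ≠ G.S.T m {q}) :
    Disjoint (interior (G.S.T n {p})) (interior (G.S.T m {q})) := by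
  rcases le_total n m with h | h
  · obtain ⟨k, rfl⟩ := Nat.exists_eq_add_of_le h
    exact G.disj_Sel_aux n k p q hp hq hne
  · obtain ⟨k, rfl⟩ := Nat.exists_eq_add_of_le h
    exact (G.disj_Sel_aux m k q p hq hp hne.symm).symm

lemma disj_F0 (n : ℕ) (p : ℂ × ℤ) (hp : G.Sel n p) :
    Disjoint (interior (G.S.T n {p})) (interior G.F0) := by
  rw [disjoint_iff_inter_eq_empty]
  by_contra hcon
  obtain ⟨m, q, hq, hqi⟩ := G.S.meet n p G.F0 (nonempty_iff_ne_empty.2 hcon)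
  have hpP := G.Sel_P n p hp
  obtain ⟨p0, hp0, hpd, hp1, hp2⟩ := hp
  have hqP : q ∈ G.S.P (n + m) := G.S.desc_single_subset n m p q hpP hq
  have hq0 : q ∈ G.S.desc 0 (n + m) {p0} := by
    -- descend
    clear hqi hqP hcon
    induction m generalizing q with
    | zero => 
      have : q = p := hq
      subst this; exact hpd
    | succ m ih =>
      obtain ⟨s, hs, hqs⟩ := hq
      refine ⟨s, ih s hs, ?_⟩
      change G.S.Par (0 + (n + m)) q s
      rw [show 0 + (n + m) = n + m by omega]; exact hqs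
  have hqF := interior_subset hqi
  rcases hqF with h | h
  · have h' : q.1 = 0 := h
    have := G.S.hsmall (n + m) q hqP
    rw [h', norm_zero] at this
    exact absurd this (not_lt.2 (mul_pos G.S.hE (G.S.apos _)).le)
  · simp only [mem_iUnion] at h
    obtain ⟨r, hr, hqr⟩ := h
    have h1 := G.S.center_desc 0 (n + m) r q (G.hCP hr) (by rwa [zero_add]) hqr
    have h2 := G.S.ancestor_unique 0 (n + m) q r p0 h1 hq0
    subst h2
    apply hp2
    refine G.C_mono r _ 0 ?_ (by simpa [sh_zero] using hr)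
    have : (0 : ℤ) ≤ (n : ℤ) * G.N := by positivity
    omega

/-- ring index -/
lemma exists_ring (p : ℂ × ℤ) (hp : p ∈ G.S.P 0) :
    ∃ j : ℤ, sh G.lam (-j) p ∈ G.C ∧ sh G.lam (-(j - 1)) p ∉ G.C := by
  obtain ⟨i, hi⟩ := G.hCout p hp
  obtain ⟨k, hk⟩ := G.hCin p hp
  obtain ⟨j, hj1, hj2⟩ := Int.exists_least_of_bdd (P := fun j => sh G.lam (-j) p ∈ G.C)
    ⟨-i, fun j hj => by
      by_contra hcon
      push Not at hcon
      exact hi (G.C_mono p i (-j) (by omega) hj)⟩ ⟨-k, by simpa using hk⟩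
  refine ⟨j, hj1, fun h => ?_⟩
  have := hj2 (j - 1) h
  omega

lemma tiling_cover : ⋃₀ G.Til = univ := by
  rw [eq_univ_iff_forall]
  intro z
  by_cases hz : z = 0
  · subst hz
    exact mem_sUnion.2 ⟨G.F0, Or.inl rfl, Or.inl rfl⟩
  obtain ⟨p, hp, hzp⟩ := G.S.cover 0 z hz
  obtain ⟨j, hj1, hj2⟩ := G.exists_ring p hp
  by_cases hj : j ≤ 0
  · refine mem_sUnion.2 ⟨G.F0, Or.inl rfl, ?_⟩
    refine G.T_sub_F0 p ?_ hzp
    have := G.C_mono p 0 (-j) (by omega) hj1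
    simpa [sh_zero] using this
  · push Not at hj
    have hN : (0 : ℤ) < G.N := by exact_mod_cast G.hN
    -- n N < j ≤ n N + N
    have hdiv := Int.emod_add_mul_ediv (j - 1) G.N
    have hmod1 := Int.emod_nonneg (j - 1) (ne_of_gt hN)
    have hmod2 := Int.emod_lt_of_pos (j - 1) hN
    have hq0 : 0 ≤ (j - 1) / G.N := Int.ediv_nonneg (by omega) hN.le
    obtain ⟨n, hn⟩ := Int.eq_ofNat_of_zero_le hq0
    rw [G.S.desc_T 0 n {p} (finite_singleton p)] at hzp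
    simp only [mem_iUnion] at hzp
    obtain ⟨q, hq, hzq⟩ := hzp
    rw [zero_add] at hzq
    refine mem_sUnion.2 ⟨G.S.T n {q}, Or.inr ⟨n, q, ⟨p, hp, hq, ?_, ?_⟩, rfl⟩, hzq⟩
    · refine G.C_mono p _ _ ?_ hj1
      rw [hn] at hdiv
      nlinarith
    · intro hcon
      apply hj2
      refine G.C_mono p _ _ ?_ hcon
      rw [hn] at hdiv
      nlinarith

lemma T_scaled (t : Set ℂ) (ht : t ∈ G.Til) :
    ∃ Q ⊆ G.Til, (fun w => G.lam * w) '' t = ⋃₀ Q := by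
  have hN : (1 : ℤ) ≤ G.N := by exact_mod_cast G.hN
  rcases ht with ht | ⟨n, p, hsel, rfl⟩
  · rw [mem_singleton_iff] at ht
    subst ht
    refine ⟨{t | t = G.F0 ∨ ∃ p, p ∈ G.C ∧ sh G.lam 1 p ∉ G.C ∧ t = G.S.T 0 {sh G.lam 1 p}}, ?_, ?_⟩
    · rintro t (rfl | ⟨p, hp, hp', rfl⟩)
      · exact Or.inl rfl
      · refine Or.inr ⟨0, sh G.lam 1 p, ⟨sh G.lam 1 p, (G.P_sh 0 p 1).1 (G.hCP hp), rfl, ?_, ?_⟩, rfl⟩
        · rw [sh_sh _ G.lam0]
          refine G.C_mono p _ 0 ?_ (by simpa [sh_zero] using hp)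
          push_cast; omega
        · rw [sh_sh _ G.lam0]
          simpa using hp'
    · ext z
      constructor
      · rintro ⟨w, hw, rfl⟩
        rcases hw with hw | hw
        · rw [mem_singleton_iff] at hw
          subst hw
          exact mem_sUnion.2 ⟨G.F0, Or.inl rfl, Or.inl (by simp)⟩
        · simp only [mem_iUnion] at hw
          obtain ⟨p, hp, hw⟩ := hw
          have h1 : G.lam * w ∈ G.S.T 0 {sh G.lam 1 p} := by
            rw [G.T_sh]; exact ⟨w, hw, rfl⟩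
          by_cases hc : sh G.lam 1 p ∈ G.C
          · exact mem_sUnion.2 ⟨G.F0, Or.inl rfl, G.T_sub_F0 _ hc h1⟩
          · exact mem_sUnion.2 ⟨_, Or.inr ⟨p, hp, hc, rfl⟩, h1⟩
      · intro hz
        obtain ⟨t, ht, hzt⟩ := mem_sUnion.1 hz
        rcases ht with rfl | ⟨p, hp, hp', rfl⟩
        · rcases hzt with h | h
          · rw [mem_singleton_iff] at h
            subst h
            exact ⟨0, Or.inl rfl, by simp⟩
          · simp only [mem_iUnion] at h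
            obtain ⟨q, hq, hzq⟩ := h
            have e : q = sh G.lam 1 (sh G.lam (-1) q) := by
              rw [sh_sh _ G.lam0]; simp [sh_zero]
            rw [e, G.T_sh] at hzq
            obtain ⟨w, hw, hwz⟩ := hzq
            refine ⟨w, G.T_sub_F0 (sh G.lam (-1) q) ?_ hw, hwz⟩
            exact G.C_mono q _ 0 (by omega) (by simpa [sh_zero] using hq)
        · rw [G.T_sh] at hzt
          obtain ⟨w, hw, hwz⟩ := hzt
          exact ⟨w, G.T_sub_F0 p hp hw, hwz⟩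
  · obtain ⟨p0, hp0, hpd, hp1, hp2⟩ := hsel
    have hd' := G.desc_sh n p0 p hpd
    have hp0' : sh G.lam 1 p0 ∈ G.S.P 0 := (G.P_sh 0 p0 1).1 hp0
    by_cases hc : sh G.lam (-((n : ℤ) * G.N + G.N)) (sh G.lam 1 p0) ∈ G.C
    · refine ⟨{G.S.T n {sh G.lam 1 p}}, ?_, ?_⟩
      · rw [singleton_subset_iff]
        refine Or.inr ⟨n, sh G.lam 1 p, ⟨sh G.lam 1 p0, hp0', hd', hc, ?_⟩, rfl⟩
        intro h
        apply hp2
        rw [sh_sh _ G.lam0] at h
        exact G.C_mono p0 _ _ (by omega) h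
      · rw [sUnion_singleton, G.T_sh]
    · refine ⟨{t | ∃ q, G.S.Par n q (sh G.lam 1 p) ∧ t = G.S.T (n + 1) {q}}, ?_, ?_⟩
      · rintro t ⟨q, hq, rfl⟩
        refine Or.inr ⟨n + 1, q, ⟨sh G.lam 1 p0, hp0', ⟨sh G.lam 1 p, hd', ?_⟩, ?_, ?_⟩, rfl⟩
        · rw [zero_add]; exact hq
        · rw [sh_sh _ G.lam0]
          refine G.C_mono p0 _ _ ?_ hp1
          push_cast
          nlinarith
        · intro h
          apply hc
          refine G.C_mono _ _ _ ?_ h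
          push_cast
          nlinarith
      · rw [← G.T_sh, G.S.T_children]
        ext z
        simp only [mem_iUnion, mem_sUnion, mem_ofPred_eq, exists_prop]
        constructor
        · rintro ⟨q, hq, hz⟩
          exact ⟨_, ⟨q, hq, rfl⟩, hz⟩
        · rintro ⟨_, ⟨q, hq, rfl⟩, hz⟩
          exact ⟨q, hq, hz⟩

theorem main : ∃ T : Set (Set ℂ),
    (∀ t ∈ T, IsCompact t ∧ IsConnected t ∧ closure (interior t) = t) ∧
    ⋃₀ T = Set.univ ∧
    (∀ t ∈ T, ∀ s ∈ T, t ≠ s → Disjoint (interior t) (interior s)) ∧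
    (∃ F : Finset (Set ℂ), ∀ t ∈ T, ∃ P ∈ F, ∃ z : ℂ, t = (fun w => w + z) '' P) ∧
    (∀ t ∈ T, ∃ Q ⊆ T, (fun w => G.lam * w) '' t = ⋃₀ Q) := by
  refine ⟨G.Til, ?_, G.tiling_cover, ?_, ?_, G.T_scaled⟩
  · rintro t (ht | ⟨n, p, hsel, rfl⟩)
    · rw [mem_singleton_iff] at ht
      subst ht
      exact ⟨G.F0_compact, G.F0_connected, G.F0_closure⟩
    · have hp := G.Sel_P n p hsel
      exact ⟨G.S.T_compact n {p} (finite_singleton p), G.S.single_connected n p hp,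
        G.S.closure_int n p hp⟩
  · rintro t (ht | ⟨n, p, hsel, rfl⟩) s (hs | ⟨m, q, hsel', rfl⟩) hne
    · rw [mem_singleton_iff] at ht hs
      exact absurd (ht.trans hs.symm) hne
    · rw [mem_singleton_iff] at ht
      subst ht
      exact (G.disj_F0 m q hsel').symm
    · rw [mem_singleton_iff] at hs
      subst hs
      exact G.disj_F0 n p hsel
    · exact G.disj_Sel n m p q hsel hsel' hne
  · obtain ⟨lo, hi, hlh⟩ := G.hlab
    obtain ⟨F, hF⟩ := G.hshape lo hi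
    classical
    refine ⟨insert G.F0 F, ?_⟩
    rintro t (ht | ⟨n, p, hsel, rfl⟩)
    · rw [mem_singleton_iff] at ht
      exact ⟨G.F0, Finset.mem_insert_self _ _, 0, by simp [ht]⟩
    · have hp := G.Sel_P n p hsel
      obtain ⟨p0, hp0, hpd, hp1, hp2⟩ := hsel
      obtain ⟨h1, h2⟩ := hlh n p p0 hp0 hpd hp1 hp2
      obtain ⟨X, hX, z, hz⟩ := hF n p hp h1 h2
      exact ⟨X, Finset.mem_insert_of_mem hX, z, hz⟩

end Data
end TS
end Pool.Agent.H475R3
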