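import Pool.Agent.H475R3.AlgS
import Pool.Agent.H475R3.Assemble

set_option autoImplicit false
open Set

namespace Pool.Agent.H475R3
namespace Alg
open TS (sh)
variable {W : Type} [NormedAddCommGroup W] [NormedSpace ℝ W] (G : Alg W)

abbrev Cfg := Set (ℂ × ℤ)

noncomputable def psi (p : ℂ × ℤ) (z : ℂ) : ℝ := max 0 (2 * G.R * G.a ^ p.2 - ‖z - p.1‖)

structure Good (r : ℝ) (C : Cfg) (A A' : ℝ) : Prop where
  g0 : ∀ p ∈ C, G.lam ^ (-p.2) * p.1 ∈ G.L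
  g1 : ∀ p, p ∈ C ↔ sh G.lam 1 p ∈ C
  g2 : ∀ p q, p ∈ C → q ∈ C → p.1 = q.1 → p = q
  g4 : ∀ p ∈ C, (A + 2 * G.R) * G.a ^ p.2 ≤ ‖p.1‖
  g4' : ∀ p ∈ C, ‖p.1‖ ≤ (A' - 2 * G.R) * G.a ^ p.2
  g5 : ∀ z, z ≠ 0 → ∃ p ∈ C, ‖z - p.1‖ ≤ G.R * G.a ^ p.2
  g6 : ∀ p ∈ C, ∀ q ∈ C, ‖p.1 - q.1‖ ≤ r * max (G.a ^ p.2) (G.a ^ q.2) →
    |p.2 - q.2| ≤ 1 ∧ ‖G.w (G.lam ^ (-p.2) * (p.1 - q.1))‖ ≤ G.K

variable {G}
variable {r A A' : ℝ} {C : Cfg}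

lemma zpow_le_succ (G : Alg W) {i j : ℤ} (h : i ≤ j + 1) : G.a ^ i ≤ G.a * G.a ^ j := by
  have : G.a * G.a ^ j = G.a ^ (j + 1) := by rw [zpow_add₀ (ne_of_gt G.a0), zpow_one]; ring
  rw [this]
  exact zpow_le_zpow_right₀ G.a1.le h

lemma Good.memM (hC : G.Good r C A A') {p : ℂ × ℤ} (hp : p ∈ C) : p.1 ∈ G.M :=
  G.M_of_zpow _ (hC.g0 p hp)

lemma Good.max_le (hC : G.Good r C A A') {p q : ℂ × ℤ} (hp : p ∈ C) (hq : q ∈ C)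
    (h : ‖p.1 - q.1‖ ≤ r * max (G.a ^ p.2) (G.a ^ q.2)) :
    max (G.a ^ p.2) (G.a ^ q.2) ≤ G.a * G.a ^ p.2 := by
  have h1 := (hC.g6 p hp q hq h).1
  rw [abs_le] at h1
  exact _root_.max_le (G.zpow_le_succ (by omega)) (G.zpow_le_succ (by omega))

lemma Good.diffDD (hr : 0 ≤ r) (hC : G.Good r C A A') {p q : ℂ × ℤ} (hp : p ∈ C) (hq : q ∈ C)
    (h : ‖p.1 - q.1‖ ≤ r * max (G.a ^ p.2) (G.a ^ q.2)) :
    G.lam ^ (-p.2) * (p.1 - q.1) ∈ G.DD r := by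
  obtain ⟨h1, h2⟩ := hC.g6 p hp q hq h
  have hm := hC.max_le hp hq h
  refine ⟨?_, ?_, h2⟩
  · have e : G.lam * (G.lam ^ (-p.2) * (p.1 - q.1)) = G.lam * (G.lam ^ (-p.2) * p.1)
        - G.lam ^ (1 + q.2 - p.2).toNat * (G.lam ^ (-q.2) * q.1) := by
      have h3 : ((1 + q.2 - p.2).toNat : ℤ) = 1 + q.2 - p.2 := by
        rw [abs_le] at h1; exact Int.toNat_of_nonneg (by omega)
      rw [← zpow_natCast G.lam (1 + q.2 - p.2).toNat, h3, ← mul_assoc (G.lam ^ (1 + q.2 - p.2)),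
        ← zpow_add₀ G.lam0]
      have h4 : 1 + q.2 - p.2 + -q.2 = 1 + (-p.2) := by ring
      rw [h4, zpow_add₀ G.lam0, zpow_one]; ring
    rw [e]
    exact G.L.sub_mem (G.hL _ (hC.g0 p hp)) (G.L_pow _ (hC.g0 q hq) _)
  · rw [norm_mul, norm_lam_zpow]
    have hpos := G.ap (-p.2)
    calc G.a ^ (-p.2) * ‖p.1 - q.1‖ ≤ G.a ^ (-p.2) * (r * (G.a * G.a ^ p.2)) := by
          refine mul_le_mul_of_nonneg_left (h.trans ?_) hpos.le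
          exact mul_le_mul_of_nonneg_left hm hr
      _ = r * G.a * (G.a ^ (-p.2) * G.a ^ p.2) := by ring
      _ = r * G.a := by
          rw [← zpow_add₀ (ne_of_gt G.a0)]; simp

/-- the code set -/
noncomputable def DDc (G : Alg W) (r : ℝ) : Finset (ℂ × ℤ) := (G.DD_finite r).toFinset ×ˢ {-1, 0, 1}

/-- the code map -/
noncomputable def code (G : Alg W) (p q : ℂ × ℤ) : ℂ × ℤ := (G.lam ^ (-p.2) * (p.1 - q.1), p.2 - q.2)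

lemma code_inj (G : Alg W) (p : ℂ × ℤ) : Function.Injective (G.code p) := by
  intro q q' h
  simp only [code, Prod.mk.injEq] at h
  have h1 := mul_left_cancel₀ (zpow_ne_zero _ G.lam0) h.1
  ext
  · have : q.1 = p.1 - (p.1 - q.1) := by ring
    rw [this, h1]; ring
  · have := h.2; omega

lemma Good.code_mem (hr : 0 ≤ r) (hC : G.Good r C A A') {p q : ℂ × ℤ} (hp : p ∈ C) (hq : q ∈ C)
    (h : ‖p.1 - q.1‖ ≤ r * max (G.a ^ p.2) (G.a ^ q.2)) : G.code p q ∈ G.DDc r := by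
  simp only [DDc, code, Finset.mem_product, Set.Finite.mem_toFinset, Finset.mem_insert,
    Finset.mem_singleton]
  refine ⟨hC.diffDD hr hp hq h, ?_⟩
  have := (hC.g6 p hp q hq h).1
  rw [abs_le] at this
  omega

lemma Good.near_finite (hr : 0 ≤ r) (hC : G.Good r C A A') {p : ℂ × ℤ} (hp : p ∈ C) :
    {q | q ∈ C ∧ ‖p.1 - q.1‖ ≤ r * max (G.a ^ p.2) (G.a ^ q.2)}.Finite := by
  refine Set.Finite.of_finite_image (f := G.code p) ((G.DDc r).finite_toSet.subset ?_)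
    (G.code_inj p).injOn
  rintro _ ⟨q, ⟨hq, h⟩, rfl⟩
  exact hC.code_mem hr hp hq h

lemma Good.near_card (hr : 0 ≤ r) (hC : G.Good r C A A') {p : ℂ × ℤ} (hp : p ∈ C)
    (s : Finset (ℂ × ℤ)) (hs : ∀ q ∈ s, q ∈ C ∧ ‖p.1 - q.1‖ ≤ r * max (G.a ^ p.2) (G.a ^ q.2)) :
    s.card ≤ (G.DDc r).card := by
  refine Finset.card_le_card_of_injOn (G.code p) ?_ (G.code_inj p).injOn
  intro q hq
  exact hC.code_mem hr hp (hs q hq).1 (hs q hq).2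

def IsN (G : Alg W) (C : Cfg) (z : ℂ) (s : Finset (ℂ × ℤ)) : Prop :=
  ∀ p, p ∈ s ↔ p ∈ C ∧ ‖z - p.1‖ < 2 * G.R * G.a ^ p.2

lemma add_le_two_max (x y : ℝ) : x + y ≤ 2 * max x y := by
  have := le_max_left x y; have := le_max_right x y; linarith

lemma near_of_two (hr : 4 * G.R ≤ r) {p q : ℂ × ℤ} {z : ℂ} (h1 : ‖z - p.1‖ ≤ 2 * G.R * G.a ^ p.2)
    (h2 : ‖z - q.1‖ ≤ 2 * G.R * G.a ^ q.2) :
    ‖p.1 - q.1‖ ≤ r * max (G.a ^ p.2) (G.a ^ q.2) := by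
  have hR := G.hR
  have h3 : ‖p.1 - q.1‖ ≤ ‖p.1 - z‖ + ‖z - q.1‖ := norm_sub_le_norm_sub_add_norm_sub _ _ _
  rw [norm_sub_rev p.1 z] at h3
  have h4 := add_le_two_max (G.a ^ p.2) (G.a ^ q.2)
  have h5 : 0 < max (G.a ^ p.2) (G.a ^ q.2) := lt_max_of_lt_left (G.ap _)
  calc ‖p.1 - q.1‖ ≤ 2 * G.R * (G.a ^ p.2 + G.a ^ q.2) := by linarith
    _ ≤ 2 * G.R * (2 * max (G.a ^ p.2) (G.a ^ q.2)) := by
        exact mul_le_mul_of_nonneg_left h4 (by linarith)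
    _ ≤ r * max (G.a ^ p.2) (G.a ^ q.2) := by nlinarith

lemma Good.exists_N (hr : 4 * G.R ≤ r) (hC : G.Good r C A A') (z : ℂ) : ∃ s, IsN G C z s := by
  have hR := G.hR
  have hr0 : 0 ≤ r := by linarith
  by_cases h : ∃ p ∈ C, ‖z - p.1‖ < 2 * G.R * G.a ^ p.2
  · obtain ⟨p, hp, hzp⟩ := h
    have hf : {q | q ∈ C ∧ ‖z - q.1‖ < 2 * G.R * G.a ^ q.2}.Finite := by
      refine (hC.near_finite hr0 hp).subset ?_
      rintro q ⟨hq, hzq⟩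
      exact ⟨hq, near_of_two hr hzp.le hzq.le⟩
    exact ⟨hf.toFinset, fun p => by simp⟩
  · push Not at h
    refine ⟨∅, fun p => ?_⟩
    simp only [Finset.notMem_empty, false_iff, not_and, not_lt]
    exact h p

lemma Good.cov_min (hr : 4 * G.R ≤ r) (hC : G.Good r C A A') (z : ℂ) (hz : z ≠ 0) :
    ∃ p ∈ C, ‖z - p.1‖ ≤ G.R * G.a ^ p.2 ∧ ∀ q ∈ C, ‖z - q.1‖ ≤ G.R * G.a ^ q.2 → p.2 ≤ q.2 := by
  classical
  have hR := G.hR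
  obtain ⟨s, hs⟩ := hC.exists_N hr z
  obtain ⟨p, hp, hzp⟩ := hC.g5 z hz
  have key : ∀ q ∈ C, ‖z - q.1‖ ≤ G.R * G.a ^ q.2 → q ∈ s := by
    intro q hq hzq
    rw [hs]
    have := G.ap q.2
    exact ⟨hq, by nlinarith⟩
  let t := s.filter (fun q => ‖z - q.1‖ ≤ G.R * G.a ^ q.2)
  have hpt : p ∈ t := Finset.mem_filter.2 ⟨key p hp hzp, hzp⟩
  obtain ⟨q, hq, hmin⟩ := Finset.exists_min_image t (fun q => q.2) ⟨p, hpt⟩
  rw [Finset.mem_filter, hs] at hq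
  refine ⟨q, hq.1.1, hq.2, fun q' hq' hzq' => ?_⟩
  exact hmin q' (Finset.mem_filter.2 ⟨key q' hq' hzq', hzq'⟩)

lemma psi_nonneg (G : Alg W) (p : ℂ × ℤ) (z : ℂ) : 0 ≤ G.psi p z := le_max_left _ _

lemma psi_lip (G : Alg W) (p : ℂ × ℤ) (z z' : ℂ) : |G.psi p z - G.psi p z'| ≤ ‖z - z'‖ := by
  unfold psi
  have h1 := abs_max_sub_max_le_abs (2 * G.R * G.a ^ p.2 - ‖z - p.1‖)
    (2 * G.R * G.a ^ p.2 - ‖z' - p.1‖) 0
  rw [max_comm 0, max_comm 0]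
  refine h1.trans ?_
  have e : 2 * G.R * G.a ^ p.2 - ‖z - p.1‖ - (2 * G.R * G.a ^ p.2 - ‖z' - p.1‖)
      = ‖z' - p.1‖ - ‖z - p.1‖ := by ring
  rw [e]
  have := abs_norm_sub_norm_le (z' - p.1) (z - p.1)
  have e2 : z' - p.1 - (z - p.1) = z' - z := by ring
  rw [e2, norm_sub_rev z' z] at this
  exact this

/-- weighted average. -/
noncomputable def avg (G : Alg W) (s : Finset (ℂ × ℤ)) (b : ℂ) (k : ℤ) (z : ℂ) : W :=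
  (∑ p ∈ s, G.psi p z)⁻¹ • ∑ p ∈ s, G.psi p z • G.w (G.lam ^ (-k) * (p.1 - b))

lemma avg_lip_aux {ι : Type} (s : Finset ι) (c d : ι → ℝ) (V : ι → W) (B : ℝ)
    (hd : ∀ i ∈ s, 0 ≤ d i) (hV : ∀ i ∈ s, ‖V i‖ ≤ B) (hB : 0 ≤ B)
    (hC : 0 < ∑ i ∈ s, c i) (hD : 0 < ∑ i ∈ s, d i) :
    ‖(∑ i ∈ s, c i)⁻¹ • ∑ i ∈ s, c i • V i - (∑ i ∈ s, d i)⁻¹ • ∑ i ∈ s, d i • V i‖
      ≤ 2 * (∑ i ∈ s, |c i - d i|) / (∑ i ∈ s, c i) * B := by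
  set C := ∑ i ∈ s, c i with hCdef
  set D := ∑ i ∈ s, d i with hDdef
  have e : C⁻¹ • ∑ i ∈ s, c i • V i - D⁻¹ • ∑ i ∈ s, d i • V i
      = ∑ i ∈ s, (C⁻¹ * c i - D⁻¹ * d i) • V i := by
    rw [Finset.smul_sum, Finset.smul_sum, ← Finset.sum_sub_distrib]
    refine Finset.sum_congr rfl fun i _ => ?_
    rw [sub_smul, mul_smul, mul_smul]
  rw [e]
  have h1 : ‖∑ i ∈ s, (C⁻¹ * c i - D⁻¹ * d i) • V i‖ ≤ ∑ i ∈ s, |C⁻¹ * c i - D⁻¹ * d i| * B := by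
    refine norm_sum_le_of_le s fun i hi => ?_
    rw [norm_smul, Real.norm_eq_abs]
    exact mul_le_mul_of_nonneg_left (hV i hi) (abs_nonneg _)
  refine h1.trans ?_
  rw [← Finset.sum_mul]
  refine mul_le_mul_of_nonneg_right ?_ hB
  have h2 : ∀ i ∈ s, |C⁻¹ * c i - D⁻¹ * d i| ≤ C⁻¹ * |c i - d i| + d i * |C⁻¹ - D⁻¹| := by
    intro i hi
    have e2 : C⁻¹ * c i - D⁻¹ * d i = C⁻¹ * (c i - d i) + d i * (C⁻¹ - D⁻¹) := by ring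
    rw [e2]
    refine (abs_add_le _ _).trans ?_
    rw [abs_mul, abs_mul, abs_of_nonneg (hd i hi), abs_of_pos (inv_pos.2 hC)]
  refine (Finset.sum_le_sum h2).trans ?_
  rw [Finset.sum_add_distrib, ← Finset.mul_sum, ← Finset.sum_mul, ← hDdef]
  have h3 : D * |C⁻¹ - D⁻¹| = C⁻¹ * |D - C| := by
    have : C⁻¹ - D⁻¹ = (D - C) / (C * D) := by field_simp
    rw [this, abs_div, abs_of_pos (mul_pos hC hD)]
    field_simp
  have h4 : |D - C| ≤ ∑ i ∈ s, |c i - d i| := by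
    rw [hCdef, hDdef, ← Finset.sum_sub_distrib]
    refine (Finset.abs_sum_le_sum_abs _ _).trans ?_
    refine Finset.sum_le_sum fun i _ => ?_
    rw [abs_sub_comm]
  rw [h3]
  have h5 := mul_le_mul_of_nonneg_left h4 (inv_pos.2 hC).le
  calc C⁻¹ * ∑ i ∈ s, |c i - d i| + C⁻¹ * |D - C| ≤ C⁻¹ * ∑ i ∈ s, |c i - d i| + C⁻¹ * ∑ i ∈ s, |c i - d i| := by linarith
    _ = 2 * (∑ i ∈ s, |c i - d i|) / C := by field_simp; ring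

lemma avg_lip (G : Alg W) (s : Finset (ℂ × ℤ)) (b : ℂ) (k : ℤ) (z z' : ℂ) (B : ℝ) (hB : 0 ≤ B)
    (hV : ∀ p ∈ s, ‖G.w (G.lam ^ (-k) * (p.1 - b))‖ ≤ B)
    (hC : 0 < ∑ p ∈ s, G.psi p z) (hD : 0 < ∑ p ∈ s, G.psi p z') :
    ‖G.avg s b k z - G.avg s b k z'‖ ≤ 2 * (s.card * ‖z - z'‖) / (∑ p ∈ s, G.psi p z) * B := by
  refine (avg_lip_aux s _ _ _ B (fun i _ => psi_nonneg G _ _) hV hB hC hD).trans ?_
  refine mul_le_mul_of_nonneg_right ?_ hB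
  refine div_le_div_of_nonneg_right ?_ hC.le
  refine mul_le_mul_of_nonneg_left ?_ (by norm_num)
  have := Finset.sum_le_card_nsmul s (fun p => |G.psi p z - G.psi p z'|) ‖z - z'‖
    (fun p _ => psi_lip G p z z')
  simpa [nsmul_eq_mul] using this

/-- window condition -/
def Win (G : Alg W) (C : Cfg) (q : ℂ × ℤ) : Prop :=
  ∃ s, IsN G C q.1 s ∧ ‖∑ p ∈ s, G.psi p q.1 • G.w (G.lam ^ (-q.2) * (q.1 - p.1))‖
    ≤ G.B0 * ∑ p ∈ s, G.psi p q.1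

lemma psi_zero (G : Alg W) {p : ℂ × ℤ} {z : ℂ} (h : 2 * G.R * G.a ^ p.2 ≤ ‖z - p.1‖) :
    G.psi p z = 0 := max_eq_left (by linarith)

lemma win_iff (G : Alg W) {C : Cfg} {q : ℂ × ℤ} {s : Finset (ℂ × ℤ)} (hs : IsN G C q.1 s)
    (T : Finset (ℂ × ℤ)) (hsT : s ⊆ T) (hTC : ∀ p ∈ T, p ∈ C) (b : ℂ)
    (hpos : 0 < ∑ p ∈ T, G.psi p q.1) :
    Win G C q ↔ ‖G.w (G.lam ^ (-q.2) * (q.1 - b)) - G.avg T b q.2 q.1‖ ≤ G.B0 := by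
  have hzero : ∀ p ∈ T, p ∉ s → G.psi p q.1 = 0 := by
    intro p hp hps
    apply psi_zero
    by_contra hcon
    push Not at hcon
    exact hps ((hs p).2 ⟨hTC p hp, hcon⟩)
  have hsum : ∑ p ∈ s, G.psi p q.1 = ∑ p ∈ T, G.psi p q.1 := Finset.sum_subset hsT hzero
  have hsum2 : ∑ p ∈ s, G.psi p q.1 • G.w (G.lam ^ (-q.2) * (q.1 - p.1))
      = ∑ p ∈ T, G.psi p q.1 • G.w (G.lam ^ (-q.2) * (q.1 - p.1)) :=
    Finset.sum_subset hsT (fun p hp hps => by rw [hzero p hp hps, zero_smul])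
  set Ps := ∑ p ∈ T, G.psi p q.1 with hPs
  have e : ∑ p ∈ T, G.psi p q.1 • G.w (G.lam ^ (-q.2) * (q.1 - p.1))
      = Ps • (G.w (G.lam ^ (-q.2) * (q.1 - b)) - G.avg T b q.2 q.1) := by
    rw [smul_sub, avg, smul_smul, ← hPs, mul_inv_cancel₀ hpos.ne', one_smul, hPs, Finset.sum_smul,
      ← Finset.sum_sub_distrib]
    refine Finset.sum_congr rfl fun p _ => ?_
    rw [← smul_sub, ← map_sub]
    congr 2; ring
  have huniq : Win G C q ↔ ‖∑ p ∈ s, G.psi p q.1 • G.w (G.lam ^ (-q.2) * (q.1 - p.1))‖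
      ≤ G.B0 * ∑ p ∈ s, G.psi p q.1 := by
    constructor
    · rintro ⟨s', hs', h⟩
      have : s' = s := by ext p; rw [hs', hs]
      rw [← this]; exact h
    · intro h; exact ⟨s, hs, h⟩
  rw [huniq, hsum, hsum2, e, norm_smul, Real.norm_of_nonneg hpos.le, mul_comm G.B0]
  exact mul_le_mul_iff_right₀ hpos

/-- the refinement rule. -/
def next (G : Alg W) (N : ℕ) (C : Cfg) : Cfg :=
  {q | (∃ p ∈ C, p.2 = q.2 + N ∧ ‖q.1 - p.1‖ ≤ G.R * G.a ^ p.2) ∧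
    (∀ p ∈ C, ‖q.1 - p.1‖ ≤ G.R * G.a ^ p.2 → q.2 + N ≤ p.2) ∧
    G.lam ^ (-q.2) * q.1 ∈ G.L ∧ Win G C q}

end Alg
end Pool.Agent.H475R3
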