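import Pool.Agent.H475R3.Cfg

set_option autoImplicit false
open Set

namespace Pool.Agent.H475R3
namespace Alg
open TS (sh)
variable {W : Type} [NormedAddCommGroup W] [NormedSpace ℝ W] {G : Alg W}
variable {r A A' : ℝ} {C : Cfg}

/-- the similarity -/
noncomputable def gm (G : Alg W) (j : ℤ) (b : ℂ) (p : ℂ × ℤ) : ℂ × ℤ := (G.lam ^ j * p.1 + b, p.2 + j)

lemma gm_norm (G : Alg W) (j : ℤ) (b : ℂ) (p q : ℂ × ℤ) :
    ‖(G.gm j b p).1 - (G.gm j b q).1‖ = G.a ^ j * ‖p.1 - q.1‖ := by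
  have : (G.gm j b p).1 - (G.gm j b q).1 = G.lam ^ j * (p.1 - q.1) := by simp only [gm]; ring
  rw [this, norm_mul, norm_lam_zpow]

lemma gm_inj (G : Alg W) (j : ℤ) (b : ℂ) : Function.Injective (G.gm j b) := by
  intro p q h
  simp only [gm, Prod.mk.injEq] at h
  have h1 := mul_left_cancel₀ (zpow_ne_zero _ G.lam0) (add_right_cancel h.1)
  ext
  · rw [h1]
  · have := h.2; omega

lemma ap_add (G : Alg W) (i j : ℤ) : G.a ^ (i + j) = G.a ^ j * G.a ^ i := by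
  rw [zpow_add₀ (ne_of_gt G.a0)]; ring

lemma gm_psi (G : Alg W) (j : ℤ) (b : ℂ) (p q : ℂ × ℤ) :
    G.psi (G.gm j b p) (G.gm j b q).1 = G.a ^ j * G.psi p q.1 := by
  unfold psi
  rw [gm_norm]
  have e : 2 * G.R * G.a ^ (G.gm j b p).2 - G.a ^ j * ‖q.1 - p.1‖
      = G.a ^ j * (2 * G.R * G.a ^ p.2 - ‖q.1 - p.1‖) := by
    simp only [gm, ap_add]; ring
  rw [e, mul_max_of_nonneg _ _ (G.ap j).le, mul_zero]

/-- forward transfer of the refinement rule. -/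
lemma next_fwd (N : ℕ) (C C' : Cfg) (j : ℤ) (b : ℂ) (q : ℂ × ℤ)
    (h0 : ∀ p ∈ C, G.lam ^ (-p.2) * p.1 ∈ G.L) (h0' : ∀ p ∈ C', G.lam ^ (-p.2) * p.1 ∈ G.L)
    (h1 : ∀ p ∈ C, ‖q.1 - p.1‖ < 2 * G.R * G.a ^ p.2 → G.gm j b p ∈ C')
    (h2 : ∀ p' ∈ C', ‖(G.gm j b q).1 - p'.1‖ < 2 * G.R * G.a ^ p'.2 → ∃ p ∈ C, G.gm j b p = p')
    (hq : q ∈ G.next N C) : G.gm j b q ∈ G.next N C' := by
  classical
  have hR := G.hR
  obtain ⟨⟨p, hp, hpl, hpd⟩, hmin, hL, s, hs, hwin⟩ := hq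
  have hlt : ∀ (z : ℂ) (x : ℂ × ℤ), ‖z - x.1‖ ≤ G.R * G.a ^ x.2 → ‖z - x.1‖ < 2 * G.R * G.a ^ x.2 := by
    intro z x hx
    have := mul_pos hR (G.ap x.2)
    linarith
  have hsc : ∀ x : ℂ × ℤ, G.a ^ (G.gm j b x).2 = G.a ^ j * G.a ^ x.2 := by
    intro x; simp only [gm, ap_add]
  refine ⟨⟨G.gm j b p, h1 p hp (hlt _ _ hpd), ?_, ?_⟩, ?_, ?_, ?_⟩
  · simp only [gm]; omega
  · rw [gm_norm, hsc]
    have := mul_le_mul_of_nonneg_left hpd (G.ap j).le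
    linarith
  · intro p' hp' hd
    obtain ⟨x, hx, rfl⟩ := h2 p' hp' (hlt _ _ hd)
    rw [gm_norm, hsc] at hd
    have hd' : ‖q.1 - x.1‖ ≤ G.R * G.a ^ x.2 := by
      have hj := G.ap j
      by_contra hcon
      push Not at hcon
      nlinarith
    have := hmin x hx hd'
    simp only [gm]; omega
  · -- membership in L
    have hb : G.lam ^ (-(G.gm j b p).2) * b ∈ G.L := by
      have e : G.lam ^ (-(G.gm j b p).2) * b
          = G.lam ^ (-(G.gm j b p).2) * (G.gm j b p).1 - G.lam ^ (-p.2) * p.1 := by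
        simp only [gm]
        have : G.lam ^ (-p.2) = G.lam ^ (-(p.2 + j)) * G.lam ^ j := by
          rw [← zpow_add₀ G.lam0]; congr 1; ring
        rw [this]; ring
      rw [e]
      exact G.L.sub_mem (h0' _ (h1 p hp (hlt _ _ hpd))) (h0 p hp)
    have e : G.lam ^ (-(G.gm j b q).2) * (G.gm j b q).1
        = G.lam ^ (-q.2) * q.1 + G.lam ^ N * (G.lam ^ (-(G.gm j b p).2) * b) := by
      simp only [gm, hpl]
      rw [← zpow_natCast G.lam N, mul_add, ← mul_assoc, ← zpow_add₀ G.lam0, ← mul_assoc,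
        ← zpow_add₀ G.lam0]
      congr 3
      · ring
      · ring
    rw [e]
    exact G.L.add_mem hL (G.L_pow _ hb N)
  · refine ⟨s.image (G.gm j b), ?_, ?_⟩
    · intro p'
      rw [Finset.mem_image]
      constructor
      · rintro ⟨x, hx, rfl⟩
        rw [hs] at hx
        refine ⟨h1 x hx.1 hx.2, ?_⟩
        rw [gm_norm, hsc]
        have := mul_lt_mul_of_pos_left hx.2 (G.ap j)
        linarith
      · rintro ⟨hp', hd⟩
        obtain ⟨x, hx, rfl⟩ := h2 p' hp' hd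
        refine ⟨x, (hs x).2 ⟨hx, ?_⟩, rfl⟩
        rw [gm_norm, hsc] at hd
        by_contra hcon
        push Not at hcon
        nlinarith [G.ap j]
    · rw [Finset.sum_image (fun x _ y _ h => G.gm_inj j b h),
        Finset.sum_image (fun x _ y _ h => G.gm_inj j b h)]
      have e1 : ∑ x ∈ s, G.psi (G.gm j b x) (G.gm j b q).1 •
          G.w (G.lam ^ (-(G.gm j b q).2) * ((G.gm j b q).1 - (G.gm j b x).1))
          = G.a ^ j • ∑ x ∈ s, G.psi x q.1 • G.w (G.lam ^ (-q.2) * (q.1 - x.1)) := by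
        rw [Finset.smul_sum]
        refine Finset.sum_congr rfl fun x _ => ?_
        rw [gm_psi, mul_smul]
        congr 3
        simp only [gm]
        have : G.lam ^ (-q.2) = G.lam ^ (-(q.2 + j)) * G.lam ^ j := by
          rw [← zpow_add₀ G.lam0]; congr 1; ring
        rw [this]; ring
      have e2 : ∑ x ∈ s, G.psi (G.gm j b x) (G.gm j b q).1 = G.a ^ j * ∑ x ∈ s, G.psi x q.1 := by
        rw [Finset.mul_sum]
        exact Finset.sum_congr rfl fun x _ => G.gm_psi j b x q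
      rw [e1, e2, norm_smul, Real.norm_of_nonneg (G.ap j).le]
      have := mul_le_mul_of_nonneg_left hwin (G.ap j).le
      linarith

lemma gm_sh (G : Alg W) (j : ℤ) (p : ℂ × ℤ) : G.gm j 0 p = sh G.lam j p := by
  simp [gm, sh]

lemma Good.sh_mem (hC : G.Good r C A A') (p : ℂ × ℤ) : p ∈ C ↔ sh G.lam (-1) p ∈ C := by
  rw [hC.g1 (sh G.lam (-1) p), TS.sh_sh _ G.lam0]
  simp [TS.sh_zero]

/-- numerical requirements on `r` and `N`. -/
structure Big (G : Alg W) (r : ℝ) (N : ℕ) : Prop where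
  hr : 40 * (G.R + 1) * G.a ≤ r
  hr1 : 1 ≤ r
  hrR0 : G.R0 ≤ r * G.a
  hN1 : r ≤ G.a ^ N
  hN0 : 2 ≤ G.a ^ N
  hN2 : 2 * (G.DDc r).card * (r * G.a) * (G.rho ^ N * G.K) ≤ G.R * G.a ^ N

lemma Big.hr4 {N : ℕ} (h : Big G r N) : 4 * G.R ≤ r := by
  have := h.hr; have := G.hR; have := G.a1
  nlinarith

lemma sum_psi_pos (T : Finset (ℂ × ℤ)) (p : ℂ × ℤ) (hp : p ∈ T) (z : ℂ)
    (h : ‖z - p.1‖ ≤ G.R * G.a ^ p.2) : G.R * G.a ^ p.2 ≤ ∑ q ∈ T, G.psi q z := by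
  have h1 : G.psi p z ≤ ∑ q ∈ T, G.psi q z :=
    Finset.single_le_sum (f := fun q => G.psi q z) (fun q _ => psi_nonneg G q z) hp
  have h2 : G.R * G.a ^ p.2 ≤ G.psi p z := by
    unfold psi
    refine le_trans ?_ (le_max_right _ _)
    linarith
  exact h2.trans h1

/-- the averages move slowly. -/
lemma avg_slow {N : ℕ} (hb : Big G r N) (hC : G.Good r C A A') (p : ℂ × ℤ) (hp : p ∈ C) (z z' : ℂ)
    (T : Finset (ℂ × ℤ)) (hpT : p ∈ T) (hT : ∀ q ∈ T, q ∈ C ∧ ‖p.1 - q.1‖ ≤ r * max (G.a ^ p.2) (G.a ^ q.2))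
    (hz : ‖z - p.1‖ ≤ G.R * G.a ^ p.2) (hD : 0 < ∑ q ∈ T, G.psi q z') (k : ℤ) (hk : k + N = p.2)
    (hzz : ‖z - z'‖ ≤ r * G.a * G.a ^ k) :
    ‖G.avg T p.1 k z - G.avg T p.1 k z'‖ ≤ 1 := by
  have hR := G.hR
  have hr0 : 0 ≤ r := by linarith [hb.hr1]
  have hK := G.hK
  have hrho : 0 ≤ G.rho ^ N := pow_nonneg G.hrho0 N
  have hV : ∀ q ∈ T, ‖G.w (G.lam ^ (-k) * (q.1 - p.1))‖ ≤ G.rho ^ N * G.K := by
    intro q hq
    have hqC := hT q hq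
    have hm : q.1 - p.1 ∈ G.M := G.M_sub (hC.memM hqC.1) (hC.memM hp)
    have e : G.lam ^ (-k) * (q.1 - p.1) = G.lam ^ (N : ℤ) * (G.lam ^ (-p.2) * (q.1 - p.1)) := by
      rw [← mul_assoc, ← zpow_add₀ G.lam0, ← hk]; congr 2; ring
    rw [e, G.w_zpow (G.M_zpow hm _)]
    refine (G.Dz_nat N _).trans (mul_le_mul_of_nonneg_left ?_ hrho)
    have h6 := (hC.g6 p hp q hqC.1 hqC.2).2
    have e2 : G.lam ^ (-p.2) * (q.1 - p.1) = -(G.lam ^ (-p.2) * (p.1 - q.1)) := by ring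
    rw [e2, map_neg, norm_neg]
    exact h6
  have hpsi := sum_psi_pos T p hpT z hz
  have hpos : 0 < ∑ q ∈ T, G.psi q z := lt_of_lt_of_le (mul_pos hR (G.ap _)) hpsi
  refine (avg_lip G T p.1 k z z' (G.rho ^ N * G.K) (by positivity) hV hpos hD).trans ?_
  have hcard : (T.card : ℝ) ≤ (G.DDc r).card := by exact_mod_cast hC.near_card hr0 hp T hT
  have hak := G.ap k
  have e3 : G.a ^ p.2 = G.a ^ N * G.a ^ k := by
    rw [← hk, zpow_add₀ (ne_of_gt G.a0), zpow_natCast]; ring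
  rw [e3] at hpsi
  have h1 : 2 * ((T.card : ℝ) * ‖z - z'‖) ≤ 2 * ((G.DDc r).card * (r * G.a * G.a ^ k)) := by
    have : (T.card : ℝ) * ‖z - z'‖ ≤ (G.DDc r).card * (r * G.a * G.a ^ k) :=
      mul_le_mul hcard hzz (norm_nonneg _) (by positivity)
    linarith
  rw [div_mul_eq_mul_div, div_le_one hpos]
  calc 2 * ((T.card : ℝ) * ‖z - z'‖) * (G.rho ^ N * G.K)
      ≤ 2 * ((G.DDc r).card * (r * G.a * G.a ^ k)) * (G.rho ^ N * G.K) :=
        mul_le_mul_of_nonneg_right h1 (by positivity)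
    _ = 2 * (G.DDc r).card * (r * G.a) * (G.rho ^ N * G.K) * G.a ^ k := by ring
    _ ≤ G.R * G.a ^ N * G.a ^ k := mul_le_mul_of_nonneg_right hb.hN2 hak.le
    _ ≤ ∑ q ∈ T, G.psi q z := by rw [mul_assoc]; exact hpsi

/-- two points of the refinement (or a point and its parent cover) have comparable labels. -/
lemma next_labels {N : ℕ} (hb : Big G r N) (hC : G.Good r C A A') {q q' : ℂ × ℤ}
    (hq : q ∈ G.next N C) (hq' : q' ∈ G.next N C)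
    (h : ‖q.1 - q'.1‖ ≤ r * max (G.a ^ q.2) (G.a ^ q'.2)) :
    ∃ p ∈ C, ∃ p' ∈ C, p.2 = q.2 + N ∧ p'.2 = q'.2 + N ∧ ‖q.1 - p.1‖ ≤ G.R * G.a ^ p.2 ∧
      ‖q'.1 - p'.1‖ ≤ G.R * G.a ^ p'.2 ∧ ‖p.1 - q'.1‖ ≤ (G.R + 1) * max (G.a ^ p.2) (G.a ^ p'.2) ∧
      ‖p.1 - p'.1‖ ≤ (2 * G.R + 1) * max (G.a ^ p.2) (G.a ^ p'.2) := by
  have hR := G.hR
  obtain ⟨⟨p, hp, hpl, hpd⟩, -, -, -⟩ := hq
  obtain ⟨⟨p', hp', hpl', hpd'⟩, -, -, -⟩ := hq'
  refine ⟨p, hp, p', hp', hpl, hpl', hpd, hpd', ?_⟩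
  set m := max (G.a ^ p.2) (G.a ^ p'.2) with hm
  have hm1 : G.a ^ p.2 ≤ m := le_max_left _ _
  have hm2 : G.a ^ p'.2 ≤ m := le_max_right _ _
  have e : G.a ^ N * max (G.a ^ q.2) (G.a ^ q'.2) = m := by
    rw [hm, hpl, hpl', mul_max_of_nonneg _ _ (pow_nonneg G.a0.le N)]
    congr 1 <;> rw [zpow_add₀ (ne_of_gt G.a0), zpow_natCast] <;> ring
  have hmx : 0 < max (G.a ^ q.2) (G.a ^ q'.2) := lt_max_of_lt_left (G.ap _)
  have h2 : ‖q.1 - q'.1‖ ≤ m := by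
    refine h.trans ?_
    rw [← e]
    exact mul_le_mul_of_nonneg_right hb.hN1 hmx.le
  have h3 : ‖p.1 - q'.1‖ ≤ (G.R + 1) * m := by
    calc ‖p.1 - q'.1‖ ≤ ‖p.1 - q.1‖ + ‖q.1 - q'.1‖ := norm_sub_le_norm_sub_add_norm_sub _ _ _
      _ ≤ G.R * G.a ^ p.2 + m := by rw [norm_sub_rev p.1 q.1]; linarith
      _ ≤ _ := by nlinarith
  refine ⟨h3, ?_⟩
  calc ‖p.1 - p'.1‖ ≤ ‖p.1 - q'.1‖ + ‖q'.1 - p'.1‖ := norm_sub_le_norm_sub_add_norm_sub _ _ _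
    _ ≤ (G.R + 1) * m + G.R * G.a ^ p'.2 := by linarith
    _ ≤ _ := by nlinarith

end Alg
end Pool.Agent.H475R3
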