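import Pool.Agent.H475R3.Cfg2

set_option autoImplicit false
open Set

namespace Pool.Agent.H475R3
namespace Alg
open TS (sh)
variable {W : Type} [NormedAddCommGroup W] [NormedSpace ℝ W] {G : Alg W}
variable {r A A' : ℝ} {C : Cfg}

lemma avg_shift (T : Finset (ℂ × ℤ)) (b : ℂ) (k d : ℤ) (z : ℂ) (hb : b ∈ G.M) (hT : ∀ p ∈ T, p.1 ∈ G.M) :
    G.avg T b (k - d) z = G.Dz d (G.avg T b k z) := by
  unfold avg
  rw [map_smul, map_sum]
  congr 1
  refine Finset.sum_congr rfl fun p hp => ?_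
  rw [map_smul]
  congr 1
  have e : G.lam ^ (-(k - d)) * (p.1 - b) = G.lam ^ d * (G.lam ^ (-k) * (p.1 - b)) := by
    rw [← mul_assoc, ← zpow_add₀ G.lam0]; congr 2; ring
  rw [e, G.w_zpow (G.M_zpow (G.M_sub (hT p hp) hb) _)]

lemma w_shift {v : ℂ} (hv : v ∈ G.M) (k d : ℤ) :
    G.w (G.lam ^ (-(k - d)) * v) = G.Dz d (G.w (G.lam ^ (-k) * v)) := by
  have e : G.lam ^ (-(k - d)) * v = G.lam ^ d * (G.lam ^ (-k) * v) := by
    rw [← mul_assoc, ← zpow_add₀ G.lam0]; congr 2; ring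
  rw [e, G.w_zpow (G.M_zpow hv _)]

noncomputable def nearT (hr : 0 ≤ r) (hC : G.Good r C A A') {p : ℂ × ℤ} (hp : p ∈ C) : Finset (ℂ × ℤ) :=
  (hC.near_finite hr hp).toFinset

lemma mem_nearT (hr : 0 ≤ r) (hC : G.Good r C A A') {p : ℂ × ℤ} (hp : p ∈ C) (q : ℂ × ℤ) :
    q ∈ nearT hr hC hp ↔ q ∈ C ∧ ‖p.1 - q.1‖ ≤ r * max (G.a ^ p.2) (G.a ^ q.2) := by
  simp [nearT]

lemma self_nearT (hr : 0 ≤ r) (hC : G.Good r C A A') {p : ℂ × ℤ} (hp : p ∈ C) :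
    p ∈ nearT hr hC hp := by
  rw [mem_nearT]
  refine ⟨hp, ?_⟩
  rw [sub_self, norm_zero]
  exact mul_nonneg hr (le_max_of_le_left (G.ap _).le)

lemma next_sh {N : ℕ} (hC : G.Good r C A A') (p : ℂ × ℤ) :
    p ∈ G.next N C ↔ sh G.lam 1 p ∈ G.next N C := by
  constructor
  · intro h
    rw [← gm_sh]
    refine next_fwd N C C 1 0 p hC.g0 hC.g0 ?_ ?_ h
    · intro q hq _
      rw [gm_sh]; exact (hC.g1 q).1 hq
    · intro q hq _
      refine ⟨sh G.lam (-1) q, (hC.sh_mem q).1 hq, ?_⟩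
      rw [gm_sh, TS.sh_sh _ G.lam0]; simp [TS.sh_zero]
  · intro h
    have h2 : G.gm (-1) 0 (sh G.lam 1 p) ∈ G.next N C := by
      refine next_fwd N C C (-1) 0 _ hC.g0 hC.g0 ?_ ?_ h
      · intro q hq _
        rw [gm_sh]; exact (hC.sh_mem q).1 hq
      · intro q hq _
        refine ⟨sh G.lam 1 q, (hC.g1 q).1 hq, ?_⟩
        rw [gm_sh, TS.sh_sh _ G.lam0]; simp [TS.sh_zero]
    rw [gm_sh, TS.sh_sh _ G.lam0] at h2
    simpa [TS.sh_zero] using h2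

lemma next_memM {N : ℕ} {q : ℂ × ℤ} (hq : q ∈ G.next N C) : q.1 ∈ G.M := G.M_of_zpow _ hq.2.2.1

lemma good_next_g6 {N : ℕ} (hb : Big G r N) (hC : G.Good r C A A') (q : ℂ × ℤ) (hq : q ∈ G.next N C)
    (q' : ℂ × ℤ) (hq' : q' ∈ G.next N C) (h : ‖q.1 - q'.1‖ ≤ r * max (G.a ^ q.2) (G.a ^ q'.2)) :
    |q.2 - q'.2| ≤ 1 ∧ ‖G.w (G.lam ^ (-q.2) * (q.1 - q'.1))‖ ≤ G.K := by
  have hR := G.hR
  have ha1 := G.a1
  have hr0 : 0 ≤ r := by linarith [hb.hr1]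
  obtain ⟨p, hp, p', hp', e1, e2, hqp, hqp', hpq', hpp'⟩ := next_labels hb hC hq hq' h
  have hmp : 0 < max (G.a ^ p.2) (G.a ^ p'.2) := lt_max_of_lt_left (G.ap _)
  have hbr := hb.hr
  have hRa : (G.R + 1) ≤ (G.R + 1) * G.a := by nlinarith
  have hpp'r : ‖p.1 - p'.1‖ ≤ r * max (G.a ^ p.2) (G.a ^ p'.2) :=
    hpp'.trans (mul_le_mul_of_nonneg_right (by nlinarith) hmp.le)
  obtain ⟨hl, -⟩ := hC.g6 p hp p' hp' hpp'r
  have hmax := hC.max_le hp hp' hpp'r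
  have hlab : |q.2 - q'.2| ≤ 1 := by
    rw [abs_le] at hl ⊢; omega
  refine ⟨hlab, ?_⟩
  set T := nearT hr0 hC hp with hTdef
  have hT : ∀ x ∈ T, x ∈ C ∧ ‖p.1 - x.1‖ ≤ r * max (G.a ^ p.2) (G.a ^ x.2) :=
    fun x hx => (mem_nearT hr0 hC hp x).1 hx
  have hTC : ∀ x ∈ T, x ∈ C := fun x hx => (hT x hx).1
  have hTM : ∀ x ∈ T, x.1 ∈ G.M := fun x hx => hC.memM (hTC x hx)
  have hpT : p ∈ T := self_nearT hr0 hC hp
  have hp'T : p' ∈ T := (mem_nearT hr0 hC hp p').2 ⟨hp', hpp'r⟩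
  have hposq := lt_of_lt_of_le (mul_pos hR (G.ap p.2)) (sum_psi_pos T p hpT q.1 hqp)
  have hposq' := lt_of_lt_of_le (mul_pos hR (G.ap p'.2)) (sum_psi_pos T p' hp'T q'.1 hqp')
  obtain ⟨-, -, -, hwq⟩ := id hq
  obtain ⟨-, -, -, hwq'⟩ := id hq'
  obtain ⟨s, hs, -⟩ := id hwq
  obtain ⟨s', hs', -⟩ := id hwq'
  have hsT : s ⊆ T := by
    intro x hx
    rw [hs] at hx
    rw [hTdef, mem_nearT]
    refine ⟨hx.1, near_of_two hb.hr4 (z := q.1) ?_ hx.2.le⟩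
    have := mul_pos hR (G.ap p.2)
    linarith
  have hs'T : s' ⊆ T := by
    intro x hx
    rw [hs'] at hx
    rw [hTdef, mem_nearT]
    refine ⟨hx.1, ?_⟩
    have hm1 : G.a ^ p.2 ≤ max (G.a ^ p.2) (G.a ^ x.2) := le_max_left _ _
    have hm2 : G.a ^ x.2 ≤ max (G.a ^ p.2) (G.a ^ x.2) := le_max_right _ _
    have h7 : (G.R + 1) * max (G.a ^ p.2) (G.a ^ p'.2) ≤ (G.R + 1) * (G.a * G.a ^ p.2) :=
      mul_le_mul_of_nonneg_left hmax (by linarith)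
    have h8 : (G.R + 1) * (G.a * G.a ^ p.2) ≤ (G.R + 1) * G.a * max (G.a ^ p.2) (G.a ^ x.2) := by
      rw [← mul_assoc]; exact mul_le_mul_of_nonneg_left hm1 (by positivity)
    have h9 : 2 * G.R * G.a ^ x.2 ≤ 2 * G.R * max (G.a ^ p.2) (G.a ^ x.2) :=
      mul_le_mul_of_nonneg_left hm2 (by linarith)
    have hmx : 0 < max (G.a ^ p.2) (G.a ^ x.2) := lt_max_of_lt_left (G.ap _)
    calc ‖p.1 - x.1‖ ≤ ‖p.1 - q'.1‖ + ‖q'.1 - x.1‖ := norm_sub_le_norm_sub_add_norm_sub _ _ _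
      _ ≤ ((G.R + 1) * G.a + 2 * G.R) * max (G.a ^ p.2) (G.a ^ x.2) := by linarith [hx.2]
      _ ≤ r * max (G.a ^ p.2) (G.a ^ x.2) := by
          refine mul_le_mul_of_nonneg_right ?_ hmx.le
          nlinarith
  have hX := (win_iff G hs T hsT hTC p.1 hposq).1 hwq
  have hY := (win_iff G hs' T hs'T hTC p.1 hposq').1 hwq'
  have hqM := next_memM hq
  have hq'M := next_memM hq'
  have hpM := hC.memM hp
  have hY2 : ‖G.w (G.lam ^ (-q.2) * (q'.1 - p.1)) - G.avg T p.1 q.2 q'.1‖ ≤ G.M1 * G.B0 := by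
    have e3 : q.2 = q'.2 - (q'.2 - q.2) := by ring
    rw [e3, w_shift (G.M_sub hq'M hpM), avg_shift T p.1 _ _ _ hpM hTM, ← map_sub]
    refine (G.Dz_small _ (by rw [abs_le] at hlab ⊢; omega) _).trans ?_
    exact mul_le_mul_of_nonneg_left hY (by linarith [G.M1_one])
  have hslow := avg_slow hb hC p hp q.1 q'.1 T hpT hT hqp hposq' q.2 e1.symm (by
    refine h.trans ?_
    rw [mul_assoc]
    refine mul_le_mul_of_nonneg_left ?_ hr0
    rw [abs_le] at hlab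
    exact _root_.max_le (G.zpow_le_succ (by omega)) (G.zpow_le_succ (by omega)))
  have e4 : G.w (G.lam ^ (-q.2) * (q.1 - q'.1))
      = (G.w (G.lam ^ (-q.2) * (q.1 - p.1)) - G.avg T p.1 q.2 q.1)
        - (G.w (G.lam ^ (-q.2) * (q'.1 - p.1)) - G.avg T p.1 q.2 q'.1)
        + (G.avg T p.1 q.2 q.1 - G.avg T p.1 q.2 q'.1) := by
    have : G.w (G.lam ^ (-q.2) * (q.1 - q'.1)) = G.w (G.lam ^ (-q.2) * (q.1 - p.1))
        - G.w (G.lam ^ (-q.2) * (q'.1 - p.1)) := by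
      rw [← map_sub]; congr 1; ring
    rw [this]; abel
  rw [e4]
  refine (norm_add_le _ _).trans ?_
  have := norm_sub_le (G.w (G.lam ^ (-q.2) * (q.1 - p.1)) - G.avg T p.1 q.2 q.1)
    (G.w (G.lam ^ (-q.2) * (q'.1 - p.1)) - G.avg T p.1 q.2 q'.1)
  unfold K
  linarith

lemma good_next_g5 {N : ℕ} (hb : Big G r N) (hA : 0 ≤ A) (hC : G.Good r C A A') (z : ℂ) (hz : z ≠ 0) :
    ∃ q ∈ G.next N C, ‖z - q.1‖ ≤ G.R * G.a ^ q.2 := by
  have hR := G.hR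
  have ha1 := G.a1
  have ha0 := G.a0
  have hR0 := G.hR0
  have hr0 : 0 ≤ r := by linarith [hb.hr1]
  obtain ⟨p, hp, hzp, -⟩ := hC.cov_min hb.hr4 z hz
  set k : ℤ := p.2 - N with hk
  have hak := G.ap k
  have haN : 0 < G.a ^ N := pow_pos ha0 N
  have e3 : G.a ^ p.2 = G.a ^ N * G.a ^ k := by
    have : p.2 = k + N := by rw [hk]; ring
    rw [this, zpow_add₀ (ne_of_gt ha0), zpow_natCast]; ring
  set t : ℝ := 1 / (2 * G.a * G.a ^ N) with ht
  have ht0 : 0 < t := by positivity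
  have ht1 : t ≤ 1 := by
    rw [ht, div_le_one (by positivity)]
    have := hb.hN0
    nlinarith
  have htR : t * (G.R * G.a ^ p.2) = G.R0 * G.a ^ k := by
    rw [ht, e3]; unfold R; field_simp
  set z' : ℂ := z + (t : ℂ) * (p.1 - z) with hz'
  have hz'p : ‖z' - p.1‖ ≤ (1 - t) * (G.R * G.a ^ p.2) := by
    have : z' - p.1 = ((1 - t : ℝ) : ℂ) * (z - p.1) := by rw [hz']; push_cast; ring
    rw [this, norm_mul, Complex.norm_real, Real.norm_of_nonneg (by linarith)]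
    exact mul_le_mul_of_nonneg_left hzp (by linarith)
  have hz'z : ‖z - z'‖ ≤ G.R0 * G.a ^ k := by
    have : z - z' = ((t : ℝ) : ℂ) * (z - p.1) := by rw [hz']; ring
    rw [this, norm_mul, Complex.norm_real, Real.norm_of_nonneg ht0.le, ← htR]
    exact mul_le_mul_of_nonneg_left hzp ht0.le
  have hz'p2 : ‖z' - p.1‖ ≤ G.R * G.a ^ p.2 := by
    refine hz'p.trans ?_
    have := mul_pos hR (G.ap p.2)
    nlinarith
  set T := nearT hr0 hC hp with hTdef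
  have hT : ∀ x ∈ T, x ∈ C ∧ ‖p.1 - x.1‖ ≤ r * max (G.a ^ p.2) (G.a ^ x.2) :=
    fun x hx => (mem_nearT hr0 hC hp x).1 hx
  have hTC : ∀ x ∈ T, x ∈ C := fun x hx => (hT x hx).1
  have hTM : ∀ x ∈ T, x.1 ∈ G.M := fun x hx => hC.memM (hTC x hx)
  have hpT : p ∈ T := self_nearT hr0 hC hp
  have hpM := hC.memM hp
  obtain ⟨y0, hy0L, hy0z, hy0w⟩ := G.coc (G.lam ^ (-k) * z') (G.avg T p.1 k z' + G.w (G.lam ^ (-k) * p.1))
  set y : ℂ := G.lam ^ k * y0 with hy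
  have hyy0 : G.lam ^ (-k) * y = y0 := by
    rw [hy, ← mul_assoc, ← zpow_add₀ G.lam0]; simp
  have hyz' : ‖y - z'‖ ≤ G.R0 * G.a ^ k := by
    have : y - z' = G.lam ^ k * (y0 - G.lam ^ (-k) * z') := by
      rw [mul_sub, ← mul_assoc (G.lam ^ k), ← zpow_add₀ G.lam0]; simp [hy]
    rw [this, norm_mul, norm_lam_zpow, mul_comm]
    exact mul_le_mul_of_nonneg_right hy0z hak.le
  have hyp : ‖y - p.1‖ ≤ G.R * G.a ^ p.2 := by
    calc ‖y - p.1‖ ≤ ‖y - z'‖ + ‖z' - p.1‖ := norm_sub_le_norm_sub_add_norm_sub _ _ _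
      _ ≤ G.R0 * G.a ^ k + (1 - t) * (G.R * G.a ^ p.2) := add_le_add hyz' hz'p
      _ = G.R * G.a ^ p.2 := by linarith
  have hposz' := lt_of_lt_of_le (mul_pos hR (G.ap p.2)) (sum_psi_pos T p hpT z' hz'p2)
  have hposy := lt_of_lt_of_le (mul_pos hR (G.ap p.2)) (sum_psi_pos T p hpT y hyp)
  have hslow := avg_slow hb hC p hp y z' T hpT hT hyp hposz' k (by rw [hk]; ring)
    (hyz'.trans (mul_le_mul_of_nonneg_right hb.hrR0 hak.le))
  have hyM : y ∈ G.M := G.M_of_zpow (-k) (by rw [hyy0]; exact hy0L)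
  have hwy : ‖G.w (G.lam ^ (-k) * (y - p.1)) - G.avg T p.1 k y‖ ≤ G.Bc + 1 := by
    have e5 : G.w (G.lam ^ (-k) * (y - p.1)) - G.avg T p.1 k y
        = (G.w y0 - (G.avg T p.1 k z' + G.w (G.lam ^ (-k) * p.1)))
          - (G.avg T p.1 k y - G.avg T p.1 k z') := by
      rw [mul_sub, hyy0, map_sub]; abel
    rw [e5]
    refine (norm_sub_le _ _).trans ?_
    linarith
  have hy00 : y ≠ 0 := by
    intro h0
    rw [h0, zero_sub, norm_neg] at hyp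
    have := hC.g4 p hp
    have h5 := G.ap p.2
    nlinarith
  obtain ⟨p', hp', hyp', hmin⟩ := hC.cov_min hb.hr4 y hy00
  have hle : p'.2 ≤ p.2 := hmin p hp hyp
  have hnear : ‖p.1 - p'.1‖ ≤ r * max (G.a ^ p.2) (G.a ^ p'.2) := by
    apply near_of_two hb.hr4 (z := y)
    · have := mul_pos hR (G.ap p.2); linarith
    · have := mul_pos hR (G.ap p'.2); linarith
  have hl := (hC.g6 p hp p' hp' hnear).1
  rw [abs_le] at hl
  set k' : ℤ := p'.2 - N with hk'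
  have hkk' : k' ≤ k ∧ k ≤ k' + 1 := by omega
  obtain ⟨s, hs⟩ := hC.exists_N hb.hr4 y
  refine ⟨(y, k'), ⟨⟨p', hp', by simp only; rw [hk']; ring, hyp'⟩, ?_, ?_, ?_⟩, ?_⟩
  · intro x hx hxy
    have := hmin x hx hxy
    simp only
    omega
  · simp only
    have e6 : G.lam ^ (-k') * y = G.lam ^ (k - k').toNat * y0 := by
      have e7 : ∀ u : ℂ, G.lam ^ (-k') * u = G.lam ^ (k - k') * (G.lam ^ (-k) * u) := by
        intro u
        rw [← mul_assoc, ← zpow_add₀ G.lam0]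
        congr 2; ring
      rw [← zpow_natCast, Int.toNat_of_nonneg (by omega), e7 y, hyy0]
    rw [e6]
    exact G.L_pow _ hy0L _
  · have hsT : s ⊆ T := by
      intro x hx
      rw [hs] at hx
      rw [hTdef, mem_nearT]
      refine ⟨hx.1, near_of_two hb.hr4 (z := y) ?_ hx.2.le⟩
      have := mul_pos hR (G.ap p.2)
      linarith
    refine (win_iff G (q := (y, k')) hs T hsT hTC p.1 hposy).2 ?_
    simp only
    have e3 : k' = k - (k - k') := by ring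
    rw [e3, w_shift (G.M_sub hyM hpM), avg_shift T p.1 _ _ _ hpM hTM, ← map_sub]
    refine (G.Dz_small _ (by rw [abs_le]; omega) _).trans ?_
    exact mul_le_mul_of_nonneg_left hwy (by linarith [G.M1_one])
  · simp only
    calc ‖z - y‖ ≤ ‖z - z'‖ + ‖z' - y‖ := norm_sub_le_norm_sub_add_norm_sub _ _ _
      _ ≤ 2 * G.R0 * G.a ^ k := by rw [norm_sub_rev z' y]; linarith
      _ ≤ 2 * G.R0 * (G.a * G.a ^ k') := by
          exact mul_le_mul_of_nonneg_left (G.zpow_le_succ hkk'.2) (by linarith)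
      _ = G.R * G.a ^ k' := by unfold R; ring

theorem good_next {N : ℕ} (hb : Big G r N) (hA : 0 ≤ A) (hC : G.Good r C A A') :
    G.Good r (G.next N C) (A * G.a ^ N) (A' * G.a ^ N) where
  g0 := fun q hq => hq.2.2.1
  g1 := fun p => next_sh hC p
  g2 := by
    intro q q' hq hq' h
    obtain ⟨⟨p, hp, hpl, hpd⟩, hmin, -, -⟩ := hq
    obtain ⟨⟨p', hp', hpl', hpd'⟩, hmin', -, -⟩ := hq'
    have h1 := hmin p' hp' (by rw [h]; exact hpd')
    have h2 := hmin' p hp (by rw [← h]; exact hpd)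
    ext
    · rw [h]
    · omega
  g4 := by
    intro q hq
    obtain ⟨⟨p, hp, hpl, hpd⟩, -, -, -⟩ := hq
    have h4 := hC.g4 p hp
    have e3 : G.a ^ p.2 = G.a ^ N * G.a ^ q.2 := by
      rw [hpl, zpow_add₀ (ne_of_gt G.a0), zpow_natCast]; ring
    have h5 : ‖p.1‖ ≤ ‖q.1‖ + ‖q.1 - p.1‖ := by
      have := norm_sub_le q.1 (q.1 - p.1)
      simpa using this
    have hR := G.hR
    have hq2 := G.ap q.2
    have hN := hb.hN0
    have h6 : (A + G.R) * G.a ^ p.2 ≤ ‖q.1‖ := by linarith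
    rw [e3] at h6
    have h7 : G.R * 2 ≤ G.R * G.a ^ N := mul_le_mul_of_nonneg_left hN hR.le
    have h8 : (A * G.a ^ N + 2 * G.R) * G.a ^ q.2 ≤ (A + G.R) * (G.a ^ N * G.a ^ q.2) := by
      rw [← mul_assoc]
      refine mul_le_mul_of_nonneg_right ?_ hq2.le
      linarith
    exact h8.trans h6
  g4' := by
    intro q hq
    obtain ⟨⟨p, hp, hpl, hpd⟩, -, -, -⟩ := hq
    have h4 := hC.g4' p hp
    have e3 : G.a ^ p.2 = G.a ^ N * G.a ^ q.2 := by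
      rw [hpl, zpow_add₀ (ne_of_gt G.a0), zpow_natCast]; ring
    have h5 : ‖q.1‖ ≤ ‖p.1‖ + ‖q.1 - p.1‖ := by
      have := norm_add_le p.1 (q.1 - p.1)
      simpa using this
    have hR := G.hR
    have hq2 := G.ap q.2
    have hN := hb.hN0
    have h6 : ‖q.1‖ ≤ (A' - G.R) * G.a ^ p.2 := by linarith
    rw [e3] at h6
    have h7 : G.R * 2 ≤ G.R * G.a ^ N := mul_le_mul_of_nonneg_left hN hR.le
    refine h6.trans ?_
    rw [← mul_assoc]
    refine mul_le_mul_of_nonneg_right ?_ hq2.le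
    linarith
  g5 := fun z hz => good_next_g5 hb hA hC z hz
  g6 := fun q hq q' hq' h => good_next_g6 hb hC q hq q' hq' h

end Alg
end Pool.Agent.H475R3
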