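import Pool.Agent.H475R3.Cfg3

set_option autoImplicit false
open Set

namespace Pool.Agent.H475R3
namespace Alg
open TS (sh)
variable {W : Type} [NormedAddCommGroup W] [NormedSpace ℝ W] {G : Alg W}

/-- the initial configuration -/
def init (G : Alg W) (r0 : ℝ) : Cfg :=
  {q | G.lam ^ (-q.2) * q.1 ∈ G.L ∧ ‖G.w (G.lam ^ (-q.2) * q.1)‖ ≤ G.B0 ∧
    r0 * G.a ^ q.2 ≤ ‖q.1‖ ∧ ‖q.1‖ < r0 * (G.a * G.a ^ q.2)}

theorem init_good (r r0 : ℝ) (hr : 2 * G.R0 ≤ r) (hr0 : r * G.a < r0 * (G.a - 1)) :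
    G.Good r (G.init r0) (r0 - 2 * G.R) (r0 * G.a + 2 * G.R) := by
  have hR := G.hR
  have ha1 := G.a1
  have ha0 := G.a0
  have hR0 := G.hR0
  have hrpos : 0 < r := by linarith
  have hr0pos : 0 < r0 := by
    by_contra hcon
    push Not at hcon
    nlinarith [mul_pos hrpos ha0]
  have hB0 := G.hB0
  have hM1 := G.M1_one
  have hBc := G.hBc
  have ha' : ∀ k : ℤ, G.a ^ (k + 1) = G.a * G.a ^ k := by
    intro k; rw [zpow_add₀ (ne_of_gt ha0), zpow_one]; ring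
  refine ⟨fun p hp => hp.1, ?_, ?_, ?_, ?_, ?_, ?_⟩
  · intro p
    have e1 : G.lam ^ (-(sh G.lam 1 p).2) * (sh G.lam 1 p).1 = G.lam ^ (-p.2) * p.1 := by
      simp only [sh]
      rw [← mul_assoc, ← zpow_add₀ G.lam0]; congr 2; ring
    have e2 : ‖(sh G.lam 1 p).1‖ = G.a * ‖p.1‖ := by
      simp only [sh, zpow_one, norm_mul]; rfl
    have e3 : G.a ^ (sh G.lam 1 p).2 = G.a * G.a ^ p.2 := by simp only [sh]; exact ha' _
    simp only [init, mem_ofPred_eq]
    rw [e1, e2, e3]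
    have h1 : r0 * (G.a * G.a ^ p.2) ≤ G.a * ‖p.1‖ ↔ r0 * G.a ^ p.2 ≤ ‖p.1‖ := by
      rw [show r0 * (G.a * G.a ^ p.2) = G.a * (r0 * G.a ^ p.2) by ring]
      exact mul_le_mul_iff_right₀ ha0
    have h2 : G.a * ‖p.1‖ < r0 * (G.a * (G.a * G.a ^ p.2)) ↔ ‖p.1‖ < r0 * (G.a * G.a ^ p.2) := by
      rw [show r0 * (G.a * (G.a * G.a ^ p.2)) = G.a * (r0 * (G.a * G.a ^ p.2)) by ring]
      exact mul_lt_mul_iff_right₀ ha0
    rw [h1, h2]
  · rintro ⟨z, k⟩ ⟨z', k'⟩ ⟨-, -, h1, h2⟩ ⟨-, -, h3, h4⟩ h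
    simp only at h h1 h2 h3 h4
    subst h
    have hk : k < k' + 1 := by
      by_contra hcon
      push Not at hcon
      have := zpow_le_zpow_right₀ ha1.le hcon
      rw [ha'] at this
      nlinarith
    have hk' : k' < k + 1 := by
      by_contra hcon
      push Not at hcon
      have := zpow_le_zpow_right₀ ha1.le hcon
      rw [ha'] at this
      nlinarith
    ext
    · rfl
    · simp only; omega
  · intro p hp
    have := hp.2.2.1
    linarith
  · intro p hp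
    have := hp.2.2.2
    have e : (r0 * G.a + 2 * G.R - 2 * G.R) * G.a ^ p.2 = r0 * (G.a * G.a ^ p.2) := by ring
    rw [e]; exact this.le
  · intro z hz
    have hzp : 0 < ‖z‖ := norm_pos_iff.2 hz
    obtain ⟨k, hk1, hk2⟩ := exists_mem_Ico_zpow (div_pos hzp hr0pos) ha1
    have hak := G.ap k
    rw [le_div_iff₀ hr0pos] at hk1
    rw [div_lt_iff₀ hr0pos, ha'] at hk2
    set c : ℝ := G.R0 * G.a ^ k / ‖z‖ with hc
    have hc0 : 0 < c := by positivity
    have hcz : c * ‖z‖ = G.R0 * G.a ^ k := by rw [hc]; field_simp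
    have hR0r : G.R0 < r0 := by nlinarith
    have hc1 : c ≤ 1 := by
      rw [hc, div_le_one hzp]
      nlinarith
    set z' : ℂ := ((1 - c : ℝ) : ℂ) * z with hz'
    have hz'n : ‖z'‖ = ‖z‖ - G.R0 * G.a ^ k := by
      rw [hz', norm_mul, Complex.norm_real, Real.norm_of_nonneg (by linarith), sub_mul, one_mul, hcz]
    have hzz' : ‖z - z'‖ = G.R0 * G.a ^ k := by
      have : z - z' = ((c : ℝ) : ℂ) * z := by rw [hz']; push_cast; ring
      rw [this, norm_mul, Complex.norm_real, Real.norm_of_nonneg hc0.le, hcz]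
    obtain ⟨y0, hy0L, hy0z, hy0w⟩ := G.coc (G.lam ^ (-k) * z') 0
    rw [sub_zero] at hy0w
    obtain ⟨y, hy⟩ : ∃ y, y = G.lam ^ k * y0 := ⟨_, rfl⟩
    have hyy0 : G.lam ^ (-k) * y = y0 := by
      rw [hy, ← mul_assoc, ← zpow_add₀ G.lam0]; simp
    have hyz' : ‖y - z'‖ ≤ G.R0 * G.a ^ k := by
      have : y - z' = G.lam ^ k * (y0 - G.lam ^ (-k) * z') := by
        rw [mul_sub, ← mul_assoc (G.lam ^ k), ← zpow_add₀ G.lam0]; simp [hy]
      rw [this, norm_mul, norm_lam_zpow, mul_comm]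
      exact mul_le_mul_of_nonneg_right hy0z hak.le
    have hyz : ‖z - y‖ ≤ 2 * G.R0 * G.a ^ k := by
      calc ‖z - y‖ ≤ ‖z - z'‖ + ‖z' - y‖ := norm_sub_le_norm_sub_add_norm_sub _ _ _
        _ ≤ _ := by rw [norm_sub_rev z' y]; linarith
    have hyu : ‖y‖ ≤ ‖z‖ := by
      have : ‖y‖ ≤ ‖y - z'‖ + ‖z'‖ := by simpa using norm_add_le (y - z') z'
      linarith
    have hyl : ‖z‖ - 2 * G.R0 * G.a ^ k ≤ ‖y‖ := by
      have : ‖z‖ ≤ ‖z - y‖ + ‖y‖ := by simpa using norm_add_le (z - y) y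
      linarith
    -- label
    have hwit : ∀ d : ℕ, d ≤ 1 → r0 * G.a ^ (k - d) ≤ ‖y‖ → ‖y‖ < r0 * (G.a * G.a ^ (k - d)) →
        ∃ p ∈ G.init r0, ‖z - p.1‖ ≤ G.R * G.a ^ p.2 := by
      intro d hd h1 h2
      refine ⟨(y, k - d), ⟨?_, ?_, h1, h2⟩, ?_⟩
      · simp only
        have e7 : ∀ u : ℂ, G.lam ^ (-(k - (d : ℤ))) * u = G.lam ^ (d : ℤ) * (G.lam ^ (-k) * u) := by
          intro u
          rw [← mul_assoc, ← zpow_add₀ G.lam0]
          congr 2; ring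
        rw [e7 y, hyy0, zpow_natCast]
        exact G.L_pow _ hy0L _
      · simp only
        have e7 : ∀ u : ℂ, G.lam ^ (-(k - (d : ℤ))) * u = G.lam ^ (d : ℤ) * (G.lam ^ (-k) * u) := by
          intro u
          rw [← mul_assoc, ← zpow_add₀ G.lam0]
          congr 2; ring
        rw [e7 y, hyy0, G.w_zpow (G.M_of_L hy0L)]
        refine (G.Dz_small _ (by rw [abs_le]; omega) _).trans ?_
        unfold B0
        exact mul_le_mul_of_nonneg_left (by linarith) (by linarith)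
      · simp only
        refine hyz.trans ?_
        have h5 : G.a ^ k ≤ G.a * G.a ^ (k - (d : ℤ)) := G.zpow_le_succ (by omega)
        unfold R
        nlinarith
    by_cases hcase : r0 * G.a ^ k ≤ ‖y‖
    · apply hwit 0 (by omega)
      · simpa using hcase
      · simpa using lt_of_le_of_lt hyu (by linarith)
    · push Not at hcase
      have e8 : G.a * G.a ^ (k - ((1 : ℕ) : ℤ)) = G.a ^ k := by
        have := ha' (k - 1)
        rw [← sub_add_cancel k 1, this]; simp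
      apply hwit 1 le_rfl
      · have hak1 := G.ap (k - ((1 : ℕ) : ℤ))
        rw [← e8] at hyl hk1
        have h6 : G.a ^ (k - ((1 : ℕ) : ℤ)) * (r0 * (G.a - 1)) ≥ G.a ^ (k - ((1 : ℕ) : ℤ)) * (2 * G.R0 * G.a) := by
          refine mul_le_mul_of_nonneg_left ?_ hak1.le
          nlinarith
        nlinarith
      · rw [e8]; exact hcase
  · intro q hq q' hq' h
    obtain ⟨-, hw1, h1, h2⟩ := id hq
    obtain ⟨-, hw2, h3, h4⟩ := id hq'
    have haux : ∀ u v : ℂ × ℤ, r0 * G.a ^ u.2 ≤ ‖u.1‖ → ‖v.1‖ < r0 * (G.a * G.a ^ v.2) →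
        ‖u.1 - v.1‖ ≤ r * max (G.a ^ u.2) (G.a ^ v.2) → ¬ (v.2 + 2 ≤ u.2) := by
      intro u v hu hv huv hcon
      have h5 : G.a * (G.a * G.a ^ v.2) ≤ G.a ^ u.2 := by
        rw [← ha', ← ha']
        exact zpow_le_zpow_right₀ ha1.le (by omega)
      have hav := G.ap v.2
      have hau := G.ap u.2
      have h6 : max (G.a ^ u.2) (G.a ^ v.2) = G.a ^ u.2 :=
        max_eq_left (zpow_le_zpow_right₀ ha1.le (by omega))
      rw [h6] at huv
      have h7 : ‖u.1‖ ≤ ‖u.1 - v.1‖ + ‖v.1‖ := by simpa using norm_add_le (u.1 - v.1) v.1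
      have h8 : r0 * G.a ^ u.2 < r * G.a ^ u.2 + r0 * (G.a * G.a ^ v.2) := by linarith
      have h9 : G.a * (r0 * G.a ^ u.2) < G.a * (r * G.a ^ u.2) + r0 * G.a ^ u.2 := by
        have := mul_lt_mul_of_pos_left h8 ha0
        nlinarith
      nlinarith
    have hlab : |q.2 - q'.2| ≤ 1 := by
      have n1 := haux q q' h1 h4 h
      have n2 := haux q' q h3 h2 (by rw [norm_sub_rev, max_comm]; exact h)
      rw [abs_le]; omega
    refine ⟨hlab, ?_⟩
    have hq'M : q'.1 ∈ G.M := G.M_of_zpow _ hq'.1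
    have e3 : G.w (G.lam ^ (-q.2) * q'.1) = G.Dz (q'.2 - q.2) (G.w (G.lam ^ (-q'.2) * q'.1)) := by
      have := w_shift (G := G) hq'M q'.2 (q'.2 - q.2)
      rw [← this]; congr 3; ring
    rw [mul_sub, map_sub, e3]
    refine (norm_sub_le _ _).trans ?_
    have h5 := G.Dz_small (q'.2 - q.2) (by rw [abs_le] at hlab ⊢; omega) (G.w (G.lam ^ (-q'.2) * q'.1))
    have h6 := mul_le_mul_of_nonneg_left hw2 (by linarith : (0 : ℝ) ≤ G.M1)
    unfold K
    linarith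

end Alg
end Pool.Agent.H475R3
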