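import Pool.Agent.H475R3.Par2

set_option autoImplicit false
open Set

namespace Pool.Agent.H475R3

/-- the vertices of a path, as a finite connected set. -/
lemma path_finite {α : Type} (Q : α → α → Prop) (hsymm : ∀ x y, Q x y → Q y x) {p q : α}
    (h : Relation.ReflTransGen Q p q) :
    ∃ A : Set α, A.Finite ∧ p ∈ A ∧ q ∈ A ∧ (∀ u ∈ A, Relation.ReflTransGen Q p u) ∧
      ∀ u ∈ A, ∀ v ∈ A, Relation.ReflTransGen (fun x y => Q x y ∧ x ∈ A ∧ y ∈ A) u v := by
  induction h with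
  | refl =>
    refine ⟨{p}, finite_singleton p, rfl, rfl, ?_, ?_⟩
    · intro u hu; rw [mem_singleton_iff.1 hu]
    · intro u hu v hv; rw [mem_singleton_iff.1 hu, mem_singleton_iff.1 hv]
  | tail hpb hbc ih =>
    rename_i b c
    obtain ⟨A, hA, hp, hb, hreach, hconn⟩ := ih
    have hmono : ∀ u v, Relation.ReflTransGen (fun x y => Q x y ∧ x ∈ A ∧ y ∈ A) u v →
        Relation.ReflTransGen (fun x y => Q x y ∧ x ∈ insert c A ∧ y ∈ insert c A) u v := by
      intro u v huv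
      refine Relation.ReflTransGen.mono ?_ _ _ huv
      rintro x y ⟨h1, h2, h3⟩
      exact ⟨h1, mem_insert_of_mem _ h2, mem_insert_of_mem _ h3⟩
    have e1 : Relation.ReflTransGen (fun x y => Q x y ∧ x ∈ insert c A ∧ y ∈ insert c A) b c :=
      Relation.ReflTransGen.single ⟨hbc, mem_insert_of_mem _ hb, mem_insert _ _⟩
    have e2 : Relation.ReflTransGen (fun x y => Q x y ∧ x ∈ insert c A ∧ y ∈ insert c A) c b :=
      Relation.ReflTransGen.single ⟨hsymm _ _ hbc, mem_insert _ _, mem_insert_of_mem _ hb⟩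
    refine ⟨insert c A, hA.insert c, mem_insert_of_mem _ hp, mem_insert _ _, ?_, ?_⟩
    · intro u hu
      rcases mem_insert_iff.1 hu with hu | hu
      · rw [hu]; exact hpb.tail hbc
      · exact hreach u hu
    · intro u hu v hv
      rcases mem_insert_iff.1 hu with hu | hu <;> rcases mem_insert_iff.1 hv with hv | hv
      · rw [hu, hv]
      · rw [hu]; exact e2.trans (hmono _ _ (hconn b hb v hv))
      · rw [hv]; exact (hmono _ _ (hconn u hu b hb)).trans e1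
      · exact hmono _ _ (hconn u hu v hv)

lemma rtg_symm {α : Type} (Q : α → α → Prop) (hsymm : ∀ x y, Q x y → Q y x) {p q : α}
    (h : Relation.ReflTransGen Q p q) : Relation.ReflTransGen Q q p := by
  induction h with
  | refl => exact Relation.ReflTransGen.refl
  | tail _ hbc ih => exact (Relation.ReflTransGen.single (hsymm _ _ hbc)).trans ih

namespace Alg
open TS (sh)
variable {W : Type} [NormedAddCommGroup W] [NormedSpace ℝ W] {G : Alg W}
variable {r s h A A' r2 A2 A2' : ℝ} {C : Cfg}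

/-- number of Gabriel splitting steps -/
noncomputable def mS (G : Alg W) (s : ℝ) : ℕ := ⌊9 * G.R ^ 2 * G.a ^ 4 / s ^ 2⌋₊

/-- constant of the spiral lemma -/
noncomputable def K1 (G : Alg W) (s : ℝ) : ℝ := 3 * G.R * G.a * (G.mS s + 1) + 3 * G.R + 1

lemma sh_norm (G : Alg W) (j : ℤ) (p : Pt) : ‖(sh G.lam j p).1‖ = G.a ^ j * ‖p.1‖ := by
  simp only [sh, norm_mul, norm_lam_zpow]

lemma sh_cancel (G : Alg W) (j : ℤ) (p : Pt) : sh G.lam j (sh G.lam (-j) p) = p := by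
  rw [TS.sh_sh _ G.lam0, add_neg_cancel, TS.sh_zero]

lemma sh_cancel' (G : Alg W) (j : ℤ) (p : Pt) : sh G.lam (-j) (sh G.lam j p) = p := by
  rw [TS.sh_sh _ G.lam0, neg_add_cancel, TS.sh_zero]

lemma sh_diff (G : Alg W) (j : ℤ) (p q : Pt) :
    ‖(sh G.lam j p).1 - (sh G.lam j q).1‖ = G.a ^ j * ‖p.1 - q.1‖ := by
  simp only [sh]
  rw [← mul_sub, norm_mul, norm_lam_zpow]

lemma Good.sh_all (hC : G.Good r C A A') (j : ℤ) (p : Pt) : p ∈ C ↔ sh G.lam j p ∈ C := by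
  have hnat : ∀ (n : ℕ) (p : Pt), p ∈ C ↔ sh G.lam (n : ℤ) p ∈ C := by
    intro n
    induction n with
    | zero => intro p; simp [TS.sh_zero]
    | succ n ih =>
      intro p
      rw [ih p, hC.g1, TS.sh_sh _ G.lam0]
      push_cast
      rw [add_comm]
  rcases Int.eq_nat_or_neg j with ⟨n, rfl | rfl⟩
  · exact hnat n p
  · have := hnat n (sh G.lam (-(n : ℤ)) p)
    rw [sh_cancel] at this
    exact this.symm

/-- Gabriel adjacency is scale equivariant. -/
lemma Good.adj_sh (hC : G.Good r C A A') (j : ℤ) {p q : Pt} (hpq : Adj C p q) :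
    Adj C (sh G.lam j p) (sh G.lam j q) := by
  obtain ⟨hp, hq, hne, hall⟩ := hpq
  refine ⟨(hC.sh_all j p).1 hp, (hC.sh_all j q).1 hq, ?_, ?_⟩
  · intro h
    apply hne
    rw [← sh_cancel' G j p, h, sh_cancel']
  · intro x hx hxp hxq
    have hx' : sh G.lam (-j) x ∈ C := (hC.sh_all (-j) x).1 hx
    have h1 := hall _ hx' (by intro h; apply hxp; rw [← h, sh_cancel])
      (by intro h; apply hxq; rw [← h, sh_cancel])
    have e : x = sh G.lam j (sh G.lam (-j) x) := (sh_cancel G j x).symm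
    rw [e, sh_diff, sh_diff, sh_diff]
    have hpos := G.ap j
    have : 0 < (G.a ^ j) ^ 2 := by positivity
    nlinarith [this, h1]

lemma exists_small_rot (G : Alg W) (e : ℝ) (he : 0 < e) :
    ∃ P : ℕ, 0 < P ∧ ‖1 - Complex.exp (-(Complex.log G.lam / P))‖ ≤ e := by
  have h1 : Filter.Tendsto (fun P : ℕ => 1 - Complex.exp (-(Complex.log G.lam / P))) Filter.atTop
      (nhds (1 - Complex.exp (-0))) := by
    refine Filter.Tendsto.sub tendsto_const_nhds ?_
    refine (Complex.continuous_exp.tendsto _).comp ?_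
    refine Filter.Tendsto.neg ?_
    exact tendsto_const_div_atTop_nhds_zero_nat (Complex.log G.lam)
  rw [neg_zero, Complex.exp_zero, sub_self] at h1
  have h2 := h1.norm
  rw [norm_zero] at h2
  have h3 := h2.eventually (gt_mem_nhds he)
  obtain ⟨P, hP, hP0⟩ := (h3.and (Filter.eventually_gt_atTop 0)).exists
  exact ⟨P, hP0, hP.le⟩

theorem spiral (hS : SepC G r s h) (hr1 : 1 ≤ r) (hr4 : 40 * (G.R + 1) * G.a ≤ r)
    (hC : G.Good r C A A') (hC2 : G.Good r2 C A2 A2') (hr2 : G.K1 s ≤ r2)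
    (hA2 : r2 ≤ A2) (y : Pt) (hy : y ∈ C) :
    Relation.ReflTransGen (fun u v => Adj C u v ∧ ‖u.1‖ ≤ 4 * ‖y.1‖ ∧ ‖v.1‖ ≤ 4 * ‖y.1‖) y
      (sh G.lam (-1) y) := by
  have hR := G.hR
  have ha1 := G.a1
  have ha0 := G.a0
  have hs0 := hS.s0
  have hK1 : 0 < G.K1 s := by unfold K1; positivity
  have hr20 : 0 < r2 := lt_of_lt_of_le hK1 hr2
  have hmS0 : (0 : ℝ) ≤ G.mS s := Nat.cast_nonneg _
  have hr2R : 3 * G.R ≤ r2 := by
    refine le_trans ?_ hr2
    unfold K1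
    have : 0 ≤ 3 * G.R * G.a * (G.mS s + 1) := by positivity
    linarith
  have hr2m : G.mS s * (3 * G.R * G.a) ≤ r2 := by
    refine le_trans ?_ hr2
    unfold K1
    have : 0 ≤ 3 * G.R * G.a := by positivity
    nlinarith
  have hy0 : 0 < ‖y.1‖ := by
    have h1 := hC2.g4 y hy
    have h2 : 0 < (A2 + 2 * G.R) * G.a ^ y.2 := mul_pos (by linarith) (G.ap _)
    linarith
  have hA' : 0 < A2' := by
    have h1 := hC2.g4' y hy
    have h2 : 0 < (A2' - 2 * G.R) * G.a ^ y.2 := lt_of_lt_of_le hy0 h1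
    have := (mul_pos_iff_of_pos_right (G.ap y.2)).1 h2
    linarith
  obtain ⟨P, hP0, hP⟩ := exists_small_rot G (G.R / A2') (by positivity)
  set ε := ‖1 - Complex.exp (-(Complex.log G.lam / P))‖ with hε
  have hPr : (0 : ℝ) < P := by exact_mod_cast hP0
  have hPc : (P : ℂ) ≠ 0 := by exact_mod_cast hP0.ne'
  let z : ℕ → ℂ := fun i => Complex.exp (-((i : ℂ) * (Complex.log G.lam / P))) * y.1
  have hz0 : z 0 = y.1 := by simp [z]
  have hzP : z P = (sh G.lam (-1) y).1 := by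
    simp only [z, sh]
    rw [mul_div_cancel₀ _ hPc, Complex.exp_neg, Complex.exp_log G.lam0, zpow_neg_one]
  have hzs : ∀ i, z (i + 1) = Complex.exp (-(Complex.log G.lam / P)) * z i := by
    intro i
    simp only [z]
    rw [← mul_assoc, ← Complex.exp_add]
    congr 2
    push_cast; ring
  have hznorm : ∀ i, ‖z i‖ = Real.exp (-(i * (Real.log G.a / P))) * ‖y.1‖ := by
    intro i
    simp only [z]
    rw [norm_mul, Complex.norm_exp]
    congr 2
    have : -((i : ℂ) * (Complex.log G.lam / P)) = ((-(i / P) : ℝ) : ℂ) * Complex.log G.lam := by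
      push_cast; ring
    rw [this, Complex.re_ofReal_mul, Complex.log_re]
    have : ‖G.lam‖ = G.a := rfl
    rw [this]; ring
  have hzle : ∀ i, ‖z i‖ ≤ ‖y.1‖ := by
    intro i
    rw [hznorm]
    have h1 : Real.exp (-(i * (Real.log G.a / P))) ≤ 1 := by
      rw [Real.exp_le_one_iff]
      have := Real.log_nonneg ha1.le
      have : 0 ≤ (i : ℝ) * (Real.log G.a / P) := by positivity
      linarith
    nlinarith
  have hzne : ∀ i, z i ≠ 0 := by
    intro i h
    have h1 := hznorm i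
    rw [h, norm_zero] at h1
    have := Real.exp_pos (-(i * (Real.log G.a / P)))
    have := mul_pos this hy0
    linarith
  have hzstep : ∀ i, ‖z i - z (i + 1)‖ ≤ G.R / A2' * ‖z i‖ := by
    intro i
    rw [hzs]
    have : z i - Complex.exp (-(Complex.log G.lam / P)) * z i
        = (1 - Complex.exp (-(Complex.log G.lam / P))) * z i := by ring
    rw [this, norm_mul]
    exact mul_le_mul_of_nonneg_right hP (norm_nonneg _)
  have hyex : ∀ i, ∃ x ∈ C, ‖z i - x.1‖ ≤ G.R * G.a ^ x.2 ∧ (i = 0 → x = y) ∧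
      (i = P → x = sh G.lam (-1) y) := by
    intro i
    by_cases h0 : i = 0
    · refine ⟨y, hy, ?_, fun _ => rfl, fun h => ?_⟩
      · rw [h0, hz0, sub_self, norm_zero]
        have := G.ap y.2
        positivity
      · omega
    · by_cases h1 : i = P
      · refine ⟨sh G.lam (-1) y, (hC.sh_mem y).1 hy, ?_, fun h => absurd h h0, fun _ => rfl⟩
        rw [h1, hzP, sub_self, norm_zero]
        have := G.ap (sh G.lam (-1) y).2
        positivity
      · obtain ⟨x, hx, hxz⟩ := hC.g5 (z i) (hzne i)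
        exact ⟨x, hx, hxz, fun h => absurd h h0, fun h => absurd h h1⟩
  choose w hwC hwz hw0 hwP using hyex
  -- basic bounds for w i
  have hw4 : ∀ i, (r2 + 2 * G.R) * G.a ^ (w i).2 ≤ ‖(w i).1‖ := by
    intro i
    refine le_trans ?_ (hC2.g4 _ (hwC i))
    exact mul_le_mul_of_nonneg_right (by linarith) (G.ap _).le
  have hw2 : ∀ i, ‖(w i).1‖ ≤ 2 * ‖y.1‖ := by
    intro i
    have h1 := hw4 i
    have h2 := hwz i
    have h3 := hzle i
    have h4 : ‖(w i).1‖ ≤ ‖z i‖ + ‖z i - (w i).1‖ := by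
      have := norm_sub_norm_le (w i).1 (z i)
      rw [norm_sub_rev] at this
      linarith
    have h5 := G.ap (w i).2
    have h6 : G.R * G.a ^ (w i).2 ≤ ‖(w i).1‖ / 2 := by nlinarith
    linarith
  have hwlow : ∀ i, ‖z i‖ ≤ A2' * G.a ^ (w i).2 := by
    intro i
    have h1 := hC2.g4' _ (hwC i)
    have h2 := hwz i
    have h4 : ‖z i‖ ≤ ‖(w i).1‖ + ‖z i - (w i).1‖ := by
      have := norm_sub_norm_le (z i) (w i).1
      linarith
    have h5 := G.ap (w i).2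
    nlinarith
  have hstepR : ∀ i, ‖z i - z (i + 1)‖ ≤ G.R * G.a ^ (w i).2 := by
    intro i
    refine (hzstep i).trans ?_
    have h1 := hwlow i
    calc G.R / A2' * ‖z i‖ ≤ G.R / A2' * (A2' * G.a ^ (w i).2) :=
          mul_le_mul_of_nonneg_left h1 (by positivity)
      _ = G.R * G.a ^ (w i).2 := by field_simp
  have hdist0 : ∀ i, ‖(w i).1 - (w (i + 1)).1‖ ≤ 2 * G.R * G.a ^ (w i).2 + G.R * G.a ^ (w (i + 1)).2 := by
    intro i
    have e : (w i).1 - (w (i + 1)).1 = ((w i).1 - z i) + (z i - z (i + 1))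
        + (z (i + 1) - (w (i + 1)).1) := by ring
    rw [e]
    refine norm_add₃_le.trans ?_
    have a1 := hwz i
    rw [norm_sub_rev] at a1
    have a2 := hwz (i + 1)
    have a3 := hstepR i
    linarith
  have hdist : ∀ i, ‖(w i).1 - (w (i + 1)).1‖ ≤ 3 * G.R * G.a * G.a ^ (w i).2 := by
    intro i
    have h1 := hdist0 i
    have hm1 : G.a ^ (w i).2 ≤ max (G.a ^ (w i).2) (G.a ^ (w (i + 1)).2) := le_max_left _ _
    have hm2 : G.a ^ (w (i + 1)).2 ≤ max (G.a ^ (w i).2) (G.a ^ (w (i + 1)).2) := le_max_right _ _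
    have hm0 : 0 < max (G.a ^ (w i).2) (G.a ^ (w (i + 1)).2) := lt_max_of_lt_left (G.ap _)
    have hnear : ‖(w i).1 - (w (i + 1)).1‖ ≤ r2 * max (G.a ^ (w i).2) (G.a ^ (w (i + 1)).2) := by
      have := mul_le_mul_of_nonneg_left hm1 (by linarith : (0 : ℝ) ≤ 2 * G.R)
      have := mul_le_mul_of_nonneg_left hm2 hR.le
      have := mul_le_mul_of_nonneg_right hr2R hm0.le
      linarith
    have hl := (hC2.g6 _ (hwC i) _ (hwC (i + 1)) hnear).1
    have h5 : G.a ^ (w (i + 1)).2 ≤ G.a * G.a ^ (w i).2 :=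
      G.zpow_le_succ (by rw [abs_le] at hl; omega)
    have h6 := mul_le_mul_of_nonneg_left h5 hR.le
    have h7 : G.a ^ (w i).2 ≤ G.a * G.a ^ (w i).2 := by
      have := G.ap (w i).2
      nlinarith
    have h8 := mul_le_mul_of_nonneg_left h7 (by linarith : (0 : ℝ) ≤ 2 * G.R)
    linarith
  have key : ∀ i, Relation.ReflTransGen (fun u v => Adj C u v ∧ ‖u.1‖ ≤ 4 * ‖y.1‖ ∧ ‖v.1‖ ≤ 4 * ‖y.1‖)
      (w i) (w (i + 1)) := by
    intro i
    have hai := G.ap (w i).2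
    have hpath := gab_path (X := C) (d := s / G.a * G.a ^ (w i).2)
      (L := 3 * G.R * G.a * G.a ^ (w i).2) (rho := r2 * G.a ^ (w i).2) (w i).1
      (by positivity) (by positivity) ?_ (G.mS s) (w i) (w (i + 1)) (hwC i) (hwC _) ?_ (hdist i) ?_
    · refine Relation.ReflTransGen.mono ?_ _ _ hpath
      rintro u v ⟨h1, h2, h3⟩
      have hgen : ∀ x : Pt, ‖x.1 - (w i).1‖ ≤ r2 * G.a ^ (w i).2 → ‖x.1‖ ≤ 4 * ‖y.1‖ := by
        intro x hx
        have b1 := norm_sub_norm_le x.1 (w i).1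
        have b2 := hw4 i
        have b3 := hw2 i
        have b4 : r2 * G.a ^ (w i).2 ≤ ‖(w i).1‖ := by
          have : 0 ≤ 2 * G.R * G.a ^ (w i).2 := by positivity
          linarith
        linarith
      exact ⟨h1, hgen u h2, hgen v h3⟩
    · intro u hu hub x hx hxu
      have h1 := hC.sep hS hr1 hu hx hxu
      have hnear : ‖u.1 - (w i).1‖ ≤ r2 * max (G.a ^ u.2) (G.a ^ (w i).2) := by
        refine hub.trans ?_
        exact mul_le_mul_of_nonneg_left (le_max_right _ _) hr20.le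
      have hl := (hC2.g6 _ hu _ (hwC i) hnear).1
      have h2 : G.a ^ (w i).2 ≤ G.a * G.a ^ u.2 := G.zpow_le_succ (by rw [abs_le] at hl; omega)
      refine le_trans ?_ h1
      rw [div_mul_eq_mul_div, div_le_iff₀ ha0]
      nlinarith
    · have b1 := pow_le_pow_left₀ (norm_nonneg _) (hdist i) 2
      refine lt_of_le_of_lt b1 ?_
      have b2 := Nat.lt_floor_add_one (9 * G.R ^ 2 * G.a ^ 4 / s ^ 2)
      rw [div_lt_iff₀ (by positivity)] at b2
      have b3 : (s / G.a * G.a ^ (w i).2) ^ 2 = s ^ 2 * ((G.a ^ (w i).2) ^ 2 / G.a ^ 2) := by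
        field_simp
      have b4 : (3 * G.R * G.a * G.a ^ (w i).2) ^ 2
          = (9 * G.R ^ 2 * G.a ^ 4) * ((G.a ^ (w i).2) ^ 2 / G.a ^ 2) := by
        field_simp
        ring
      rw [b3, b4, ← mul_assoc]
      refine mul_lt_mul_of_pos_right b2 (by positivity)
    · rw [sub_self, norm_zero, zero_add]
      have := mul_le_mul_of_nonneg_right hr2m hai.le
      linarith
  have key2 : ∀ i, Relation.ReflTransGen (fun u v => Adj C u v ∧ ‖u.1‖ ≤ 4 * ‖y.1‖ ∧ ‖v.1‖ ≤ 4 * ‖y.1‖)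
      (w 0) (w i) := by
    intro i
    induction i with
    | zero => exact Relation.ReflTransGen.refl
    | succ i ih => exact ih.trans (key i)
  have := key2 P
  rwa [hw0 0 rfl, hwP P rfl] at this

def central (C : Cfg) : Set Pt :=
  {p | p ∈ C ∧ ‖p.1‖ ≤ 4 ∧ ∃ y ∈ C, ‖y.1‖ ≤ 1 ∧
    Relation.ReflTransGen (fun u v => Adj C u v ∧ ‖u.1‖ ≤ 4 ∧ ‖v.1‖ ≤ 4) p y}

/-- scaling a path inwards -/
lemma Good.path_sh (hC : G.Good r C A A') {p q : Pt}
    (hpq : Relation.ReflTransGen (fun u v => Adj C u v ∧ ‖u.1‖ ≤ 4 ∧ ‖v.1‖ ≤ 4) p q) :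
    Relation.ReflTransGen (fun u v => Adj C u v ∧ ‖u.1‖ ≤ 4 ∧ ‖v.1‖ ≤ 4) (sh G.lam (-1) p)
      (sh G.lam (-1) q) := by
  have hle : ∀ u : Pt, ‖(sh G.lam (-1) u).1‖ ≤ ‖u.1‖ := by
    intro u
    rw [sh_norm, zpow_neg_one]
    have h1 : (G.a)⁻¹ ≤ 1 := inv_le_one_of_one_le₀ G.a1.le
    have := norm_nonneg u.1
    nlinarith
  induction hpq with
  | refl => exact Relation.ReflTransGen.refl
  | tail _ hbc ih =>
    exact ih.tail ⟨hC.adj_sh (-1) hbc.1, (hle _).trans hbc.2.1, (hle _).trans hbc.2.2⟩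

theorem central_props (hS : SepC G r s h) (hr1 : 1 ≤ r) (hr4 : 40 * (G.R + 1) * G.a ≤ r)
    (hC : G.Good r C A A') (hC2 : G.Good r2 C A2 A2') (hr2 : G.K1 s ≤ r2) (hA2 : r2 ≤ A2) :
    central C ⊆ C ∧ (∀ p, sh G.lam 1 p ∈ central C → p ∈ central C) ∧
    (∀ p ∈ C, ∃ j : ℤ, sh G.lam j p ∉ central C) ∧
    (∀ p ∈ C, ∃ j : ℤ, sh G.lam j p ∈ central C) ∧ (central C).Nonempty ∧
    (∃ B : ℝ, ∀ p ∈ central C, ‖p.1‖ ≤ B) ∧
    (∀ p ∈ central C, ∃ A : Set Pt, A.Finite ∧ A.Nonempty ∧ A ⊆ central C ∧ p ∈ A ∧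
      sh G.lam (-1) p ∈ A ∧ ∀ u ∈ A, ∀ v ∈ A,
        Relation.ReflTransGen (fun x y => Adj C x y ∧ x ∈ A ∧ y ∈ A) u v) := by
  have hR := G.hR
  have ha1 := G.a1
  have ha0 := G.a0
  have hs0 := hS.s0
  have hK1 : 0 < G.K1 s := by unfold K1; positivity
  have hpos : ∀ p ∈ C, 0 < ‖p.1‖ := by
    intro p hp
    have h1 := hC2.g4 p hp
    have h2 : 0 < (A2 + 2 * G.R) * G.a ^ p.2 := mul_pos (by linarith) (G.ap _)
    linarith
  have hle : ∀ u : Pt, ‖(sh G.lam (-1) u).1‖ ≤ ‖u.1‖ := by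
    intro u
    rw [sh_norm, zpow_neg_one]
    have h1 : (G.a)⁻¹ ≤ 1 := inv_le_one_of_one_le₀ ha1.le
    have := norm_nonneg u.1
    nlinarith
  have hb : ∀ p, sh G.lam 1 p ∈ central C → p ∈ central C := by
    rintro p ⟨h1, h2, y, hy, hy1, hpath⟩
    have e : sh G.lam (-1) (sh G.lam 1 p) = p := sh_cancel' G 1 p
    have h3 := hC.path_sh hpath
    rw [e] at h3
    refine ⟨(hC.g1 p).2 h1, ?_, sh G.lam (-1) y, (hC.sh_mem y).1 hy, (hle y).trans hy1, h3⟩
    have := hle (sh G.lam 1 p)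
    rw [e] at this
    exact this.trans h2
  have hd : ∀ p ∈ C, ∃ j : ℤ, sh G.lam j p ∈ central C := by
    intro p hp
    obtain ⟨n, hn⟩ := pow_unbounded_of_one_lt ‖p.1‖ ha1
    refine ⟨-(n : ℤ), ?_⟩
    have h1 : ‖(sh G.lam (-(n : ℤ)) p).1‖ ≤ 1 := by
      rw [sh_norm, zpow_neg, zpow_natCast, inv_mul_le_iff₀ (by positivity), mul_one]
      exact hn.le
    have hm := (hC.sh_all (-(n : ℤ)) p).1 hp
    exact ⟨hm, by linarith, _, hm, h1, Relation.ReflTransGen.refl⟩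
  refine ⟨fun p hp => hp.1, hb, ?_, hd, ?_, ⟨4, fun p hp => hp.2.1⟩, ?_⟩
  · intro p hp
    obtain ⟨n, hn⟩ := pow_unbounded_of_one_lt (4 / ‖p.1‖) ha1
    refine ⟨(n : ℤ), ?_⟩
    rintro ⟨_, h2, _⟩
    rw [sh_norm, zpow_natCast] at h2
    rw [div_lt_iff₀ (hpos p hp)] at hn
    linarith
  · obtain ⟨p, hp, _⟩ := hC.g5 1 one_ne_zero
    obtain ⟨j, hj⟩ := hd p hp
    exact ⟨_, hj⟩
  · intro p hpc
    obtain ⟨hp, hp4, y, hy, hy1, hpath⟩ := hpc
    have hsymm : ∀ u v : Pt, (Adj C u v ∧ ‖u.1‖ ≤ 4 ∧ ‖v.1‖ ≤ 4) →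
        (Adj C v u ∧ ‖v.1‖ ≤ 4 ∧ ‖u.1‖ ≤ 4) := fun u v ⟨h1, h2, h3⟩ => ⟨h1.symm, h3, h2⟩
    have hsp := spiral hS hr1 hr4 hC hC2 hr2 hA2 y hy
    have hsp' : Relation.ReflTransGen (fun u v => Adj C u v ∧ ‖u.1‖ ≤ 4 ∧ ‖v.1‖ ≤ 4) y
        (sh G.lam (-1) y) := by
      refine Relation.ReflTransGen.mono ?_ _ _ hsp
      rintro u v ⟨h1, h2, h3⟩
      exact ⟨h1, by linarith, by linarith⟩
    have hback := rtg_symm _ hsymm (hC.path_sh hpath)
    have hfull := (hpath.trans hsp').trans hback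
    obtain ⟨B, hBf, hpB, hqB, hreach, hconn⟩ := path_finite _ hsymm hfull
    refine ⟨B, hBf, ⟨p, hpB⟩, ?_, hpB, hqB, ?_⟩
    · intro u hu
      have h1 := hreach u hu
      have h2 := rtg_symm _ hsymm h1
      have h3 : u ∈ C ∧ ‖u.1‖ ≤ 4 := by
        rcases Relation.ReflTransGen.cases_tail h1 with h4 | ⟨c, _, h5⟩
        · rw [h4]; exact ⟨hp, hp4⟩
        · exact ⟨h5.1.2.1, h5.2.2⟩
      exact ⟨h3.1, h3.2, y, hy, hy1, h2.trans hpath⟩
    · intro u hu v hv
      refine Relation.ReflTransGen.mono ?_ _ _ (hconn u hu v hv)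
      rintro x x' ⟨h1, h2, h3⟩
      exact ⟨h1.1, h2, h3⟩

end Alg
end Pool.Agent.H475R3
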