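import Pool.Agent.H475R3.Par6
import Pool.Agent.H475R3.Init
import Pool.Agent.H475R3.Spiral

set_option autoImplicit false
open Set Filter Topology

namespace Pool.Agent.H475R3
namespace Alg
open TS (sh)
variable {W : Type} [NormedAddCommGroup W] [NormedSpace ℝ W] {G : Alg W}

structure Params (G : Alg W) where
  r : ℝ
  s : ℝ
  h : ℝ
  N : ℕ
  r0 : ℝ
  r2 : ℝ
  hS : SepC G r s h
  hb : Big G r N
  hb2 : G.Big2 r s h N
  hb3 : Big3 G s h N
  hbig : 4000 * (G.R + 1) * G.a ^ 4 ≤ r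
  hrR : 2 * G.R0 ≤ r
  e1 : r * G.a < r0 * (G.a - 1)
  e2 : r ≤ r0 - 2 * G.R
  e3 : 16 * G.R * G.a ≤ r0 - 2 * G.R
  f0 : 2 * G.R0 ≤ r2
  f1 : r2 * G.a < r0 * (G.a - 1)
  f2 : r2 ≤ r0 - 2 * G.R
  f3 : G.K1 s ≤ r2

lemma ev_large (G : Alg W) (x y : ℝ) (hy : 0 < y) : ∀ᶠ N : ℕ in atTop, x ≤ y * G.a ^ N := by
  have h : Tendsto (fun N : ℕ => y * G.a ^ N) atTop atTop :=
    (tendsto_pow_atTop_atTop_of_one_lt G.a1).const_mul_atTop hy
  exact h.eventually_ge_atTop x

lemma exists_params (G : Alg W) : Nonempty (Params G) := by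
  have hR := G.hR
  have ha1 := G.a1
  have ha0 := G.a0
  have hR0 := G.hR0
  have hRa : 0 < G.R * G.a := mul_pos hR ha0
  obtain ⟨r, hr⟩ : ∃ r : ℝ, r = 40 * (G.R + 1) * G.a + 1 + 2 * G.R0 + G.R0 / G.a + 4000 * (G.R + 1) * G.a ^ 4 :=
    ⟨_, rfl⟩
  have p1 : 0 < 40 * (G.R + 1) * G.a := by positivity
  have p2 : 0 < G.R0 / G.a := by positivity
  have p3 : 0 < 4000 * (G.R + 1) * G.a ^ 4 := by positivity
  have hrR0 : G.R0 ≤ r * G.a := by
    have : G.R0 / G.a ≤ r := by rw [hr]; linarith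
    rwa [div_le_iff₀ ha0] at this
  obtain ⟨s0, h, hS0⟩ := exists_SepC G r
  set s := min s0 (G.R * G.a) with hs
  have hS : SepC G r s h := by
    refine ⟨lt_min hS0.s0 hRa, (min_le_left _ _).trans hS0.s1, fun v hv hv0 => ?_, hS0.h0, hS0.hh⟩
    exact (min_le_left _ _).trans (hS0.hs v hv hv0)
  have hs0 := hS.s0
  have hh0 := hS.h0
  have hsR : s ≤ G.R * G.a := min_le_right _ _
  have hev : ∀ᶠ N : ℕ in atTop, Big G r N ∧ G.Big2 r s h N ∧ Big3 G s h N := by
    have hN2 : ∀ᶠ N : ℕ in atTop,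
        2 * (G.DDc r).card * (r * G.a) * (G.rho ^ N * G.K) ≤ G.R * G.a ^ N := by
      have h0 : Tendsto (fun N : ℕ => (2 * (G.DDc r).card * (r * G.a) * G.K) * (G.rho / G.a) ^ N) atTop
          (𝓝 ((2 * (G.DDc r).card * (r * G.a) * G.K) * 0)) :=
        (tendsto_pow_atTop_nhds_zero_of_lt_one (div_nonneg G.hrho0 ha0.le)
          ((div_lt_one ha0).2 G.hrho)).const_mul _
      rw [mul_zero] at h0
      filter_upwards [h0.eventually_le_const hR] with N hN
      have haN : 0 < G.a ^ N := pow_pos ha0 N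
      have := mul_le_mul_of_nonneg_right hN haN.le
      rw [div_pow] at this
      have e : 2 * ((G.DDc r).card : ℝ) * (r * G.a) * G.K * (G.rho ^ N / G.a ^ N) * G.a ^ N
          = 2 * (G.DDc r).card * (r * G.a) * (G.rho ^ N * G.K) := by field_simp
      rw [e] at this
      exact this
    filter_upwards [hN2, ev_large G r 1 one_pos, ev_large G 2 1 one_pos,
      ev_large G 1 (G.R * G.a) hRa, ev_large G (G.ct s) (G.R * G.a) hRa,
      ev_large G (2 * (G.k2 s + 2 * G.eta)) s hs0, ev_large G (G.c4 s) 1 one_pos,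
      ev_large G ((G.MM s + 1) * (G.c5 s + G.e1)) (G.R * G.a) hRa,
      ev_large G (200 * (G.R * G.a) * (2 * G.MM s * G.e1 + 2 * G.ct s + 2 * G.eta)) h hh0,
      ev_large G (4 * (2 * G.MM s * G.e1 + 2 * G.ct s + 2 * G.eta)) s hs0,
      ev_large G (100 * (G.R * G.a ^ 2) * G.Dl s) h hh0,
      ev_large G (8 * G.a * G.Dl s) s hs0,
      ev_large G (100 * (G.R * G.a ^ 4)) s hs0,
      ev_large G (2 * G.a) 1 one_pos, eventually_ge_atTop 3] with N h1 h2 h3 h4 h5 h6 h7 h8 h9 h10 h11 h12 h13 h14 h15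
    rw [one_mul] at h2 h3 h7 h14
    refine ⟨⟨by rw [hr]; linarith, by rw [hr]; linarith, hrR0, h2, h3, h1⟩,
      ⟨h4, h5, h6, h7, h8, h9, h10⟩, ⟨h11, h12, hsR, h13, h14, h15⟩⟩
  obtain ⟨N, hb, hb2, hb3⟩ := hev.exists
  have ha10 : 0 < G.a - 1 := by linarith
  obtain ⟨r2, hr2⟩ : ∃ r2 : ℝ, r2 = max (G.K1 s) (2 * G.R0) := ⟨_, rfl⟩
  obtain ⟨r0, hr0⟩ : ∃ r0 : ℝ, r0 = |r| * G.a / (G.a - 1) + |r2| * G.a / (G.a - 1) + |r| + |r2| +
      2 * G.R + 16 * G.R * G.a + 1 := ⟨_, rfl⟩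
  have q1 : 0 ≤ |r| * G.a / (G.a - 1) := by positivity
  have q2 : 0 ≤ |r2| * G.a / (G.a - 1) := by positivity
  have q3 := abs_nonneg r
  have q4 := abs_nonneg r2
  have q5 := le_abs_self r
  have q6 := le_abs_self r2
  have q7 : 0 < 16 * G.R * G.a := by positivity
  have g1 : r * G.a < r0 * (G.a - 1) := by
    have h1 : |r| * G.a / (G.a - 1) < r0 := by rw [hr0]; linarith
    rw [div_lt_iff₀ ha10] at h1
    nlinarith
  have g2 : r2 * G.a < r0 * (G.a - 1) := by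
    have h1 : |r2| * G.a / (G.a - 1) < r0 := by rw [hr0]; linarith
    rw [div_lt_iff₀ ha10] at h1
    nlinarith
  exact ⟨⟨r, s, h, N, r0, r2, hS, hb, hb2, hb3, by rw [hr]; linarith, by rw [hr]; linarith, g1,
    by rw [hr0]; linarith, by rw [hr0]; linarith, by rw [hr2]; exact le_max_right _ _, g2,
    by rw [hr0]; linarith, by rw [hr2]; exact le_max_left _ _⟩⟩

namespace Params
variable (P : Params G)

def cs : ℕ → Cfg
  | 0 => G.init P.r0
  | n + 1 => G.next P.N (cs n)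

noncomputable def An (n : ℕ) : ℝ := (P.r0 - 2 * G.R) * (G.a ^ P.N) ^ n
noncomputable def An' (n : ℕ) : ℝ := (P.r0 * G.a + 2 * G.R) * (G.a ^ P.N) ^ n

lemma aN1 : 1 ≤ G.a ^ P.N := one_le_pow₀ G.a1.le

lemma An_ge (n : ℕ) : P.r0 - 2 * G.R ≤ P.An n := by
  have h1 : 1 ≤ (G.a ^ P.N) ^ n := one_le_pow₀ P.aN1
  have h2 := P.e2
  have h3 := P.hb.hr1
  unfold An
  nlinarith

lemma r_le_An (n : ℕ) : P.r ≤ P.An n := P.e2.trans (P.An_ge n)

lemma An_nonneg (n : ℕ) : 0 ≤ P.An n := by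
  have := P.r_le_An n; have := P.hb.hr1; linarith

lemma good (n : ℕ) : G.Good P.r (P.cs n) (P.An n) (P.An' n) := by
  induction n with
  | zero =>
    have := init_good (G := G) P.r P.r0 P.hrR P.e1
    simpa [cs, An, An'] using this
  | succ n ih =>
    have := good_next P.hb (P.An_nonneg n) ih
    have e1 : P.An (n + 1) = P.An n * G.a ^ P.N := by unfold An; ring
    have e2 : P.An' (n + 1) = P.An' n * G.a ^ P.N := by unfold An'; ring
    rw [e1, e2]
    exact this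

lemma par_unit {n : ℕ} {q p : Pt} (h : PP G P.N (P.cs n) (G.MM P.s) q p) :
    G.a ^ q.2 ≤ G.a * G.fu P.N p :=
  fine_unit_le (PP_label P.hS P.hb P.hb2 (P.An_nonneg n) (P.good n) _ le_rfl q p h)

/-- the tile system -/
noncomputable def toTS : TS where
  a := G.a
  ha := G.a1
  P := P.cs
  Par := fun n => PP G P.N (P.cs n) (G.MM P.s)
  Adj := fun n => Adj (P.cs n)
  E := 8 * G.R * G.a
  c := P.s / 8
  hE := by have := G.hR; have := G.a0; positivity
  hc := by have := P.hS.s0; positivity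
  hpar1 := fun n q p h => PP_next _ q p h
  hpar2 := fun n q p h => PP_C _ q p h
  hex := fun n q hq => PP_total P.hS P.hb P.hb2 (P.r_le_An n) (P.good n) P.hb3.c3 q hq
  huniq := fun n q p p' h1 h2 => PP_unique P.hb P.hb2 (P.An_nonneg n) (P.good n) _ q p p' h1 h2
  hchild := fun n p hp => PP_exists P.hS P.hb P.hb2 (P.r_le_An n) (P.good n) P.hb3.c3 hp _
  hnest := fun n q p h => by
    have hR := G.hR
    have ha0 := G.a0
    have h1 := PP_dist P.hS P.hb P.hb2 (P.An_nonneg n) (P.good n) _ le_rfl q p h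
    have h2 := mul_le_mul_of_nonneg_left (P.par_unit h) (by positivity : 0 ≤ 8 * G.R * G.a)
    have h3 := mul_le_mul_of_nonneg_right P.hb3.c5 (G.fu_pos P.N p).le
    rw [← G.fu_mul] at h3
    have h4 := mul_le_mul_of_nonneg_left h3 (by positivity : 0 ≤ 4 * G.R * G.a)
    linarith
  hdrop := fun n q p h => by
    have h1 := PP_label P.hS P.hb P.hb2 (P.An_nonneg n) (P.good n) _ le_rfl q p h
    have h2 := P.hb3.c6
    rw [abs_le] at h1
    omega
  hfin := fun n p => PP_fin P.hS P.hb P.hb2 (P.An_nonneg n) (P.good n) p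
  hsep := fun n p q p' hp h hd => by
    have hR := G.hR
    have ha0 := G.a0
    have ha1 := G.a1
    have hs0 := P.hS.s0
    have hbr := P.hb.hr
    have hs1 := P.hS.s1
    have hC := P.good n
    have h1 := PP_dist P.hS P.hb P.hb2 (P.An_nonneg n) hC _ le_rfl q p' h
    have hp' := PP_C _ q p' h
    have h2 := mul_le_mul_of_nonneg_left (P.par_unit h) (by positivity : 0 ≤ 8 * G.R * G.a)
    have h3 := mul_le_mul_of_nonneg_right P.hb3.c4 (G.fu_pos P.N p').le
    have h4 : P.s * G.a ^ P.N * G.fu P.N p' = P.s * G.a ^ p'.2 := by rw [G.fu_mul P.N p']; ring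
    rw [h4] at h3
    have ap := G.ap p.2
    have ap' := G.ap p'.2
    have hf' := G.fu_pos P.N p'
    -- E a^q.2 * a ≤ (s/8) a^p'.2
    have h5 : 8 * G.R * G.a * G.a ^ q.2 * G.a ≤ P.s / 8 * G.a ^ p'.2 := by
      have ha2 : G.a ^ 3 ≤ G.a ^ 4 := pow_le_pow_right₀ ha1.le (by norm_num)
      have h6 : 8 * G.R * G.a * (G.a * G.fu P.N p') * G.a ≤ 8 * (G.R * G.a ^ 4) * G.fu P.N p' := by
        have := mul_le_mul_of_nonneg_left ha2 (by positivity : 0 ≤ 8 * G.R * G.fu P.N p')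
        nlinarith
      have h7 := mul_le_mul_of_nonneg_right h2 ha0.le
      have h8 : 0 < G.R * G.a ^ 4 * G.fu P.N p' := by positivity
      nlinarith
    have h6 : 8 * G.R * G.a * G.a ^ q.2 ≤ P.s / 8 * G.a ^ p'.2 := by
      have : 0 < 8 * G.R * G.a * G.a ^ q.2 := by have := G.ap q.2; positivity
      nlinarith
    have hmax : ‖p.1 - p'.1‖ ≤ P.r * max (G.a ^ p.2) (G.a ^ p'.2) := by
      have m1 : G.a ^ p.2 ≤ max (G.a ^ p.2) (G.a ^ p'.2) := le_max_left _ _
      have m2 : G.a ^ p'.2 ≤ max (G.a ^ p.2) (G.a ^ p'.2) := le_max_right _ _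
      have h7 := norm_sub_le_norm_sub_add_norm_sub p.1 q.1 p'.1
      rw [norm_sub_rev p.1 q.1] at h7
      have hmp : 0 < max (G.a ^ p.2) (G.a ^ p'.2) := lt_max_of_lt_left ap
      have h8 : ‖p.1 - p'.1‖ ≤ (P.s / 8 + P.s / 8 + 4 * G.R * G.a) * max (G.a ^ p.2) (G.a ^ p'.2) := by
        have t1 := mul_le_mul_of_nonneg_left m1 (by positivity : 0 ≤ P.s / 8)
        have t2 := mul_le_mul_of_nonneg_left m2 (by positivity : 0 ≤ P.s / 8)
        have t3 := mul_le_mul_of_nonneg_left m2 (by positivity : 0 ≤ 4 * G.R * G.a)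
        linarith
      refine h8.trans (mul_le_mul_of_nonneg_right ?_ hmp.le)
      nlinarith
    have hl := (hC.g6 p hp p' hp' hmax).1
    have h7 : G.a ^ p'.2 ≤ G.a * G.a ^ p.2 := G.zpow_le_succ (by rw [abs_le] at hl; omega)
    have h8 : 8 * G.R * G.a * G.a ^ q.2 ≤ P.s / 8 * G.a ^ p.2 := by
      have h9 := mul_le_mul_of_nonneg_left h7 (by positivity : 0 ≤ P.s / 8)
      have h10 : 8 * G.R * G.a * G.a ^ q.2 * G.a ≤ P.s / 8 * G.a ^ p.2 * G.a := by linarith
      exact le_of_mul_le_mul_right h10 ha0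
    have h9 := near_PP P.hS P.hb P.hb2 (P.r_le_An n) hC P.hb3.c3 hp q (PP_next _ q p' h) (by linarith) (G.MM P.s)
    exact PP_unique P.hb P.hb2 (P.An_nonneg n) hC _ q p' p h h9
  hcov := fun n z hz => by
    have hR := G.hR
    have ha1 := G.a1
    obtain ⟨p, hp, hd⟩ := (P.good n).g5 z hz
    refine ⟨p, hp, hd.trans (mul_le_mul_of_nonneg_right ?_ (G.ap _).le)⟩
    nlinarith
  hloc := fun n z hz => by
    have hR := G.hR
    have ha1 := G.a1
    have hbr := P.hb.hr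
    obtain ⟨x, hx, hd⟩ := (P.good n).g5 z hz
    refine ⟨G.a ^ x.2, G.ap _, ((P.good n).near_finite (by linarith [P.hb.hr1]) hx).subset ?_⟩
    rintro p ⟨hp, z', hz1, hz2⟩
    refine ⟨hp, ?_⟩
    have e : x.1 - p.1 = -(z - x.1) + -(z' - z) + (z' - p.1) := by ring
    have h1 : ‖x.1 - p.1‖ ≤ ‖z - x.1‖ + ‖z' - z‖ + ‖z' - p.1‖ := by
      rw [e]
      refine (norm_add₃_le).trans ?_
      rw [norm_neg, norm_neg]
    have m1 : G.a ^ x.2 ≤ max (G.a ^ x.2) (G.a ^ p.2) := le_max_left _ _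
    have m2 : G.a ^ p.2 ≤ max (G.a ^ x.2) (G.a ^ p.2) := le_max_right _ _
    have hmp : 0 < max (G.a ^ x.2) (G.a ^ p.2) := lt_max_of_lt_left (G.ap _)
    have h2 : ‖x.1 - p.1‖ ≤ (G.R + 1 + 8 * G.R * G.a) * max (G.a ^ x.2) (G.a ^ p.2) := by
      have ha0 := G.a0
      have t1 := mul_le_mul_of_nonneg_left m1 (by positivity : 0 ≤ G.R + 1)
      have t2 := mul_le_mul_of_nonneg_left m2 (by positivity : 0 ≤ 8 * G.R * G.a)
      linarith
    refine h2.trans (mul_le_mul_of_nonneg_right ?_ hmp.le)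
    nlinarith
  hsmall := fun n p hp => by
    have hR := G.hR
    have ha1 := G.a1
    have hbr := P.hb.hr
    refine lt_of_lt_of_le (mul_lt_mul_of_pos_right ?_ (G.ap _)) ((P.good n).g4 p hp)
    have := P.r_le_An n
    nlinarith
  hcE := by
    have := P.hb3.c3
    have hR := G.hR
    have ha0 := G.a0
    have : 0 < G.R * G.a := by positivity
    linarith
  hconn := fun n p q q' h h' => PP_conn P.hS P.hb P.hb2 (P.r_le_An n) (P.good n) P.hb3.c3 _ q q' h h'
  hlink := fun n p p' h => PP_link P.hS P.hb P.hb2 P.hb3 (P.r_le_An n) (P.good n) h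
  hadj := fun n p q h => by
    have hR := G.hR
    have ha0 := G.a0
    have h1 := (P.good n).adj_len P.hb.hr4 h
    have h2 : 0 < G.R * G.a * G.a ^ p.2 := by have := G.ap p.2; positivity
    have h3 : 0 < G.R * G.a * G.a ^ q.2 := by have := G.ap q.2; positivity
    linarith
  hsymm := fun n p q h => h.symm

end Params
end Alg
end Pool.Agent.H475R3
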