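import Pool.Agent.H475R3.Par5

set_option autoImplicit false
open Set

namespace Pool.Agent.H475R3
namespace Alg
open TS (sh)
variable {W : Type} [NormedAddCommGroup W] [NormedSpace ℝ W] {G : Alg W}

/-- the pattern of `C` around `p` -/
def patch (G : Alg W) (ρ : ℝ) (C : Cfg) (p : Pt) : Set Pt :=
  {d | ∃ x ∈ C, ‖x.1 - p.1‖ ≤ ρ * G.a ^ p.2 ∧ d = G.code p x}

lemma gm_inv_left (G : Alg W) (j : ℤ) (b : ℂ) (p : Pt) :
    G.gm (-j) (-(G.lam ^ (-j) * b)) (G.gm j b p) = p := by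
  have h : G.lam ^ (-j) * G.lam ^ j = 1 := by rw [← zpow_add₀ G.lam0]; simp
  ext
  · simp only [gm]
    rw [mul_add, ← mul_assoc, h]; ring
  · simp only [gm]; omega

lemma gm_inv_right (G : Alg W) (j : ℤ) (b : ℂ) (p : Pt) :
    G.gm j b (G.gm (-j) (-(G.lam ^ (-j) * b)) p) = p := by
  have h : G.lam ^ j * G.lam ^ (-j) = 1 := by rw [← zpow_add₀ G.lam0]; simp
  ext
  · simp only [gm]
    have : G.lam ^ j * (G.lam ^ (-j) * p.1 + -(G.lam ^ (-j) * b)) + b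
        = (G.lam ^ j * G.lam ^ (-j)) * p.1 - (G.lam ^ j * G.lam ^ (-j)) * b + b := by ring
    rw [this, h]; ring
  · simp only [gm]; omega

lemma gm_ball (G : Alg W) (j : ℤ) (b : ℂ) (κ : ℝ) (x p : Pt) :
    ‖(G.gm j b x).1 - (G.gm j b p).1‖ ≤ κ * G.a ^ (G.gm j b p).2 ↔ ‖x.1 - p.1‖ ≤ κ * G.a ^ p.2 := by
  rw [gm_norm]
  have e : κ * G.a ^ (G.gm j b p).2 = G.a ^ j * (κ * G.a ^ p.2) := by
    simp only [gm, ap_add]; ring
  rw [e]
  exact mul_le_mul_iff_right₀ (G.ap j)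

lemma gm_code (G : Alg W) (j : ℤ) (b : ℂ) (p x : Pt) :
    G.code (G.gm j b p) (G.gm j b x) = G.code p x := by
  simp only [code, gm, Prod.mk.injEq]
  refine ⟨?_, by omega⟩
  have : G.lam ^ (-p.2) = G.lam ^ (-(p.2 + j)) * G.lam ^ j := by
    rw [← zpow_add₀ G.lam0]; congr 1; ring
  rw [this]; ring

lemma gm_dir (G : Alg W) (j : ℤ) (b : ℂ) (q x : Pt) :
    G.lam ^ (-(G.gm j b q).2) * ((G.gm j b x).1 - (G.gm j b q).1) = G.lam ^ (-q.2) * (x.1 - q.1) := by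
  simp only [gm]
  have : G.lam ^ (-q.2) = G.lam ^ (-(q.2 + j)) * G.lam ^ j := by
    rw [← zpow_add₀ G.lam0]; congr 1; ring
  rw [this]; ring

lemma gm_fu (G : Alg W) (j : ℤ) (b : ℂ) (N : ℕ) (p : Pt) : G.fu N (G.gm j b p) = G.a ^ j * G.fu N p := by
  simp only [fu, gm]
  rw [← zpow_add₀ (ne_of_gt G.a0)]; congr 1; ring

lemma gm_gg (G : Alg W) (j : ℤ) (b : ℂ) (p x q : Pt) :
    gg (G.gm j b p).1 (G.gm j b x).1 (G.gm j b q).1 = (G.a ^ j) ^ 2 * gg p.1 x.1 q.1 := by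
  unfold gg
  rw [gm_norm, gm_norm]; ring

/-- two configurations agree near `p` up to the similarity -/
def Loc (G : Alg W) (κ : ℝ) (j : ℤ) (b : ℂ) (X X2 : Cfg) (p : Pt) : Prop :=
  ∀ x : Pt, ‖x.1 - p.1‖ ≤ κ * G.a ^ p.2 → (x ∈ X ↔ G.gm j b x ∈ X2)

lemma Loc.symm {κ : ℝ} {j : ℤ} {b : ℂ} {X X2 : Cfg} {p p2 : Pt} (h : Loc G κ j b X X2 p)
    (e : G.gm j b p = p2) : Loc G κ (-j) (-(G.lam ^ (-j) * b)) X2 X p2 := by
  intro x hx
  have h1 : ‖(G.gm (-j) (-(G.lam ^ (-j) * b)) x).1 - p.1‖ ≤ κ * G.a ^ p.2 := by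
    rw [← G.gm_ball j b κ, gm_inv_right, e]
    exact hx
  have h2 := h _ h1
  rw [gm_inv_right] at h2
  exact h2.symm

lemma Loc.mono {κ κ' : ℝ} {j : ℤ} {b : ℂ} {X X2 : Cfg} {p : Pt} (h : Loc G κ j b X X2 p)
    (hk : κ' ≤ κ) : Loc G κ' j b X X2 p := fun x hx =>
  h x (hx.trans (mul_le_mul_of_nonneg_right hk (G.ap _).le))

/-- labels near a point -/
lemma lab_near {r A A' : ℝ} {C : Cfg} (hC : G.Good r C A A') {p y : Pt} (hp : p ∈ C) (hy : y ∈ C)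
    (z : ℂ) (κ c : ℝ) (hκ : 0 ≤ κ) (hc : 0 ≤ c) (hκc : κ + c ≤ r) (h1 : ‖z - p.1‖ ≤ κ * G.a ^ p.2)
    (h2 : ‖z - y.1‖ ≤ c * G.a ^ y.2) :
    |p.2 - y.2| ≤ 1 ∧ G.a ^ y.2 ≤ G.a * G.a ^ p.2 ∧ ‖y.1 - p.1‖ ≤ (κ + c * G.a) * G.a ^ p.2 := by
  have hm1 : G.a ^ p.2 ≤ max (G.a ^ p.2) (G.a ^ y.2) := le_max_left _ _
  have hm2 : G.a ^ y.2 ≤ max (G.a ^ p.2) (G.a ^ y.2) := le_max_right _ _
  have hm0 : 0 < max (G.a ^ p.2) (G.a ^ y.2) := lt_max_of_lt_left (G.ap _)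
  have h3 : ‖y.1 - p.1‖ ≤ κ * G.a ^ p.2 + c * G.a ^ y.2 := by
    have := norm_sub_le_norm_sub_add_norm_sub y.1 z p.1
    rw [norm_sub_rev y.1 z] at this
    linarith
  have hnear : ‖p.1 - y.1‖ ≤ r * max (G.a ^ p.2) (G.a ^ y.2) := by
    rw [norm_sub_rev]
    have := mul_le_mul_of_nonneg_left hm1 hκ
    have := mul_le_mul_of_nonneg_left hm2 hc
    have := mul_le_mul_of_nonneg_right hκc hm0.le
    linarith
  have hl := (hC.g6 p hp y hy hnear).1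
  have h5 : G.a ^ y.2 ≤ G.a * G.a ^ p.2 := G.zpow_le_succ (by rw [abs_le] at hl; omega)
  refine ⟨hl, h5, ?_⟩
  have := mul_le_mul_of_nonneg_left h5 hc
  linarith

/-- one direction of locality of the refinement -/
lemma next_one {r A A' A2 A2' κ : ℝ} {C C2 : Cfg} {N : ℕ} {j : ℤ} {b : ℂ} {p p2 : Pt}
    (hκ : 0 ≤ κ) (hκr : κ + 2 * G.R * G.a ≤ r / 4) (hC : G.Good r C A A') (hC2 : G.Good r C2 A2 A2')
    (hp : p ∈ C) (hp2 : p2 ∈ C2) (e : G.gm j b p = p2) (hL : Loc G (r / 4) j b C C2 p) (x : Pt)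
    (hx : ‖x.1 - p.1‖ ≤ κ * G.a ^ p.2) (hxN : x ∈ G.next N C) : G.gm j b x ∈ G.next N C2 := by
  have hR := G.hR
  have ha1 := G.a1
  have hRa : 0 < G.R * G.a := mul_pos hR G.a0
  have hRR : G.R ≤ G.R * G.a := by nlinarith
  have hr0 : κ + 2 * G.R ≤ r := by linarith
  have hx2 : ‖(G.gm j b x).1 - p2.1‖ ≤ κ * G.a ^ p2.2 := by
    rw [← e, G.gm_ball]; exact hx
  refine next_fwd N C C2 j b x hC.g0 hC2.g0 ?_ ?_ hxN
  · intro y hy hd
    have h1 := (lab_near hC hp hy x.1 κ (2 * G.R) hκ (by linarith) hr0 hx hd.le).2.2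
    refine (hL y (h1.trans (mul_le_mul_of_nonneg_right ?_ (G.ap _).le))).1 hy
    linarith
  · intro y2 hy2 hd
    have h1 := (lab_near hC2 hp2 hy2 (G.gm j b x).1 κ (2 * G.R) hκ (by linarith) hr0 hx2 hd.le).2.2
    have h2 : ‖y2.1 - p2.1‖ ≤ r / 4 * G.a ^ p2.2 :=
      h1.trans (mul_le_mul_of_nonneg_right (by linarith) (G.ap _).le)
    exact ⟨_, (hL.symm e y2 h2).1 hy2, G.gm_inv_right j b y2⟩

/-- the symmetric relation between two configurations -/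
structure Sim (G : Alg W) (r : ℝ) (N : ℕ) (κ : ℝ) (j : ℤ) (b : ℂ) (C C2 : Cfg) (p p2 : Pt) : Prop where
  hp : p ∈ C
  hp2 : p2 ∈ C2
  e : G.gm j b p = p2
  g : ∃ A A', r ≤ A ∧ G.Good r C A A'
  g2 : ∃ A A', r ≤ A ∧ G.Good r C2 A A'
  c : Loc G κ j b C C2 p
  n : Loc G κ j b (G.next N C) (G.next N C2) p

variable {r κ s h : ℝ} {N : ℕ} {j : ℤ} {b : ℂ} {C C2 : Cfg} {p p2 : Pt}

lemma Sim.symm (S : Sim G r N κ j b C C2 p p2) :
    Sim G r N κ (-j) (-(G.lam ^ (-j) * b)) C2 C p2 p where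
  hp := S.hp2
  hp2 := S.hp
  e := by rw [← S.e, gm_inv_left]
  g := S.g2
  g2 := S.g
  c := S.c.symm S.e
  n := S.n.symm S.e

lemma Sim.adj (S : Sim G r N κ j b C C2 p p2) {u v : Pt}
    (hu : ‖u.1 - p.1‖ + ‖u.1 - v.1‖ ≤ κ * G.a ^ p.2) (hadj : Adj (G.next N C) u v) :
    Adj (G.next N C2) (G.gm j b u) (G.gm j b v) := by
  obtain ⟨hu1, hv1, hne, hall⟩ := hadj
  have n1 := norm_nonneg (u.1 - v.1)
  have hub : ‖u.1 - p.1‖ ≤ κ * G.a ^ p.2 := by linarith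
  have hvb : ‖v.1 - p.1‖ ≤ κ * G.a ^ p.2 := by
    have := norm_sub_le_norm_sub_add_norm_sub v.1 u.1 p.1
    rw [norm_sub_rev v.1 u.1] at this
    linarith
  refine ⟨(S.n u hub).1 hu1, (S.n v hvb).1 hv1, fun h => hne (G.gm_inj j b h), ?_⟩
  intro x2 hx2 hxu hxv
  obtain ⟨x, rfl⟩ : ∃ x, G.gm j b x = x2 := ⟨_, G.gm_inv_right j b x2⟩
  rw [gm_norm, gm_norm, gm_norm]
  have key : ‖u.1 - v.1‖ ^ 2 < ‖x.1 - u.1‖ ^ 2 + ‖x.1 - v.1‖ ^ 2 := by
    by_cases hcl : ‖x.1 - u.1‖ ≤ ‖u.1 - v.1‖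
    · have hxb : ‖x.1 - p.1‖ ≤ κ * G.a ^ p.2 := by
        have := norm_sub_le_norm_sub_add_norm_sub x.1 u.1 p.1
        linarith
      exact hall x ((S.n x hxb).2 hx2) (fun h => hxu (by rw [h])) (fun h => hxv (by rw [h]))
    · push Not at hcl
      have := pow_lt_pow_left₀ hcl n1 (two_ne_zero)
      nlinarith [sq_nonneg ‖x.1 - v.1‖]
  have hpos : 0 < (G.a ^ j) ^ 2 := by have := G.ap j; positivity
  nlinarith

lemma Sim.deep (S : Sim G r N κ j b C C2 p p2) {x q : Pt}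
    (hxp : ‖x.1 - p.1‖ + 8 * G.R * G.a * G.a ^ x.2 ≤ κ * G.a ^ p.2) (hq : q ∈ Deep G N C x) :
    G.gm j b q ∈ Deep G N C2 (G.gm j b x) := by
  obtain ⟨h1, h2, h3⟩ := hq
  have hRa : 0 < G.R * G.a * G.a ^ x.2 := mul_pos (mul_pos G.hR G.a0) (G.ap _)
  have hqb : ‖q.1 - p.1‖ ≤ κ * G.a ^ p.2 := by
    have := norm_sub_le_norm_sub_add_norm_sub q.1 x.1 p.1
    linarith
  refine ⟨(S.n q hqb).1 h1, (G.gm_ball j b _ q x).2 h2, ?_⟩
  intro y2 hy2 hyx hyd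
  obtain ⟨y, rfl⟩ : ∃ y, G.gm j b y = y2 := ⟨_, G.gm_inv_right j b y2⟩
  rw [G.gm_ball] at hyd
  have hyb : ‖y.1 - p.1‖ ≤ κ * G.a ^ p.2 := by
    have := norm_sub_le_norm_sub_add_norm_sub y.1 x.1 p.1
    linarith
  have h4 := h3 y ((S.c y hyb).2 hy2) (fun h => hyx (by rw [h])) hyd
  rw [gm_fu, gm_norm, gm_gg]
  have hpos : 0 < (G.a ^ j) ^ 2 := by have := G.ap j; positivity
  nlinarith

lemma Sim.core (S : Sim G r N κ j b C C2 p p2) {x q : Pt}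
    (hxp : ‖x.1 - p.1‖ + 9 * G.R * G.a * G.a ^ x.2 ≤ κ * G.a ^ p.2) (hq : q ∈ Core G N C x) :
    G.gm j b q ∈ Core G N C2 (G.gm j b x) := by
  have hRa : 0 < G.R * G.a * G.a ^ x.2 := mul_pos (mul_pos G.hR G.a0) (G.ap _)
  have hxp' : ‖x.1 - p.1‖ + 8 * G.R * G.a * G.a ^ x.2 ≤ κ * G.a ^ p.2 := by linarith
  obtain ⟨h1, q0, h0, hq0, hpath⟩ := hq
  refine ⟨S.deep hxp' h1, G.gm j b q0, S.deep hxp' h0, ?_, ?_⟩
  · rw [gm_norm, gm_fu]
    have := mul_le_mul_of_nonneg_left hq0 (G.ap j).le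
    linarith
  · refine Relation.ReflTransGen.lift (G.gm j b) ?_ _ _ hpath
    rintro u v ⟨e1, e2, e3⟩
    refine ⟨S.adj ?_ e1, S.deep hxp' e2, S.deep hxp' e3⟩
    have f1 := e2.2.1
    have f2 := e3.2.1
    have f3 := norm_sub_le_norm_sub_add_norm_sub u.1 x.1 p.1
    have f4 := norm_sub_le_norm_sub_add_norm_sub u.1 x.1 v.1
    rw [norm_sub_rev x.1 v.1] at f4
    linarith

lemma edge_eps (hb : Big G r N) (S : Sim G r N κ j b C C2 p p2) (hκr : κ ≤ r / 2) {u v : Pt}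
    (hu : ‖u.1 - p.1‖ ≤ κ * G.a ^ p.2) (hadj : Adj (G.next N C) u v) :
    ‖u.1 - v.1‖ ≤ G.e1 / G.a ^ N * G.a ^ p.2 := by
  obtain ⟨A, A', hA, hC⟩ := S.g
  have h1 := PP_edge hb (by linarith [hb.hr1]) hC S.hp u v
    (hu.trans (mul_le_mul_of_nonneg_right hκr (G.ap _).le)) hadj
  have h2 := G.fu_mul N p
  have h3 : 0 < G.a ^ N := pow_pos G.a0 N
  rw [h2, div_mul_eq_mul_div, mul_left_comm, mul_div_cancel_left₀ _ h3.ne']
  exact h1

/-- the main induction: forward transfer of `PP`. -/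
lemma Sim.PP (hb : Big G r N) (hκr : κ ≤ r / 2) (hκ : 5 * G.R * G.a + 12 * G.R * G.a ^ 2 ≤ κ)
    (i : ℕ) (S : Sim G r N κ j b C C2 p p2) (q x : Pt)
    (hq : ‖q.1 - p.1‖ ≤ (5 * G.R * G.a - i * (G.e1 / G.a ^ N)) * G.a ^ p.2)
    (hPP : PP G N C i q x) : PP G N C2 i (G.gm j b q) (G.gm j b x) := by
  have hR := G.hR
  have ha1 := G.a1
  have hRa : 0 < G.R * G.a := mul_pos hR G.a0
  have hRa2 : 0 < G.R * G.a ^ 2 := by have := G.a0; positivity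
  have hε : 0 < G.e1 / G.a ^ N := div_pos G.e1_pos (pow_pos G.a0 N)
  induction i generalizing j b C C2 p p2 q x with
  | zero =>
    obtain ⟨hx, hcore⟩ := hPP
    obtain ⟨A, A', hA, hC⟩ := S.g
    have hd := hcore.1.2.1
    have hq' : ‖q.1 - p.1‖ ≤ 5 * G.R * G.a * G.a ^ p.2 := by simpa using hq
    obtain ⟨_, hl2, hl3⟩ := lab_near hC S.hp hx q.1 (5 * G.R * G.a) (3 * G.R * G.a) (by linarith)
      (by linarith) (by nlinarith) hq' hd
    have hap := G.ap p.2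
    have hb1 : ‖x.1 - p.1‖ + 9 * G.R * G.a * G.a ^ x.2 ≤ κ * G.a ^ p.2 := by
      have h1 := mul_le_mul_of_nonneg_left hl2 (by linarith : (0 : ℝ) ≤ 9 * G.R * G.a)
      have h2 := mul_le_mul_of_nonneg_right hκ hap.le
      nlinarith
    have hb2 : ‖x.1 - p.1‖ ≤ κ * G.a ^ p.2 := by
      have : 0 < 9 * G.R * G.a * G.a ^ x.2 := by have := G.ap x.2; positivity
      linarith
    exact ⟨(S.c x hb2).1 hx, S.core hb1 hcore⟩
  | succ i ih =>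
    have hap := G.ap p.2
    have hap2 := G.ap p2.2
    have hi0 : (0 : ℝ) ≤ i := Nat.cast_nonneg _
    push_cast at hq
    have hq1 : ‖q.1 - p.1‖ ≤ (5 * G.R * G.a - i * (G.e1 / G.a ^ N)) * G.a ^ p.2 := by
      refine hq.trans (mul_le_mul_of_nonneg_right ?_ hap.le)
      linarith
    have hiκ : (5 * G.R * G.a - i * (G.e1 / G.a ^ N)) ≤ κ := by
      have : 0 ≤ i * (G.e1 / G.a ^ N) := by positivity
      linarith
    rcases hPP with hPP | ⟨hno, q', hnxt, hPP⟩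
    · exact Or.inl (ih S q x hq1 hPP)
    · right
      have hqκ : ‖q.1 - p.1‖ ≤ κ * G.a ^ p.2 :=
        hq1.trans (mul_le_mul_of_nonneg_right hiκ hap.le)
      -- the image of q
      have hq2 : ‖(G.gm j b q).1 - p2.1‖
          ≤ (5 * G.R * G.a - (i + 1) * (G.e1 / G.a ^ N)) * G.a ^ p2.2 := by
        rw [← S.e, G.gm_ball]; exact hq
      have hq21 : ‖(G.gm j b q).1 - p2.1‖
          ≤ (5 * G.R * G.a - i * (G.e1 / G.a ^ N)) * G.a ^ p2.2 := by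
        rw [← S.e, G.gm_ball]; exact hq1
      have hq2κ : ‖(G.gm j b q).1 - p2.1‖ ≤ κ * G.a ^ p2.2 :=
        hq21.trans (mul_le_mul_of_nonneg_right hiκ hap2.le)
      have hstep : ∀ v, Adj (G.next N C) q v →
          ‖v.1 - p.1‖ ≤ (5 * G.R * G.a - i * (G.e1 / G.a ^ N)) * G.a ^ p.2 ∧
          ‖q.1 - p.1‖ + ‖q.1 - v.1‖ ≤ κ * G.a ^ p.2 := by
        intro v hv
        have h1 := edge_eps hb S hκr hqκ hv
        have h2 := norm_sub_le_norm_sub_add_norm_sub v.1 q.1 p.1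
        rw [norm_sub_rev v.1 q.1] at h2
        have h3 := mul_le_mul_of_nonneg_right hiκ hap.le
        constructor <;> nlinarith
      have hstep2 : ∀ v, Adj (G.next N C2) (G.gm j b q) v →
          ‖v.1 - p2.1‖ ≤ (5 * G.R * G.a - i * (G.e1 / G.a ^ N)) * G.a ^ p2.2 ∧
          ‖(G.gm j b q).1 - p2.1‖ + ‖(G.gm j b q).1 - v.1‖ ≤ κ * G.a ^ p2.2 := by
        intro v hv
        have h1 := edge_eps hb S.symm hκr hq2κ hv
        have h2 := norm_sub_le_norm_sub_add_norm_sub v.1 (G.gm j b q).1 p2.1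
        rw [norm_sub_rev v.1 (G.gm j b q).1] at h2
        have h3 := mul_le_mul_of_nonneg_right hiκ hap2.le
        constructor <;> nlinarith
      refine ⟨?_, G.gm j b q', ⟨S.adj (hstep q' hnxt.1).2 hnxt.1, ?_, ?_⟩,
        ih S q' x (hstep q' hnxt.1).1 hPP⟩
      · rintro ⟨y, hy⟩
        have h1 := ih S.symm (G.gm j b q) y hq21 hy
        rw [gm_inv_left] at h1
        exact hno ⟨_, h1⟩
      · obtain ⟨y, hy⟩ := hnxt.2.1
        exact ⟨_, ih S q' y (hstep q' hnxt.1).1 hy⟩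
      · intro v2 hv2 hA2
        obtain ⟨y, hy⟩ := hA2
        have h1 := S.symm.adj (hstep2 v2 hv2).2 hv2
        rw [gm_inv_left] at h1
        have h2 := ih S.symm v2 y (hstep2 v2 hv2).1 hy
        have h3 := hnxt.2.2 _ h1 ⟨_, h2⟩
        rw [gm_dir]
        have h4 : G.lam ^ (-(G.gm j b q).2) * (v2.1 - (G.gm j b q).1)
            = G.lam ^ (-q.2) * ((G.gm (-j) (-(G.lam ^ (-j) * b)) v2).1 - q.1) := by
          conv_lhs => rw [← G.gm_inv_right j b v2]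
          rw [gm_dir]
        rw [h4]
        exact h3

theorem PP_local {A A' A2 A2' : ℝ} (hS : SepC G r s h) (hb : Big G r N) (hb2 : G.Big2 r s h N)
    (hbig : 4000 * (G.R + 1) * G.a ^ 4 ≤ r) (hA : r ≤ A) (hA2 : r ≤ A2) (hC : G.Good r C A A')
    (hC2 : G.Good r C2 A2 A2') {p p2 : Pt} (hp : p ∈ C) (hp2 : p2 ∈ C2)
    (hpat : patch G (r / 4) C p = patch G (r / 4) C2 p2) (q : Pt) (hq : PP G N C (G.MM s) q p) :
    PP G N C2 (G.MM s) (G.gm (p2.2 - p.2) (p2.1 - G.lam ^ (p2.2 - p.2) * p.1) q) p2 ∧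
      patch G (r / 4) (G.next N C) q = patch G (r / 4) (G.next N C2)
        (G.gm (p2.2 - p.2) (p2.1 - G.lam ^ (p2.2 - p.2) * p.1) q) := by
  have hR := G.hR
  have ha1 := G.a1
  have ha0 := G.a0
  have hRa : 0 < G.R * G.a := mul_pos hR ha0
  set j : ℤ := p2.2 - p.2 with hj
  set b : ℂ := p2.1 - G.lam ^ j * p.1 with hbdef
  have e : G.gm j b p = p2 := by
    ext
    · simp [gm, hbdef]
    · simp [gm, hj]
  have hc : Loc G (r / 4) j b C C2 p := by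
    intro x hx
    have hx2 : ‖(G.gm j b x).1 - p2.1‖ ≤ r / 4 * G.a ^ p2.2 := by
      rw [← e, G.gm_ball]; exact hx
    constructor
    · intro hxC
      have h1 : G.code p x ∈ patch G (r / 4) C p := ⟨x, hxC, hx, rfl⟩
      rw [hpat] at h1
      obtain ⟨y, hy, _, hy2⟩ := h1
      have h2 : G.gm j b x = y := by
        apply G.code_inj p2
        rw [← hy2, ← e, gm_code]
      rw [h2]; exact hy
    · intro hxC
      have h1 : G.code p2 (G.gm j b x) ∈ patch G (r / 4) C2 p2 := ⟨_, hxC, hx2, rfl⟩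
      rw [← hpat] at h1
      obtain ⟨y, hy, _, hy2⟩ := h1
      have h2 : x = y := by
        apply G.code_inj p
        rw [← hy2, ← e, gm_code]
      rw [h2]; exact hy
  -- the radius
  have ha2 : (1 : ℝ) ≤ G.a ^ 2 := one_le_pow₀ ha1.le
  have haa2 : G.a ≤ G.a ^ 2 := by nlinarith
  have ha24 : G.a ^ 2 ≤ G.a ^ 4 := pow_le_pow_right₀ ha1.le (by norm_num)
  have hRa2 : G.R * G.a ≤ G.R * G.a ^ 2 := mul_le_mul_of_nonneg_left haa2 hR.le
  have hRa4 : G.R * G.a ^ 2 ≤ G.R * G.a ^ 4 := mul_le_mul_of_nonneg_left ha24 hR.le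
  have hRp : 0 < G.R * G.a ^ 4 := by positivity
  have hbig' : 4000 * (G.R * G.a ^ 4) + 4000 * G.a ^ 4 ≤ r := by nlinarith
  set κ : ℝ := 20 * (G.R * G.a ^ 2) + 20 * G.a ^ 2 with hκdef
  have hκ0 : 0 ≤ κ := by positivity
  have hκr : κ + 2 * G.R * G.a ≤ r / 4 := by nlinarith
  have hκr4 : κ ≤ r / 4 := by nlinarith
  have hκr2 : κ ≤ r / 2 := by linarith
  have hκ5 : 5 * G.R * G.a + 12 * G.R * G.a ^ 2 ≤ κ := by nlinarith
  have hn : Loc G κ j b (G.next N C) (G.next N C2) p := by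
    intro x hx
    constructor
    · exact next_one hκ0 hκr hC hC2 hp hp2 e hc x hx
    · intro hx2
      have hxb : ‖(G.gm j b x).1 - p2.1‖ ≤ κ * G.a ^ p2.2 := by
        rw [← e, G.gm_ball]; exact hx
      have e' : G.gm (-j) (-(G.lam ^ (-j) * b)) p2 = p := by rw [← e, gm_inv_left]
      have := next_one hκ0 hκr hC2 hC hp2 hp e' (hc.symm e) (G.gm j b x) hxb hx2
      rwa [gm_inv_left] at this
  have S : Sim G r N κ j b C C2 p p2 :=
    ⟨hp, hp2, e, ⟨A, A', hA, hC⟩, ⟨A2, A2', hA2, hC2⟩, hc.mono hκr4, hn⟩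
  have hA0 : 0 ≤ A := by linarith [hb.hr1]
  have hdist := PP_dist hS hb hb2 hA0 hC (G.MM s) le_rfl q p hq
  have hap := G.ap p.2
  have haN : 0 < G.a ^ N := pow_pos ha0 N
  have hMM : (G.MM s : ℝ) * (G.e1 / G.a ^ N) ≤ G.R * G.a := by
    rw [mul_div_assoc', div_le_iff₀ haN]
    have h1 := hb2.b4
    have h2 : (0 : ℝ) ≤ G.MM s := Nat.cast_nonneg _
    have h3 := c5_pos hS
    have h4 := G.e1_pos
    nlinarith
  have hq5 : ‖q.1 - p.1‖ ≤ (5 * G.R * G.a - (G.MM s : ℕ) * (G.e1 / G.a ^ N)) * G.a ^ p.2 := by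
    refine hdist.trans (mul_le_mul_of_nonneg_right ?_ hap.le)
    linarith
  have h1 := Sim.PP hb hκr2 hκ5 (G.MM s) S q p hq5 hq
  rw [e] at h1
  refine ⟨h1, ?_⟩
  -- patches of the refinement
  have hqN : q ∈ G.next N C := PP_next _ q p hq
  have hlab : |q.2 + N - p.2| ≤ 1 := by
    refine fine_label hb hC hp hqN ?_
    refine hdist.trans (mul_le_mul_of_nonneg_right ?_ hap.le)
    nlinarith
  have hfine := fine_unit_le (G := G) hlab
  have hrad : r / 4 * G.a ^ q.2 ≤ G.a * G.a ^ p.2 := by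
    have hr1 := hb.hr1
    have h2 : r / 4 * G.a ^ q.2 ≤ r * (G.a * G.fu N p) := by
      have hf := mul_pos ha0 (G.fu_pos N p)
      have := mul_le_mul_of_nonneg_left hfine (by linarith : (0 : ℝ) ≤ r / 4)
      nlinarith
    have h3 : r * (G.a * G.fu N p) ≤ G.a ^ N * (G.a * G.fu N p) :=
      mul_le_mul_of_nonneg_right hb.hN1 (mul_pos ha0 (G.fu_pos N p)).le
    have h4 := G.fu_mul N p
    calc _ ≤ _ := h2.trans h3
      _ = G.a * (G.a ^ N * G.fu N p) := by ring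
      _ = _ := by rw [← h4]
  have hin : ∀ x : Pt, ‖x.1 - q.1‖ ≤ r / 4 * G.a ^ q.2 → ‖x.1 - p.1‖ ≤ κ * G.a ^ p.2 := by
    intro x hx
    have h2 := norm_sub_le_norm_sub_add_norm_sub x.1 q.1 p.1
    have h3 : (G.a + 4 * G.R * G.a) * G.a ^ p.2 ≤ κ * G.a ^ p.2 :=
      mul_le_mul_of_nonneg_right (by nlinarith) hap.le
    linarith
  ext d
  constructor
  · rintro ⟨x, hx, hxd, rfl⟩
    exact ⟨G.gm j b x, (S.n x (hin x hxd)).1 hx, (G.gm_ball j b _ x q).2 hxd, (G.gm_code j b q x).symm⟩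
  · rintro ⟨x2, hx2, hxd, rfl⟩
    obtain ⟨x, rfl⟩ : ∃ x, G.gm j b x = x2 := ⟨_, G.gm_inv_right j b x2⟩
    rw [G.gm_ball] at hxd
    exact ⟨x, (S.n x (hin x hxd)).2 hx2, hxd, G.gm_code j b q x⟩

end Alg
end Pool.Agent.H475R3
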