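import Pool.Agent.H475R3.Fin1
import Pool.Agent.H475R3.Loc

set_option autoImplicit false
open Set Filter Topology

namespace Pool.Agent.H475R3
namespace Alg
open TS (sh)
variable {W : Type} [NormedAddCommGroup W] [NormedSpace ℝ W] {G : Alg W}

lemma gm_inv (G : Alg W) (j : ℤ) (b : ℂ) (p : Pt) : G.gm j b (G.gm (-j) (-(G.lam ^ (-j) * b)) p) = p := by
  simp only [gm]
  ext
  · simp only
    rw [mul_add, ← mul_assoc, ← zpow_add₀ G.lam0, mul_neg, ← mul_assoc, ← zpow_add₀ G.lam0]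
    simp
  · simp

lemma gm_inv' (G : Alg W) (j : ℤ) (b : ℂ) (p : Pt) : G.gm (-j) (-(G.lam ^ (-j) * b)) (G.gm j b p) = p := by
  have h1 := G.gm_inv j b (G.gm (-j) (-(G.lam ^ (-j) * b)) (G.gm j b p))
  have := G.gm_inv j b (G.gm j b p)
  exact G.gm_inj j b this

lemma code_sh (G : Alg W) (p x : Pt) (j : ℤ) : G.code (sh G.lam j p) (sh G.lam j x) = G.code p x := by
  simp only [code, sh]
  ext
  · simp only
    have : G.lam ^ (-p.2) = G.lam ^ (-(p.2 + j)) * G.lam ^ j := by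
      rw [← zpow_add₀ G.lam0]; congr 1; ring
    rw [this]; ring
  · simp

lemma patch_sh_sub {r A A' : ℝ} {C : Cfg} (ρ : ℝ) (hC : G.Good r C A A') (j : ℤ) (p : Pt) :
    patch G ρ C p ⊆ patch G ρ C (sh G.lam j p) := by
  rintro d ⟨x, hx, hxp, rfl⟩
  refine ⟨sh G.lam j x, (hC.sh_all j x).1 hx, ?_, (G.code_sh p x j).symm⟩
  have e : (sh G.lam j x).1 - (sh G.lam j p).1 = G.lam ^ j * (x.1 - p.1) := by
    simp only [sh]; ring
  rw [e, norm_mul, norm_lam_zpow]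
  have e2 : ρ * G.a ^ (sh G.lam j p).2 = G.a ^ j * (ρ * G.a ^ p.2) := by
    simp only [sh]; rw [G.ap_add]; ring
  rw [e2]
  exact mul_le_mul_of_nonneg_left hxp (G.ap j).le

lemma patch_sh {r A A' : ℝ} {C : Cfg} (ρ : ℝ) (hC : G.Good r C A A') (j : ℤ) (p : Pt) :
    patch G ρ C p = patch G ρ C (sh G.lam j p) := by
  refine Subset.antisymm (patch_sh_sub ρ hC j p) ?_
  have := patch_sh_sub ρ hC (-j) (sh G.lam j p)
  rwa [TS.sh_sh _ G.lam0, neg_add_cancel, TS.sh_zero] at this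

namespace Params
variable (P : Params G)

lemma PP_sh_fwd (n : ℕ) (j : ℤ) (q p : Pt) (h : P.toTS.Par n q p) :
    P.toTS.Par n (sh G.lam j q) (sh G.lam j p) := by
  have hC := P.good n
  have hp := PP_C _ q p h
  have hp2 := (hC.sh_all j p).1 hp
  have := (PP_local P.hS P.hb P.hb2 P.hbig (P.r_le_An n) (P.r_le_An n) hC hC hp hp2
    (patch_sh _ hC j p) q h).1
  have e : G.gm ((sh G.lam j p).2 - p.2) ((sh G.lam j p).1 - G.lam ^ ((sh G.lam j p).2 - p.2) * p.1) q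
      = sh G.lam j q := by
    simp only [sh, gm]
    ext
    · simp
    · simp
  rw [e] at this
  exact this

lemma PP_sh (n : ℕ) (q p : Pt) : P.toTS.Par n q p ↔ P.toTS.Par n (sh G.lam 1 q) (sh G.lam 1 p) := by
  refine ⟨P.PP_sh_fwd n 1 q p, fun h => ?_⟩
  have := P.PP_sh_fwd n (-1) _ _ h
  rwa [TS.sh_sh _ G.lam0, TS.sh_sh _ G.lam0, neg_add_cancel, TS.sh_zero, TS.sh_zero] at this

/-- tiles with the same patch are similar. -/
lemma T_sim (n n' : ℕ) (p p' : Pt) (hp : p ∈ P.cs n) (hp' : p' ∈ P.cs n')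
    (hpat : patch G (P.r / 4) (P.cs n) p = patch G (P.r / 4) (P.cs n') p') :
    P.toTS.T n' {p'} = (fun z => G.lam ^ (p'.2 - p.2) * z + (p'.1 - G.lam ^ (p'.2 - p.2) * p.1)) ''
      P.toTS.T n {p} := by
  obtain ⟨j, hj⟩ : ∃ j : ℤ, j = p'.2 - p.2 := ⟨_, rfl⟩
  obtain ⟨b, hb⟩ : ∃ b : ℂ, b = p'.1 - G.lam ^ j * p.1 := ⟨_, rfl⟩
  rw [← hj, ← hb]
  have hgp : (G.lam ^ j * p.1 + b, p.2 + j) = p' := by
    ext
    · simp only; rw [hb]; ring
    · simp only; omega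
  let R : ℕ → ℕ → Pt → Prop := fun n n' x => x ∈ P.cs n ∧ G.gm j b x ∈ P.cs n' ∧
    patch G (P.r / 4) (P.cs n) x = patch G (P.r / 4) (P.cs n') (G.gm j b x)
  have hfwd : ∀ n n' x, R n n' x → ∀ q, P.toTS.Par n q x →
      P.toTS.Par n' (G.gm j b q) (G.gm j b x) ∧
      patch G (P.r / 4) (P.cs (n + 1)) q = patch G (P.r / 4) (P.cs (n' + 1)) (G.gm j b q) := by
    rintro n n' x ⟨hx, hgx, hpx⟩ q hq
    have := PP_local P.hS P.hb P.hb2 P.hbig (P.r_le_An n) (P.r_le_An n') (P.good n) (P.good n')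
      hx hgx hpx q hq
    have e : (G.gm j b x).2 - x.2 = j := by simp [gm]
    have e2 : (G.gm j b x).1 - G.lam ^ j * x.1 = b := by simp [gm]
    rw [e, e2] at this
    exact this
  have hbwd : ∀ n n' x, R n n' x → ∀ q', P.toTS.Par n' q' (G.gm j b x) →
      ∃ q, P.toTS.Par n q x ∧ G.gm j b q = q' := by
    rintro n n' x ⟨hx, hgx, hpx⟩ q' hq'
    have := (PP_local P.hS P.hb P.hb2 P.hbig (P.r_le_An n') (P.r_le_An n) (P.good n') (P.good n)
      hgx hx hpx.symm q' hq').1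
    have e : x.2 - (G.gm j b x).2 = -j := by simp [gm]
    have e2 : x.1 - G.lam ^ (-j) * (G.gm j b x).1 = -(G.lam ^ (-j) * b) := by
      simp only [gm]
      rw [mul_add, ← mul_assoc, ← zpow_add₀ G.lam0]; simp
    rw [e, e2] at this
    exact ⟨_, this, G.gm_inv j b q'⟩
  have := P.toTS.sim_T n n' p (G.lam ^ j) b j (norm_lam_zpow G j) R ?_ ?_ ?_
  · rw [hgp] at this
    exact this
  · intro n n' x hR q'
    constructor
    · exact hbwd n n' x hR q'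
    · rintro ⟨q, hq, rfl⟩
      exact (hfwd n n' x hR q hq).1
  · intro n n' x hR q hq
    have h1 := hfwd n n' x hR q hq
    exact ⟨PP_next _ q x hq, PP_next _ _ _ h1.1, h1.2⟩
  · refine ⟨hp, ?_, ?_⟩
    · have : G.gm j b p = p' := hgp
      rw [this]; exact hp'
    · have : G.gm j b p = p' := hgp
      rw [this]; exact hpat

lemma patch_DDc (n : ℕ) (p : Pt) (hp : p ∈ P.cs n) :
    patch G (P.r / 4) (P.cs n) p ⊆ ((G.DDc P.r : Finset (ℂ × ℤ)) : Set (ℂ × ℤ)) := by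
  rintro d ⟨x, hx, hxp, rfl⟩
  have hr1 := P.hb.hr1
  refine (P.good n).code_mem (by linarith) hp hx ?_
  have m1 : G.a ^ p.2 ≤ max (G.a ^ p.2) (G.a ^ x.2) := le_max_left _ _
  have := G.ap p.2
  rw [norm_sub_rev]
  nlinarith

lemma shape (lo hi : ℤ) : ∃ F : Finset (Set ℂ), ∀ n p, p ∈ P.toTS.P n → lo ≤ p.2 → p.2 ≤ hi →
    ∃ X ∈ F, ∃ z : ℂ, P.toTS.T n {p} = (fun w => w + z) '' X := by
  classical
  -- representative
  let key : ℤ × Set (ℂ × ℤ) → Set ℂ := fun c =>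
    if h : ∃ np : ℕ × Pt, np.2 ∈ P.cs np.1 ∧ np.2.2 = c.1 ∧ patch G (P.r / 4) (P.cs np.1) np.2 = c.2
    then P.toTS.T h.choose.1 {h.choose.2} else ∅
  have hfin : ((Set.Icc lo hi) ×ˢ (𝒫 ((G.DDc P.r : Finset (ℂ × ℤ)) : Set (ℂ × ℤ)))).Finite :=
    (Set.finite_Icc lo hi).prod ((G.DDc P.r).finite_toSet.finite_subsets)
  refine ⟨hfin.toFinset.image key, ?_⟩
  intro n p hp hlo hhi
  have hp' : p ∈ P.cs n := hp
  refine ⟨key (p.2, patch G (P.r / 4) (P.cs n) p), ?_, ?_⟩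
  · rw [Finset.mem_image]
    refine ⟨_, ?_, rfl⟩
    rw [Set.Finite.mem_toFinset]
    exact ⟨⟨hlo, hhi⟩, P.patch_DDc n p hp'⟩
  · have h : ∃ np : ℕ × Pt, np.2 ∈ P.cs np.1 ∧ np.2.2 = (p.2, patch G (P.r / 4) (P.cs n) p).1 ∧
        patch G (P.r / 4) (P.cs np.1) np.2 = (p.2, patch G (P.r / 4) (P.cs n) p).2 := ⟨(n, p), hp', rfl, rfl⟩
    have hk : key (p.2, patch G (P.r / 4) (P.cs n) p) = P.toTS.T h.choose.1 {h.choose.2} := dif_pos h
    obtain ⟨h1, h2, h3⟩ := h.choose_spec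
    rw [hk]
    have := P.T_sim h.choose.1 n h.choose.2 p h1 hp' h3
    simp only at h2
    rw [h2, sub_self] at this
    rw [this]
    refine ⟨p.1 - G.lam ^ (0 : ℤ) * h.choose.2.1, ?_⟩
    congr 1
    funext z
    simp


end Params
end Alg
end Pool.Agent.H475R3
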