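import Pool.Agent.H475R3.Fin2
import Pool.Agent.H475R3.Alg

set_option autoImplicit false
open Set Filter Topology

namespace Pool.Agent.H475R3
namespace Alg
open TS (sh)
variable {W : Type} [NormedAddCommGroup W] [NormedSpace ℝ W] {G : Alg W}

lemma exists_zpow_gt (G : Alg W) (x : ℝ) : ∃ k : ℤ, ∀ i : ℤ, G.a ^ i ≤ x → i ≤ k := by
  obtain ⟨n, hn⟩ := pow_unbounded_of_one_lt x G.a1
  refine ⟨n, fun i hi => ?_⟩
  by_contra hcon
  push Not at hcon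
  have := zpow_le_zpow_right₀ G.a1.le hcon.le
  rw [zpow_natCast] at this
  linarith

lemma exists_zpow_lt (G : Alg W) (x : ℝ) (hx : 0 < x) : ∃ k : ℤ, ∀ i : ℤ, x ≤ G.a ^ i → k ≤ i := by
  obtain ⟨n, hn⟩ := pow_unbounded_of_one_lt (x⁻¹) G.a1
  refine ⟨-n, fun i hi => ?_⟩
  by_contra hcon
  push Not at hcon
  have h1 := zpow_le_zpow_right₀ G.a1.le hcon.le
  rw [zpow_neg, zpow_natCast] at h1
  have h2 : (G.a ^ n)⁻¹ < x := by
    rw [inv_lt_comm₀ (pow_pos G.a0 n) hx]; exact hn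
  linarith

namespace Params
variable (P : Params G)

lemma desc_near (n : ℕ) (p p0 : Pt) (hp0 : p0 ∈ P.toTS.P 0) (h : p ∈ P.toTS.desc 0 n {p0}) :
    p ∈ P.cs n ∧ ‖p.1 - p0.1‖ ≤ ‖p0.1‖ / 2 := by
  have h1 : p ∈ P.toTS.P (0 + n) := P.toTS.desc_single_subset 0 n p0 p hp0 h
  rw [zero_add] at h1
  refine ⟨h1, ?_⟩
  have h2 : p.1 ∈ P.toTS.T (0 + n) {p} := by
    rw [zero_add]
    exact interior_subset (P.toTS.center_mem n p h1)
  have h3 := P.toTS.T_desc_sub 0 n p0 p h h2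
  have h4 := P.toTS.T_subset_ball 0 p0 h3
  rw [Metric.mem_closedBall, dist_eq_norm] at h4
  have h5 := (P.good 0).g4 p0 hp0
  have h6 := P.e3
  have h7 := P.An_ge 0
  have h8 := G.ap p0.2
  have h9 : P.toTS.E * P.toTS.a ^ p0.2 = 8 * G.R * G.a * G.a ^ p0.2 := rfl
  rw [h9] at h4
  have hR := G.hR
  have h10 : 16 * G.R * G.a * G.a ^ p0.2 ≤ (P.An 0 + 2 * G.R) * G.a ^ p0.2 :=
    mul_le_mul_of_nonneg_right (by linarith) h8.le
  linarith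

lemma labels : ∃ lo hi : ℤ, ∀ n p p0, p0 ∈ P.toTS.P 0 → p ∈ P.toTS.desc 0 n {p0} →
    sh G.lam (-((n : ℤ) * P.N + P.N)) p0 ∈ central (P.cs 0) →
    sh G.lam (-((n : ℤ) * P.N)) p0 ∉ central (P.cs 0) → lo ≤ p.2 ∧ p.2 ≤ hi := by
  have hR := G.hR
  have ha1 := G.a1
  have ha0 := G.a0
  have hr1 := P.hb.hr1
  obtain ⟨A0, hA0⟩ : ∃ A0 : ℝ, A0 = P.r0 - 2 * G.R := ⟨_, rfl⟩
  obtain ⟨B0, hB0⟩ : ∃ B0 : ℝ, B0 = P.r0 * G.a + 2 * G.R := ⟨_, rfl⟩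
  have hA0pos : 0 < A0 := by have := P.e2; linarith
  have hr0 : 0 < P.r0 := by linarith
  have hB0pos : 0 < B0 := by rw [hB0]; positivity
  obtain ⟨hi, hhi⟩ := G.exists_zpow_gt (8 * G.a ^ P.N / A0)
  obtain ⟨lo, hlo⟩ := G.exists_zpow_lt (1 / (2 * B0)) (by positivity)
  refine ⟨lo, hi, ?_⟩
  intro n p p0 hp0 hd hc1 hc2
  obtain ⟨hp, hnear⟩ := P.desc_near n p p0 hp0 hd
  have hx : 0 < G.a ^ ((n : ℤ) * P.N) := G.ap _
  have haN : 0 < G.a ^ P.N := pow_pos ha0 _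
  have haN' : G.a ^ ((n : ℤ) * P.N + P.N) = G.a ^ ((n : ℤ) * P.N) * G.a ^ P.N := by
    rw [zpow_add₀ (ne_of_gt ha0), zpow_natCast]
  have hpow : (G.a ^ P.N) ^ n = G.a ^ ((n : ℤ) * P.N) := by
    rw [← pow_mul, ← zpow_natCast G.a (P.N * n)]
    congr 1; push_cast; ring
  -- upper bound
  have hu : ‖p0.1‖ ≤ 4 * (G.a ^ ((n : ℤ) * P.N) * G.a ^ P.N) := by
    have h1 := hc1.2.1
    rw [sh_norm, zpow_neg, haN'] at h1
    rw [inv_mul_le_iff₀ (by positivity)] at h1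
    linarith
  have hl : G.a ^ ((n : ℤ) * P.N) ≤ ‖p0.1‖ := by
    by_contra hcon
    push Not at hcon
    apply hc2
    have hmem : sh G.lam (-((n : ℤ) * P.N)) p0 ∈ P.cs 0 := ((P.good 0).sh_all _ p0).1 hp0
    have hle : ‖(sh G.lam (-((n : ℤ) * P.N)) p0).1‖ ≤ 1 := by
      rw [sh_norm, zpow_neg, inv_mul_le_iff₀ hx]
      linarith
    exact ⟨hmem, by linarith, _, hmem, hle, Relation.ReflTransGen.refl⟩
  have hpu : ‖p.1‖ ≤ 2 * ‖p0.1‖ := by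
    have : ‖p.1‖ ≤ ‖p.1 - p0.1‖ + ‖p0.1‖ := by simpa using norm_add_le (p.1 - p0.1) p0.1
    linarith [norm_nonneg p0.1]
  have hpl : ‖p0.1‖ / 2 ≤ ‖p.1‖ := by
    have : ‖p0.1‖ ≤ ‖p0.1 - p.1‖ + ‖p.1‖ := by simpa using norm_add_le (p0.1 - p.1) p.1
    rw [norm_sub_rev] at this
    linarith
  have g4 := (P.good n).g4 p hp
  have g4' := (P.good n).g4' p hp
  have hap := G.ap p.2
  constructor
  · apply hlo
    rw [div_le_iff₀ (by positivity)]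
    have h1 : P.An' n = B0 * G.a ^ ((n : ℤ) * P.N) := by rw [hB0, ← hpow]; rfl
    rw [h1] at g4'
    have h2 : G.a ^ ((n : ℤ) * P.N) ≤ 2 * (B0 * G.a ^ ((n : ℤ) * P.N) * G.a ^ p.2) := by
      have : 0 < 2 * G.R * G.a ^ p.2 := by positivity
      linarith
    have h3 : G.a ^ ((n : ℤ) * P.N) * 1 ≤ G.a ^ ((n : ℤ) * P.N) * (G.a ^ p.2 * (2 * B0)) := by linarith
    exact le_of_mul_le_mul_left h3 hx
  · apply hhi
    rw [le_div_iff₀ hA0pos]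
    have h1 : P.An n = A0 * G.a ^ ((n : ℤ) * P.N) := by rw [hA0, ← hpow]; rfl
    rw [h1] at g4
    have h2 : A0 * G.a ^ ((n : ℤ) * P.N) * G.a ^ p.2 ≤ 8 * (G.a ^ ((n : ℤ) * P.N) * G.a ^ P.N) := by
      have : 0 < 2 * G.R * G.a ^ p.2 := by positivity
      linarith
    have h3 : G.a ^ ((n : ℤ) * P.N) * (G.a ^ p.2 * A0) ≤ G.a ^ ((n : ℤ) * P.N) * (8 * G.a ^ P.N) := by linarith
    exact le_of_mul_le_mul_left h3 hx

lemma exists_data (P : Params G) : ∃ D : TS.Data, D.lam = G.lam := by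
  have hG2 := init_good (G := G) P.r2 P.r0 P.f0 P.f1
  obtain ⟨c1, c2, c3, c4, c5, c6, c7⟩ := central_props (C := P.cs 0) P.hS P.hb.hr1 P.hb.hr (P.good 0)
    hG2 P.f3 P.f2
  exact ⟨{
    S := P.toTS
    lam := G.lam
    hlam := rfl
    hP := fun n p => (P.good n).g1 p
    hPar := fun n q p => P.PP_sh n q p
    C := central (P.cs 0)
    hCP := c1
    hCs := c2
    hCout := c3
    hCin := c4
    hCne := c5
    hCb := c6
    hCpath := fun p hp => by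
      obtain ⟨A, a1, a2, a3, a4, a5, a6⟩ := c7 p hp
      exact ⟨A, a1, ⟨a2, a6⟩, a3, a4, a5⟩
    N := P.N
    hN := by have := P.hb3.c6; omega
    hshape := P.shape
    hlab := P.labels }, rfl⟩

end Params
end Alg

theorem final (c : ℂ) (hint : IsIntegral ℤ c) (h1 : 1 < ‖c‖)
    (hp : ∀ μ : ℂ, Polynomial.aeval μ (minpoly ℚ c) = 0 → μ ≠ c →
        μ ≠ (starRingEnd ℂ) c → ‖μ‖ < ‖c‖) :
    ∃ T : Set (Set ℂ),
        (∀ t ∈ T, IsCompact t ∧ IsConnected t ∧ closure (interior t) = t) ∧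
        ⋃₀ T = Set.univ ∧
        (∀ t ∈ T, ∀ s ∈ T, t ≠ s → Disjoint (interior t) (interior s)) ∧
        (∃ F : Finset (Set ℂ), ∀ t ∈ T, ∃ P ∈ F, ∃ z : ℂ, t = (fun w => w + z) '' P) ∧
        (∀ t ∈ T, ∃ S ⊆ T, (fun w => c * w) '' t = ⋃₀ S) := by
  obtain ⟨J, _, W, L, w, D, rho, rho', a1, a2, a3, a4, a5, a6, a7, a8, R0, Bc, b1, b2, b3⟩ :=
    exists_algData c hint h1 hp
  let G : Alg W := ⟨c, h1, L, w, D, rho, rho', a1, a2, a3, a4, a5, a6, a7, a8, R0, Bc, b1, b2, b3⟩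
  obtain ⟨P⟩ := Alg.exists_params G
  obtain ⟨D, hD⟩ := P.exists_data
  have := D.main
  rw [hD] at this
  exact this

end Pool.Agent.H475R3
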