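import Mathlib

set_option autoImplicit false
open Set

namespace Pool.Agent.H475R3

abbrev Pt := ℂ × ℤ

/-- Gabriel adjacency -/
def Adj (X : Set Pt) (p q : Pt) : Prop :=
  p ∈ X ∧ q ∈ X ∧ p ≠ q ∧ ∀ x ∈ X, x ≠ p → x ≠ q →
    ‖p.1 - q.1‖ ^ 2 < ‖x.1 - p.1‖ ^ 2 + ‖x.1 - q.1‖ ^ 2

lemma Adj.symm {X : Set Pt} {p q : Pt} (h : Adj X p q) : Adj X q p := by
  obtain ⟨h1, h2, h3, h4⟩ := h
  refine ⟨h2, h1, h3.symm, fun x hx h5 h6 => ?_⟩
  have := h4 x hx h6 h5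
  rw [norm_sub_rev q.1 p.1]; linarith

lemma not_adj {X : Set Pt} {p q : Pt} (hp : p ∈ X) (hq : q ∈ X) (hne : p ≠ q) (h : ¬ Adj X p q) :
    ∃ x ∈ X, x ≠ p ∧ x ≠ q ∧ ‖x.1 - p.1‖ ^ 2 + ‖x.1 - q.1‖ ^ 2 ≤ ‖p.1 - q.1‖ ^ 2 := by
  by_contra hcon
  push Not at hcon
  exact h ⟨hp, hq, hne, fun x hx h5 h6 => hcon x hx h5 h6⟩

/-- a splitting step used in all inductions. -/
lemma split_step {X : Set Pt} {d : ℝ} (hd : 0 < d) (m : ℕ) (p q : Pt)
    (hsep : ∀ x ∈ X, x ≠ p → d ≤ ‖p.1 - x.1‖) (hsep' : ∀ x ∈ X, x ≠ q → d ≤ ‖q.1 - x.1‖)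
    (hp : p ∈ X) (hq : q ∈ X) (hne : p ≠ q) (h : ¬ Adj X p q)
    (hm : ‖p.1 - q.1‖ ^ 2 < (m + 1) * d ^ 2) :
    ∃ x ∈ X, ∃ m1 m2 : ℕ, 1 ≤ m1 ∧ 1 ≤ m2 ∧ m1 + m2 ≤ m ∧ ‖p.1 - x.1‖ ^ 2 < (m1 + 1) * d ^ 2 ∧
      ‖x.1 - q.1‖ ^ 2 < (m2 + 1) * d ^ 2 ∧ ‖p.1 - x.1‖ ≤ ‖p.1 - q.1‖ ∧ ‖x.1 - q.1‖ ≤ ‖p.1 - q.1‖ := by
  obtain ⟨x, hx, hxp, hxq, hle⟩ := not_adj hp hq hne h
  have h1 := hsep x hx hxp
  have h2 := hsep' x hx hxq
  rw [norm_sub_rev x.1 p.1] at hle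
  rw [norm_sub_rev q.1 x.1] at h2
  have hd2 : 0 < d ^ 2 := by positivity
  have n1 := norm_nonneg (p.1 - x.1)
  have n2 := norm_nonneg (x.1 - q.1)
  have n3 := norm_nonneg (p.1 - q.1)
  refine ⟨x, hx, ⌊‖p.1 - x.1‖ ^ 2 / d ^ 2⌋₊, ⌊‖x.1 - q.1‖ ^ 2 / d ^ 2⌋₊, ?_, ?_, ?_, ?_, ?_, ?_, ?_⟩
  · rw [Nat.one_le_floor_iff, one_le_div hd2]
    exact pow_le_pow_left₀ hd.le h1 2
  · rw [Nat.one_le_floor_iff, one_le_div hd2]
    exact pow_le_pow_left₀ hd.le h2 2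
  · have f1 := Nat.floor_le (div_nonneg (sq_nonneg ‖p.1 - x.1‖) hd2.le)
    have f2 := Nat.floor_le (div_nonneg (sq_nonneg ‖x.1 - q.1‖) hd2.le)
    have f3 : (‖p.1 - x.1‖ ^ 2 / d ^ 2 + ‖x.1 - q.1‖ ^ 2 / d ^ 2) < m + 1 := by
      rw [← add_div, div_lt_iff₀ hd2]
      linarith
    have f4 : ((⌊‖p.1 - x.1‖ ^ 2 / d ^ 2⌋₊ + ⌊‖x.1 - q.1‖ ^ 2 / d ^ 2⌋₊ : ℕ) : ℝ) < ((m + 1 : ℕ) : ℝ) := by
      push_cast
      linarith
    have := Nat.cast_lt.1 f4
    omega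
  · have := Nat.lt_floor_add_one (‖p.1 - x.1‖ ^ 2 / d ^ 2)
    rwa [div_lt_iff₀ hd2] at this
  · have := Nat.lt_floor_add_one (‖x.1 - q.1‖ ^ 2 / d ^ 2)
    rwa [div_lt_iff₀ hd2] at this
  · nlinarith
  · nlinarith

lemma gab_path {X : Set Pt} {d L rho : ℝ} (b : ℂ) (hd : 0 < d) (hL : 0 ≤ L)
    (hsep : ∀ u ∈ X, ‖u.1 - b‖ ≤ rho → ∀ x ∈ X, x ≠ u → d ≤ ‖u.1 - x.1‖) (m : ℕ) :
    ∀ p q : Pt, p ∈ X → q ∈ X → ‖p.1 - q.1‖ ^ 2 < (m + 1) * d ^ 2 → ‖p.1 - q.1‖ ≤ L →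
      ‖p.1 - b‖ + m * L ≤ rho →
      Relation.ReflTransGen (fun u v => Adj X u v ∧ ‖u.1 - b‖ ≤ rho ∧ ‖v.1 - b‖ ≤ rho) p q := by
  induction m using Nat.strong_induction_on with
  | _ m ih =>
    intro p q hp hq hm hpL hrho
    by_cases hne : p = q
    · subst hne; exact Relation.ReflTransGen.refl
    have hmL : 0 ≤ m * L := by positivity
    have hpb : ‖p.1 - b‖ ≤ rho := by linarith
    have h1 : d ≤ ‖p.1 - q.1‖ := hsep p hp hpb q hq (Ne.symm hne)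
    have hm1 : 1 ≤ m := by
      by_contra hcon
      have : m = 0 := by omega
      subst this
      have := pow_le_pow_left₀ hd.le h1 2
      simp at hm
      linarith
    have hmr : (1 : ℝ) ≤ m := by exact_mod_cast hm1
    have hqb : ‖q.1 - b‖ ≤ rho := by
      have := norm_sub_le_norm_sub_add_norm_sub q.1 p.1 b
      rw [norm_sub_rev q.1 p.1] at this
      nlinarith
    by_cases hadj : Adj X p q
    · exact Relation.ReflTransGen.single ⟨hadj, hpb, hqb⟩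
    · obtain ⟨x, hx, m1, m2, hm1', hm2', hsum, e1, e2, l1, l2⟩ :=
        split_step hd m p q (hsep p hp hpb) (hsep q hq hqb) hp hq hne hadj hm
      have hc1 : (m1 : ℝ) + m2 ≤ m := by exact_mod_cast hsum
      have hm1r : (1 : ℝ) ≤ m1 := by exact_mod_cast hm1'
      have hm2r : (1 : ℝ) ≤ m2 := by exact_mod_cast hm2'
      have q1 := ih m1 (by omega) p x hp hx e1 (l1.trans hpL) (by nlinarith)
      have q2 := ih m2 (by omega) x q hx hq e2 (l2.trans hpL) (by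
        have := norm_sub_le_norm_sub_add_norm_sub x.1 p.1 b
        rw [norm_sub_rev x.1 p.1] at this
        nlinarith)
      exact q1.trans q2

lemma gab_spread {X : Set Pt} {d L rho : ℝ} (b : ℂ) (hd : 0 < d) (hL : 0 ≤ L)
    (hsep : ∀ u ∈ X, ‖u.1 - b‖ ≤ rho → ∀ x ∈ X, x ≠ u → d ≤ ‖u.1 - x.1‖)
    (A : ℕ → Pt → Prop) (hmono : ∀ i u, A i u → A (i + 1) u)
    (hstep : ∀ i u v, Adj X u v → A i v → A (i + 1) u) (m : ℕ) :
    ∀ i : ℕ, ∀ p q : Pt, p ∈ X → q ∈ X → ‖p.1 - q.1‖ ^ 2 < (m + 1) * d ^ 2 → ‖p.1 - q.1‖ ≤ L →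
      ‖p.1 - b‖ + m * L ≤ rho → A i q → A (i + m) p := by
  have hmono' : ∀ i k u, A i u → A (i + k) u := by
    intro i k u h
    induction k with
    | zero => exact h
    | succ k ih => exact hmono _ _ ih
  induction m using Nat.strong_induction_on with
  | _ m ih =>
    intro i p q hp hq hm hpL hrho hA
    by_cases hne : p = q
    · subst hne; exact hmono' i m p hA
    have hmL : 0 ≤ m * L := by positivity
    have hpb : ‖p.1 - b‖ ≤ rho := by linarith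
    have h1 : d ≤ ‖p.1 - q.1‖ := hsep p hp hpb q hq (Ne.symm hne)
    have hm1 : 1 ≤ m := by
      by_contra hcon
      have : m = 0 := by omega
      subst this
      have := pow_le_pow_left₀ hd.le h1 2
      simp at hm
      linarith
    have hmr : (1 : ℝ) ≤ m := by exact_mod_cast hm1
    have hqb : ‖q.1 - b‖ ≤ rho := by
      have := norm_sub_le_norm_sub_add_norm_sub q.1 p.1 b
      rw [norm_sub_rev q.1 p.1] at this
      nlinarith
    by_cases hadj : Adj X p q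
    · have := hmono' (i + 1) (m - 1) p (hstep i p q hadj hA)
      have e : i + 1 + (m - 1) = i + m := by omega
      rwa [e] at this
    · obtain ⟨x, hx, m1, m2, hm1', hm2', hsum, e1, e2, l1, l2⟩ :=
        split_step hd m p q (hsep p hp hpb) (hsep q hq hqb) hp hq hne hadj hm
      have hc1 : (m1 : ℝ) + m2 ≤ m := by exact_mod_cast hsum
      have hm1r : (1 : ℝ) ≤ m1 := by exact_mod_cast hm1'
      have hm2r : (1 : ℝ) ≤ m2 := by exact_mod_cast hm2'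
      have q2 := ih m2 (by omega) i x q hx hq e2 (l2.trans hpL) (by
        have := norm_sub_le_norm_sub_add_norm_sub x.1 p.1 b
        rw [norm_sub_rev x.1 p.1] at this
        nlinarith) hA
      have q1 := ih m1 (by omega) (i + m2) p x hp hx e1 (l1.trans hpL) (by nlinarith) q2
      have := hmono' _ (m - m1 - m2) p q1
      have e : i + m2 + m1 + (m - m1 - m2) = i + m := by omega
      rwa [e] at this

/-- path near a segment. -/
lemma tube_path {X : Set Pt} {d eta rho rho' : ℝ} (c : ℂ) (hd : 0 < d) (heta : 0 < eta)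
    (hsep : ∀ u ∈ X, ‖u.1 - c‖ ≤ rho → ∀ x ∈ X, x ≠ u → d ≤ ‖u.1 - x.1‖)
    (hcov : ∀ z, ‖z - c‖ ≤ rho' → ∃ q ∈ X, ‖z - q.1‖ ≤ eta) (m0 : ℕ)
    (hm0 : 9 * eta ^ 2 < (m0 + 1) * d ^ 2) (hrho : rho' + (3 * m0 + 1) * eta ≤ rho)
    (p q : Pt) (hp : p ∈ X) (hq : q ∈ X)
    (hseg : ∀ t : ℝ, 0 ≤ t → t ≤ 1 → ‖p.1 + t * (q.1 - p.1) - c‖ ≤ rho') :
    Relation.ReflTransGen (fun u v => Adj X u v ∧
      (∃ t : ℝ, 0 ≤ t ∧ t ≤ 1 ∧ ‖u.1 - (p.1 + t * (q.1 - p.1))‖ ≤ (3 * m0 + 1) * eta) ∧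
      (∃ t : ℝ, 0 ≤ t ∧ t ≤ 1 ∧ ‖v.1 - (p.1 + t * (q.1 - p.1))‖ ≤ (3 * m0 + 1) * eta)) p q := by
  obtain ⟨n, hn⟩ := exists_nat_ge (‖q.1 - p.1‖ / eta)
  rw [div_le_iff₀ heta] at hn
  set n' := n + 1 with hn'
  have hn'pos : (0 : ℝ) < n' := by positivity
  have hstepn : ‖q.1 - p.1‖ ≤ n' * eta := by
    have : (n' : ℝ) = n + 1 := by rw [hn']; push_cast; ring
    rw [this]; nlinarith
  -- points on the segment
  let z : ℕ → ℂ := fun i => p.1 + ((i / n' : ℝ) : ℂ) * (q.1 - p.1)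
  have hz0 : z 0 = p.1 := by simp [z]
  have hzn : z n' = q.1 := by
    simp only [z]
    rw [div_self hn'pos.ne']; simp
  have hzstep : ∀ i, ‖z i - z (i + 1)‖ ≤ eta := by
    intro i
    have : z i - z (i + 1) = ((-(1 / n') : ℝ) : ℂ) * (q.1 - p.1) := by
      simp only [z]; push_cast; field_simp; ring
    rw [this, norm_mul, Complex.norm_real, norm_neg, Real.norm_of_nonneg (by positivity),
      div_mul_eq_mul_div, one_mul, div_le_iff₀ hn'pos]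
    linarith
  have hz : ∀ i ≤ n', ‖z i - c‖ ≤ rho' := by
    intro i hi
    have : (i : ℝ) ≤ n' := by exact_mod_cast hi
    exact hseg (i / n') (by positivity) (by rw [div_le_one hn'pos]; exact this)
  have hy : ∀ i ≤ n', ∃ y ∈ X, ‖z i - y.1‖ ≤ eta ∧ (i = 0 → y = p) ∧ (i = n' → y = q) := by
    intro i hi
    by_cases h0 : i = 0
    · refine ⟨p, hp, ?_, fun _ => rfl, fun h => ?_⟩
      · rw [h0, hz0, sub_self, norm_zero]; exact heta.le
      · omega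
    · by_cases h1 : i = n'
      · refine ⟨q, hq, ?_, fun h => absurd h h0, fun _ => rfl⟩
        rw [h1, hzn, sub_self, norm_zero]; exact heta.le
      · obtain ⟨y, hy, hyz⟩ := hcov (z i) (hz i hi)
        exact ⟨y, hy, hyz, fun h => absurd h h0, fun h => absurd h h1⟩
  choose! y hyX hyz hy0 hyn using hy
  have hm0L : (0 : ℝ) ≤ 3 * m0 * eta := by positivity
  have key : ∀ i ≤ n', Relation.ReflTransGen (fun u v => Adj X u v ∧
      (∃ t : ℝ, 0 ≤ t ∧ t ≤ 1 ∧ ‖u.1 - (p.1 + t * (q.1 - p.1))‖ ≤ (3 * m0 + 1) * eta) ∧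
      (∃ t : ℝ, 0 ≤ t ∧ t ≤ 1 ∧ ‖v.1 - (p.1 + t * (q.1 - p.1))‖ ≤ (3 * m0 + 1) * eta)) p (y i) := by
    intro i
    induction i with
    | zero => intro _; rw [hy0 0 (by omega) rfl]
    | succ i ih =>
      intro hi
      have hi' : i ≤ n' := by omega
      refine (ih hi').trans ?_
      have hdist : ‖(y i).1 - (y (i + 1)).1‖ ≤ 3 * eta := by
        have e : (y i).1 - (y (i + 1)).1 = ((y i).1 - z i) + (z i - z (i + 1)) + (z (i + 1) - (y (i + 1)).1) := by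
          ring
        rw [e]
        refine (norm_add₃_le).trans ?_
        have a1 := hyz i hi'
        rw [norm_sub_rev] at a1
        have a2 := hyz (i + 1) hi
        have a3 := hzstep i
        linarith
      have hpath := gab_path (X := X) (d := d) (L := 3 * eta) (rho := 3 * m0 * eta) (y i).1 hd
        (by positivity) ?_ m0 (y i) (y (i + 1)) (hyX i hi') (hyX _ hi) ?_ hdist ?_
      · refine Relation.ReflTransGen.mono ?_ _ _ hpath
        rintro u v ⟨h1, h2, h3⟩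
        have hin : (0 : ℝ) ≤ i / n' := by positivity
        have hin1 : (i / n' : ℝ) ≤ 1 := by
          rw [div_le_one hn'pos]; exact_mod_cast hi'
        have hgen : ∀ w : Pt, ‖w.1 - (y i).1‖ ≤ 3 * m0 * eta →
            ‖w.1 - (p.1 + ((i / n' : ℝ) : ℂ) * (q.1 - p.1))‖ ≤ (3 * m0 + 1) * eta := by
          intro w hw
          have a1 := hyz i hi'
          rw [norm_sub_rev] at a1
          have := norm_sub_le_norm_sub_add_norm_sub w.1 (y i).1 (z i)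
          calc ‖w.1 - z i‖ ≤ ‖w.1 - (y i).1‖ + ‖(y i).1 - z i‖ := this
            _ ≤ _ := by linarith
        exact ⟨h1, ⟨i / n', hin, hin1, hgen u h2⟩, ⟨i / n', hin, hin1, hgen v h3⟩⟩
      · intro u hu hub x hx hxu
        refine hsep u hu ?_ x hx hxu
        have a1 := hyz i hi'
        rw [norm_sub_rev] at a1
        have a2 := hz i hi'
        have a3 : ‖u.1 - c‖ ≤ ‖u.1 - (y i).1‖ + ‖(y i).1 - z i‖ + ‖z i - c‖ := by
          have e : u.1 - c = (u.1 - (y i).1) + ((y i).1 - z i) + (z i - c) := by ring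
          rw [e]; exact norm_add₃_le
        linarith
      · have := pow_le_pow_left₀ (norm_nonneg _) hdist 2
        have e : (3 * eta) ^ 2 = 9 * eta ^ 2 := by ring
        rw [e] at this
        linarith
      · rw [sub_self, norm_zero]; linarith
  have := key n' le_rfl
  rwa [hyn n' le_rfl rfl] at this

end Pool.Agent.H475R3
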