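import Pool.Agent.H475R3.Cfg3
import Pool.Agent.H475R3.Graph

set_option autoImplicit false
open Set

namespace Pool.Agent.H475R3

lemma finite_pos_lb (S : Set ℝ) (hS : S.Finite) : ∃ e : ℝ, 0 < e ∧ e ≤ 1 ∧ ∀ x ∈ S, 0 < x → e ≤ x := by
  classical
  have hF : (hS.toFinset.filter (fun x => 0 < x) ∪ {1}).Nonempty := ⟨1, by simp⟩
  refine ⟨(hS.toFinset.filter (fun x => 0 < x) ∪ {1}).min' hF, ?_, ?_, ?_⟩
  · rw [Finset.lt_min'_iff]
    intro y hy
    rw [Finset.mem_union, Finset.mem_filter, Finset.mem_singleton] at hy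
    rcases hy with hy | hy
    · exact hy.2
    · rw [hy]; exact one_pos
  · exact Finset.min'_le _ _ (by simp)
  · intro x hx hx0
    apply Finset.min'_le
    simp [hx, hx0]

/-- difference of squared distances -/
noncomputable def gg (p x y : ℂ) : ℝ := ‖y - x‖ ^ 2 - ‖y - p‖ ^ 2

lemma gg_eq (p x y : ℂ) : gg p x y = ‖x - p‖ ^ 2 - 2 * ((y - p).re * (x - p).re + (y - p).im * (x - p).im) := by
  unfold gg
  rw [Complex.sq_norm, Complex.sq_norm, Complex.sq_norm, Complex.normSq_apply, Complex.normSq_apply,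
    Complex.normSq_apply]
  simp only [Complex.sub_re, Complex.sub_im]
  ring

lemma ip_le (u v : ℂ) : |u.re * v.re + u.im * v.im| ≤ ‖u‖ * ‖v‖ := by
  have h : u.re * v.re + u.im * v.im = (u * (starRingEnd ℂ) v).re := by
    simp [Complex.mul_re]
  rw [h]
  refine (Complex.abs_re_le_norm _).trans ?_
  rw [norm_mul, Complex.norm_conj]

lemma gg_move (p x y z : ℂ) : gg p x z - 2 * ‖y - z‖ * ‖x - p‖ ≤ gg p x y := by
  rw [gg_eq, gg_eq]
  have := ip_le (y - z) (x - p)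
  have h2 := (abs_le.1 this).2
  have e : (y - p).re * (x - p).re + (y - p).im * (x - p).im
      = (z - p).re * (x - p).re + (z - p).im * (x - p).im
        + ((y - z).re * (x - p).re + (y - z).im * (x - p).im) := by
    simp only [Complex.sub_re, Complex.sub_im]; ring
  rw [e]; linarith

lemma gg_center (p x y : ℂ) : ‖x - p‖ * (‖x - p‖ - 2 * ‖y - p‖) ≤ gg p x y := by
  have h := gg_move p x y p
  have : gg p x p = ‖x - p‖ ^ 2 := by
    unfold gg; rw [sub_self, norm_zero, norm_sub_rev p x]; ring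
  rw [this] at h
  nlinarith

lemma gg_affine (p x y z : ℂ) (t : ℝ) :
    gg p x (y + t * (z - y)) = (1 - t) * gg p x y + t * gg p x z := by
  rw [gg_eq, gg_eq, gg_eq]
  simp only [Complex.sub_re, Complex.sub_im, Complex.add_re, Complex.add_im, Complex.mul_re,
    Complex.mul_im, Complex.ofReal_re, Complex.ofReal_im]
  ring

lemma gg_swap (p x y : ℂ) : gg x p y = - gg p x y := by unfold gg; ring

namespace Alg
open TS (sh)
variable {W : Type} [NormedAddCommGroup W] [NormedSpace ℝ W] {G : Alg W}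
variable {r A A' : ℝ} {C : Cfg}

/-- separation constants -/
structure SepC (G : Alg W) (r s h : ℝ) : Prop where
  s0 : 0 < s
  s1 : s ≤ 1
  hs : ∀ v ∈ G.DD r, v ≠ 0 → s ≤ ‖v‖
  h0 : 0 < h
  hh : ∀ u ∈ G.DD r, ∀ v ∈ G.DD r, ‖u‖ ^ 2 < ‖v‖ ^ 2 + ‖u - v‖ ^ 2 → ‖u‖ ^ 2 + h ≤ ‖v‖ ^ 2 + ‖u - v‖ ^ 2

lemma exists_SepC (G : Alg W) (r : ℝ) : ∃ s h : ℝ, SepC G r s h := by
  obtain ⟨s, hs0, hs1, hs⟩ := finite_pos_lb ((fun v : ℂ => ‖v‖) '' G.DD r) ((G.DD_finite r).image _)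
  obtain ⟨h, hh0, hh1, hh⟩ := finite_pos_lb
    ((fun uv : ℂ × ℂ => ‖uv.2‖ ^ 2 + ‖uv.1 - uv.2‖ ^ 2 - ‖uv.1‖ ^ 2) '' (G.DD r ×ˢ G.DD r))
    (((G.DD_finite r).prod (G.DD_finite r)).image _)
  refine ⟨s, h, hs0, hs1, ?_, hh0, ?_⟩
  · intro v hv hv0
    exact hs _ ⟨v, hv, rfl⟩ (norm_pos_iff.2 hv0)
  · intro u hu v hv huv
    have := hh _ ⟨(u, v), ⟨hu, hv⟩, rfl⟩ (by simp only; linarith)
    simp only at this
    linarith

variable {s h : ℝ}

lemma norm_norm (G : Alg W) (k : ℤ) (u : ℂ) : ‖G.lam ^ (-k) * u‖ * G.a ^ k = ‖u‖ := by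
  rw [norm_mul, norm_lam_zpow, mul_comm (G.a ^ (-k)), mul_assoc, ← zpow_add₀ (ne_of_gt G.a0)]
  simp

lemma Good.sep (hS : SepC G r s h) (hr : 1 ≤ r) (hC : G.Good r C A A') {p q : Pt} (hp : p ∈ C)
    (hq : q ∈ C) (hne : q ≠ p) : s * G.a ^ p.2 ≤ ‖p.1 - q.1‖ := by
  by_cases hcl : ‖p.1 - q.1‖ ≤ r * max (G.a ^ p.2) (G.a ^ q.2)
  · have hd := hC.diffDD (by linarith) hp hq hcl
    have h0 : G.lam ^ (-p.2) * (p.1 - q.1) ≠ 0 := by
      apply mul_ne_zero (zpow_ne_zero _ G.lam0)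
      intro h1
      exact hne (hC.g2 q p hq hp (sub_eq_zero.1 h1).symm)
    have h1 := hS.hs _ hd h0
    rw [← norm_norm G p.2 (p.1 - q.1)]
    exact mul_le_mul_of_nonneg_right h1 (G.ap _).le
  · push Not at hcl
    have h1 := G.ap p.2
    have h2 : G.a ^ p.2 ≤ max (G.a ^ p.2) (G.a ^ q.2) := le_max_left _ _
    have h3 := hS.s1
    have h4 := hS.s0
    nlinarith

lemma half_sq (x y z : ℂ) : ‖x - y‖ ^ 2 + ‖x - z‖ ^ 2 = 2 * ‖x - (y + z) / 2‖ ^ 2 + ‖y - z‖ ^ 2 / 2 := by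
  rw [Complex.sq_norm, Complex.sq_norm, Complex.sq_norm, Complex.sq_norm, Complex.normSq_apply,
    Complex.normSq_apply, Complex.normSq_apply, Complex.normSq_apply]
  simp only [Complex.sub_re, Complex.sub_im, Complex.add_re, Complex.add_im, Complex.div_ofNat_re,
    Complex.div_ofNat_im]
  ring

/-- adjacency edges are short. -/
lemma Good.adj_len (hb4 : 4 * G.R ≤ r) (hC : G.Good r C A A') {p q : Pt} (h : Adj C p q) :
    ‖p.1 - q.1‖ ≤ 2 * G.R * G.a * G.a ^ p.2 := by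
  have hR := G.hR
  have ha1 := G.a1
  obtain ⟨hp, hq, hne, hall⟩ := h
  by_cases hm : (p.1 + q.1) / 2 = 0
  · exfalso
    have hpq : q.1 = - p.1 := by
      have : p.1 + q.1 = 0 := by
        have := (div_eq_zero_iff.1 hm)
        rcases this with h | h
        · exact h
        · norm_num at h
      exact (neg_eq_of_add_eq_zero_right this).symm
    have hp0 : 0 < ‖p.1‖ := by
      rw [norm_pos_iff]
      intro h0
      apply hne
      exact hC.g2 p q hp hq (by rw [hpq, h0, neg_zero])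
    have hx := (hC.sh_mem p).1 hp
    have hxn : ‖(sh G.lam (-1) p).1‖ = ‖p.1‖ / G.a := by
      simp only [sh, norm_mul, zpow_neg_one, norm_inv]
      rw [div_eq_inv_mul]; rfl
    have hlt : ‖(sh G.lam (-1) p).1‖ < ‖p.1‖ := by
      rw [hxn, div_lt_iff₀ G.a0]
      nlinarith
    have h1 := hall _ hx (by intro h; rw [h] at hlt; exact lt_irrefl _ hlt)
      (by intro h; rw [h, hpq, norm_neg] at hlt; exact lt_irrefl _ hlt)
    rw [half_sq, hm, sub_zero] at h1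
    have h2 : ‖p.1 - q.1‖ = 2 * ‖p.1‖ := by
      rw [hpq, sub_neg_eq_add, ← two_mul, norm_mul]; norm_num
    rw [h2] at h1
    have h3 := norm_nonneg (sh G.lam (-1) p).1
    nlinarith
  · obtain ⟨x, hx, hxm⟩ := hC.g5 _ hm
    have hax := G.ap x.2
    have hpm : ‖(p.1 + q.1) / 2 - p.1‖ = ‖p.1 - q.1‖ / 2 := by
      have : (p.1 + q.1) / 2 - p.1 = -((p.1 - q.1) / 2) := by ring
      rw [this, norm_neg, norm_div]; norm_num
    have hqm : ‖(p.1 + q.1) / 2 - q.1‖ = ‖p.1 - q.1‖ / 2 := by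
      have : (p.1 + q.1) / 2 - q.1 = ((p.1 - q.1) / 2) := by ring
      rw [this, norm_div]; norm_num
    have hlen : ‖p.1 - q.1‖ ≤ 2 * (G.R * G.a ^ x.2) := by
      by_cases h1 : x = p
      · rw [h1, hpm] at hxm; rw [h1]; linarith
      · by_cases h2 : x = q
        · rw [h2, hqm] at hxm; rw [h2]; linarith
        · have h3 := hall x hx h1 h2
          rw [half_sq] at h3
          rw [norm_sub_rev] at hxm
          have h4 : ‖p.1 - q.1‖ ^ 2 < (2 * (G.R * G.a ^ x.2)) ^ 2 := by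
            have := pow_le_pow_left₀ (norm_nonneg _) hxm 2
            nlinarith
          exact (lt_of_pow_lt_pow_left₀ 2 (by positivity) h4).le
    have hnear : ‖p.1 - x.1‖ ≤ r * max (G.a ^ p.2) (G.a ^ x.2) := by
      have hmx : G.a ^ x.2 ≤ max (G.a ^ p.2) (G.a ^ x.2) := le_max_right _ _
      calc ‖p.1 - x.1‖ ≤ ‖p.1 - (p.1 + q.1) / 2‖ + ‖(p.1 + q.1) / 2 - x.1‖ :=
            norm_sub_le_norm_sub_add_norm_sub _ _ _
        _ ≤ 2 * G.R * G.a ^ x.2 := by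
            rw [norm_sub_rev p.1, hpm]; linarith
        _ ≤ r * max (G.a ^ p.2) (G.a ^ x.2) := by
            have := mul_pos hR hax
            nlinarith
    have hl := (hC.g6 p hp x hx hnear).1
    have h5 : G.a ^ x.2 ≤ G.a * G.a ^ p.2 := G.zpow_le_succ (by rw [abs_le] at hl; omega)
    have h6 := mul_le_mul_of_nonneg_left h5 hR.le
    calc ‖p.1 - q.1‖ ≤ 2 * (G.R * G.a ^ x.2) := hlen
      _ ≤ 2 * (G.R * (G.a * G.a ^ p.2)) := by linarith
      _ = _ := by ring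

/-- fine labels near a coarse point -/
lemma fine_label {N : ℕ} (hb : Big G r N) (hC : G.Good r C A A') {p q : Pt} (hp : p ∈ C)
    (hq : q ∈ G.next N C) (h : ‖q.1 - p.1‖ ≤ r / 2 * G.a ^ p.2) : |q.2 + N - p.2| ≤ 1 := by
  have hR := G.hR
  have ha1 := G.a1
  obtain ⟨⟨x, hx, hxl, hxd⟩, -⟩ := hq
  have hbr := hb.hr
  have hm1 : G.a ^ p.2 ≤ max (G.a ^ p.2) (G.a ^ x.2) := le_max_left _ _
  have hm2 : G.a ^ x.2 ≤ max (G.a ^ p.2) (G.a ^ x.2) := le_max_right _ _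
  have hmx : 0 < max (G.a ^ p.2) (G.a ^ x.2) := lt_max_of_lt_left (G.ap _)
  have hRr : G.R ≤ r / 2 := by nlinarith
  have hr1 := hb.hr1
  have hnear : ‖p.1 - x.1‖ ≤ r * max (G.a ^ p.2) (G.a ^ x.2) := by
    calc ‖p.1 - x.1‖ ≤ ‖p.1 - q.1‖ + ‖q.1 - x.1‖ := norm_sub_le_norm_sub_add_norm_sub _ _ _
      _ ≤ r / 2 * G.a ^ p.2 + G.R * G.a ^ x.2 := by rw [norm_sub_rev p.1]; linarith
      _ ≤ r / 2 * max (G.a ^ p.2) (G.a ^ x.2) + r / 2 * max (G.a ^ p.2) (G.a ^ x.2) := by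
          refine add_le_add (mul_le_mul_of_nonneg_left hm1 (by linarith)) ?_
          exact mul_le_mul hRr hm2 (G.ap _).le (by linarith)
      _ = _ := by ring
  have hl := (hC.g6 p hp x hx hnear).1
  rw [abs_le] at hl ⊢
  omega

/-- fine unit -/
noncomputable def fu (G : Alg W) (N : ℕ) (p : Pt) : ℝ := G.a ^ (p.2 - N)

lemma fu_pos (G : Alg W) (N : ℕ) (p : Pt) : 0 < G.fu N p := G.ap _

lemma fu_mul (G : Alg W) (N : ℕ) (p : Pt) : G.a ^ p.2 = G.a ^ N * G.fu N p := by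
  unfold fu
  rw [← zpow_natCast G.a N, ← zpow_add₀ (ne_of_gt G.a0)]; congr 1; ring

lemma fine_unit_le {N : ℕ} {p q : Pt} (h : |q.2 + N - p.2| ≤ 1) : G.a ^ q.2 ≤ G.a * G.fu N p := by
  unfold fu
  exact G.zpow_le_succ (by rw [abs_le] at h; omega)

lemma fine_unit_ge {N : ℕ} {p q : Pt} (h : |q.2 + N - p.2| ≤ 1) : G.fu N p / G.a ≤ G.a ^ q.2 := by
  rw [div_le_iff₀ G.a0, mul_comm]
  unfold fu
  exact G.zpow_le_succ (by rw [abs_le] at h; omega)

lemma fine_sep {N : ℕ} (hS : SepC G r s h) (hb : Big G r N) (hA : 0 ≤ A) (hC : G.Good r C A A') {p : Pt}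
    (hp : p ∈ C) (u : Pt) (hu : u ∈ G.next N C) (hup : ‖u.1 - p.1‖ ≤ r / 2 * G.a ^ p.2) (x : Pt)
    (hx : x ∈ G.next N C) (hxu : x ≠ u) : s / G.a * G.fu N p ≤ ‖u.1 - x.1‖ := by
  have hC' := good_next hb hA hC
  have h1 := hC'.sep hS hb.hr1 hu hx hxu
  have h2 := fine_unit_ge (G := G) (fine_label hb hC hp hu hup)
  have h3 := mul_le_mul_of_nonneg_left h2 hS.s0.le
  calc s / G.a * G.fu N p = s * (G.fu N p / G.a) := by ring
    _ ≤ _ := h3.trans h1

lemma fine_cov {N : ℕ} (hb : Big G r N) (hA : r ≤ A) (hC : G.Good r C A A') {p : Pt}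
    (hp : p ∈ C) (z : ℂ) (hz : ‖z - p.1‖ ≤ r / 4 * G.a ^ p.2) :
    ∃ q ∈ G.next N C, ‖z - q.1‖ ≤ G.R * G.a * G.fu N p := by
  have hR := G.hR
  have ha1 := G.a1
  have hr1 := hb.hr1
  have hap := G.ap p.2
  have hz0 : z ≠ 0 := by
    rintro rfl
    rw [zero_sub, norm_neg] at hz
    have := hC.g4 p hp
    nlinarith
  have hC' := good_next hb (by linarith) hC
  obtain ⟨q, hq, hzq⟩ := hC'.g5 z hz0
  refine ⟨q, hq, ?_⟩
  have hlab : |q.2 + N - p.2| ≤ 1 := by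
    obtain ⟨⟨x, hx, hxl, hxd⟩, -⟩ := id hq
    have hbr := hb.hr
    have hqx : G.a ^ q.2 ≤ G.a ^ x.2 := zpow_le_zpow_right₀ ha1.le (by omega)
    have hm1 : G.a ^ p.2 ≤ max (G.a ^ p.2) (G.a ^ x.2) := le_max_left _ _
    have hm2 : G.a ^ x.2 ≤ max (G.a ^ p.2) (G.a ^ x.2) := le_max_right _ _
    have hmx : 0 < max (G.a ^ p.2) (G.a ^ x.2) := lt_max_of_lt_left (G.ap _)
    have hRr : 2 * G.R ≤ r / 2 := by nlinarith
    have hax := G.ap x.2
    have hnear : ‖p.1 - x.1‖ ≤ r * max (G.a ^ p.2) (G.a ^ x.2) := by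
      calc ‖p.1 - x.1‖ ≤ ‖p.1 - z‖ + ‖z - q.1‖ + ‖q.1 - x.1‖ := by
            have e : p.1 - x.1 = (p.1 - z) + (z - q.1) + (q.1 - x.1) := by ring
            rw [e]; exact norm_add₃_le
        _ ≤ r / 4 * G.a ^ p.2 + 2 * G.R * G.a ^ x.2 := by
            rw [norm_sub_rev p.1]
            have := mul_le_mul_of_nonneg_left hqx hR.le
            linarith
        _ ≤ r / 2 * max (G.a ^ p.2) (G.a ^ x.2) + r / 2 * max (G.a ^ p.2) (G.a ^ x.2) := by
            refine add_le_add ?_ ?_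
            · nlinarith
            · exact mul_le_mul hRr hm2 (G.ap _).le (by linarith)
        _ = _ := by ring
    have hl := (hC.g6 p hp x hx hnear).1
    rw [abs_le] at hl ⊢
    omega
  refine hzq.trans ?_
  have := mul_le_mul_of_nonneg_left (fine_unit_le (G := G) hlab) hR.le
  linarith

end Alg
end Pool.Agent.H475R3
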