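import Pool.Agent.H475R3.Par1

set_option autoImplicit false
open Set

namespace Pool.Agent.H475R3
namespace Alg
open TS (sh)
variable {W : Type} [NormedAddCommGroup W] [NormedSpace ℝ W] (G : Alg W)

noncomputable def eta : ℝ := G.R * G.a
noncomputable def m0 (s : ℝ) : ℕ := ⌈9 * G.eta ^ 2 / (s / G.a) ^ 2⌉₊
noncomputable def ct (s : ℝ) : ℝ := (3 * G.m0 s + 1) * G.eta
noncomputable def k2 (s : ℝ) : ℝ := 1 + 2 * G.ct s
noncomputable def c4 (s : ℝ) : ℝ := (G.k2 s + 2 * G.eta) / s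
noncomputable def c5 (s : ℝ) : ℝ := G.c4 s * (G.R * G.a) + G.eta
noncomputable def MM (s : ℝ) : ℕ := ⌈G.c5 s ^ 2 / (s / G.a) ^ 2⌉₊
noncomputable def e1 : ℝ := 2 * G.R * G.a * G.a

lemma eta_pos : 0 < G.eta := mul_pos G.hR G.a0
lemma ct_pos (s : ℝ) : 0 < G.ct s := by
  have := G.eta_pos; unfold ct; positivity
lemma eta_le_ct (s : ℝ) : G.eta ≤ G.ct s := by
  have := G.eta_pos
  have h2 : (0 : ℝ) ≤ G.m0 s := Nat.cast_nonneg _
  unfold ct; nlinarith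
lemma k2_pos (s : ℝ) : 0 < G.k2 s := by have := G.ct_pos s; unfold k2; linarith
lemma e1_pos : 0 < G.e1 := by have := G.hR; have := G.a0; unfold e1; positivity

/-- the second list of numerical requirements -/
structure Big2 (r s h : ℝ) (N : ℕ) : Prop where
  b0 : 1 ≤ G.R * G.a * G.a ^ N
  b1 : G.ct s ≤ G.R * G.a * G.a ^ N
  b2 : 2 * (G.k2 s + 2 * G.eta) ≤ s * G.a ^ N
  b3 : G.c4 s ≤ G.a ^ N
  b4 : (G.MM s + 1) * (G.c5 s + G.e1) ≤ G.R * G.a * G.a ^ N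
  b5 : 200 * (G.R * G.a) * (2 * G.MM s * G.e1 + 2 * G.ct s + 2 * G.eta) ≤ h * G.a ^ N
  b6 : 4 * (2 * G.MM s * G.e1 + 2 * G.ct s + 2 * G.eta) ≤ s * G.a ^ N

variable {G}

/-- deep fine points -/
def Deep (G : Alg W) (N : ℕ) (C : Cfg) (p : Pt) : Set Pt :=
  {q | q ∈ G.next N C ∧ ‖q.1 - p.1‖ ≤ 3 * G.R * G.a * G.a ^ p.2 ∧
    ∀ x ∈ C, x ≠ p → ‖x.1 - p.1‖ ≤ 8 * G.R * G.a * G.a ^ p.2 →
      G.fu N p * ‖x.1 - p.1‖ ≤ gg p.1 x.1 q.1}

def Core (G : Alg W) (N : ℕ) (C : Cfg) (p : Pt) : Set Pt :=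
  {q | q ∈ Deep G N C p ∧ ∃ q0 ∈ Deep G N C p, ‖q0.1 - p.1‖ ≤ G.eta * G.fu N p ∧
    Relation.ReflTransGen (fun u v => Adj (G.next N C) u v ∧ u ∈ Deep G N C p ∧ v ∈ Deep G N C p) q0 q}

def Nxt (G : Alg W) (X : Cfg) (A : Pt → Prop) (q q' : Pt) : Prop :=
  Adj X q q' ∧ A q' ∧ ∀ q'', Adj X q q'' → A q'' →
    ¬ WellOrderingRel (G.lam ^ (-q.2) * (q''.1 - q.1)) (G.lam ^ (-q.2) * (q'.1 - q.1))

def PP (G : Alg W) (N : ℕ) (C : Cfg) : ℕ → Pt → Pt → Prop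
  | 0, q, p => p ∈ C ∧ q ∈ Core G N C p
  | i + 1, q, p => PP G N C i q p ∨ ((¬ ∃ x, PP G N C i q x) ∧
      ∃ q', Nxt G (G.next N C) (fun u => ∃ x, PP G N C i u x) q q' ∧ PP G N C i q' p)

variable {r A A' s h : ℝ} {C : Cfg} {N : ℕ}

lemma deep_all (hb2 : G.Big2 r s h N) {p q : Pt} (hq : q ∈ Deep G N C p) (x : Pt) (hx : x ∈ C)
    (hxp : x ≠ p) : G.fu N p * ‖x.1 - p.1‖ ≤ gg p.1 x.1 q.1 := by
  by_cases hcl : ‖x.1 - p.1‖ ≤ 8 * G.R * G.a * G.a ^ p.2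
  · exact hq.2.2 x hx hxp hcl
  · push Not at hcl
    have h1 := gg_center p.1 x.1 q.1
    have h2 := hq.2.1
    have h3 := G.fu_mul N p
    have hR := G.hR
    have ha := G.a0
    have hf := G.fu_pos N p
    have hb0 := hb2.b0
    have h4 : G.fu N p ≤ G.R * G.a * G.a ^ p.2 := by
      rw [h3, ← mul_assoc]
      nlinarith
    have h5 : G.fu N p ≤ ‖x.1 - p.1‖ - 2 * ‖q.1 - p.1‖ := by
      have : 0 < G.R * G.a * G.a ^ p.2 := by have := G.ap p.2; positivity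
      nlinarith
    have h6 := mul_le_mul_of_nonneg_left h5 (norm_nonneg (x.1 - p.1))
    linarith

lemma pt_ne (hC : G.Good r C A A') {p x : Pt} (hp : p ∈ C) (hx : x ∈ C) (hxp : x ≠ p) :
    0 < ‖x.1 - p.1‖ := by
  rw [norm_pos_iff, sub_ne_zero]
  intro h
  exact hxp (hC.g2 x p hx hp h)

lemma deep_disj (hb2 : G.Big2 r s h N) (hC : G.Good r C A A') {p p' q : Pt} (hp : p ∈ C) (hp' : p' ∈ C)
    (h1 : q ∈ Deep G N C p) (h2 : q ∈ Deep G N C p') : p = p' := by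
  by_contra hne
  have e1 := deep_all hb2 h1 p' hp' (Ne.symm hne)
  have e2 := deep_all hb2 h2 p hp hne
  have n1 := pt_ne hC hp hp' (Ne.symm hne)
  have n2 := pt_ne hC hp' hp hne
  have f1 := mul_pos (G.fu_pos N p) n1
  have f2 := mul_pos (G.fu_pos N p') n2
  rw [gg_swap] at e2
  linarith

lemma PP_C (i : ℕ) (q p : Pt) (h : PP G N C i q p) : p ∈ C := by
  induction i generalizing q with
  | zero => exact h.1
  | succ i ih =>
    rcases h with h | ⟨-, q', -, h⟩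
    · exact ih q h
    · exact ih q' h

lemma PP_next (i : ℕ) (q p : Pt) (h : PP G N C i q p) : q ∈ G.next N C := by
  induction i generalizing q with
  | zero => exact h.2.1.1
  | succ i ih =>
    rcases h with h | ⟨-, q', h', -⟩
    · exact ih q h
    · exact h'.1.1

lemma PP_mono (i k : ℕ) (q p : Pt) (h : PP G N C i q p) : PP G N C (i + k) q p := by
  induction k with
  | zero => exact h
  | succ k ih => exact Or.inl ih

lemma Nxt_unique (hC' : G.Good r C A A') (B : Pt → Prop) {q q' q'' : Pt} (h1 : Nxt G C B q q')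
    (h2 : Nxt G C B q q'') : q' = q'' := by
  have n1 := h1.2.2 q'' h2.1 h2.2.1
  have n2 := h2.2.2 q' h1.1 h1.2.1
  have e : G.lam ^ (-q.2) * (q'.1 - q.1) = G.lam ^ (-q.2) * (q''.1 - q.1) := by
    rcases trichotomous_of (WellOrderingRel (α := ℂ)) (G.lam ^ (-q.2) * (q'.1 - q.1))
      (G.lam ^ (-q.2) * (q''.1 - q.1)) with h | h | h
    · exact absurd h n2
    · exact h
    · exact absurd h n1
  have e2 := mul_left_cancel₀ (zpow_ne_zero _ G.lam0) e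
  exact hC'.g2 _ _ h1.1.2.1 h2.1.2.1 (sub_left_inj.1 e2)

lemma PP_unique (hb : Big G r N) (hb2 : G.Big2 r s h N) (hA : 0 ≤ A) (hC : G.Good r C A A') (i : ℕ)
    (q p p' : Pt) (h1 : PP G N C i q p) (h2 : PP G N C i q p') : p = p' := by
  induction i generalizing q with
  | zero => exact deep_disj hb2 hC h1.1 h2.1 h1.2.1 h2.2.1
  | succ i ih =>
    rcases h1 with h1 | ⟨hn, q1, hq1, h1⟩
    · rcases h2 with h2 | ⟨hn, -⟩
      · exact ih q h1 h2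
      · exact absurd ⟨p, h1⟩ hn
    · rcases h2 with h2 | ⟨-, q2, hq2, h2⟩
      · exact absurd ⟨p', h2⟩ hn
      · have := Nxt_unique (good_next hb hA hC) _ hq1 hq2
        subst this
        exact ih q1 h1 h2

lemma Nxt_exists {X : Cfg} (B : Pt → Prop) {q u : Pt} (h1 : Adj X q u) (h2 : B u) :
    ∃ q', Nxt G X B q q' := by
  let S : Set ℂ := {z | ∃ v, Adj X q v ∧ B v ∧ z = G.lam ^ (-q.2) * (v.1 - q.1)}
  have hS : S.Nonempty := ⟨_, u, h1, h2, rfl⟩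
  have hwf : WellFounded (WellOrderingRel (α := ℂ)) := IsWellFounded.wf
  obtain ⟨v, hv1, hv2, hv3⟩ := hwf.min_mem S hS
  refine ⟨v, hv1, hv2, fun w hw1 hw2 => ?_⟩
  rw [← hv3]
  exact hwf.not_lt_min S ⟨w, hw1, hw2, rfl⟩

lemma PP_step (i : ℕ) (u v : Pt) (h : Adj (G.next N C) u v) (hv : ∃ x, PP G N C i v x) :
    ∃ x, PP G N C (i + 1) u x := by
  by_cases hu : ∃ x, PP G N C i u x
  · obtain ⟨x, hx⟩ := hu
    exact ⟨x, Or.inl hx⟩
  · obtain ⟨q', hq'⟩ := Nxt_exists (G := G) (fun u => ∃ x, PP G N C i u x) h hv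
    obtain ⟨x, hx⟩ := hq'.2.1
    exact ⟨x, Or.inr ⟨hu, q', hq', hx⟩⟩

/-- strong points -/
def Str (G : Alg W) (N : ℕ) (C : Cfg) (s : ℝ) (p : Pt) (y : ℂ) : Prop :=
  ‖y - p.1‖ ≤ 2 * G.R * G.a * G.a ^ p.2 ∧
    ∀ x ∈ C, x ≠ p → G.k2 s * G.fu N p * ‖x.1 - p.1‖ ≤ gg p.1 x.1 y

lemma str_near (hS : SepC G r s h) (hb : Big G r N) (hb2 : G.Big2 r s h N) (hC : G.Good r C A A')
    {p : Pt} (hp : p ∈ C) (y : ℂ) (hy : ‖y - p.1‖ ≤ s / 4 * G.a ^ p.2) (hy2 : ‖y - p.1‖ ≤ 2 * G.R * G.a * G.a ^ p.2) :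
    Str G N C s p y := by
  refine ⟨hy2, fun x hx hxp => ?_⟩
  have h1 := gg_center p.1 x.1 y
  have h2 := hC.sep hS hb.hr1 hp hx hxp
  rw [norm_sub_rev] at h2
  have h3 := G.fu_mul N p
  have hf := G.fu_pos N p
  have h4 := hb2.b2
  have heta := G.eta_pos
  have h5 : G.k2 s * G.fu N p ≤ s / 2 * G.a ^ p.2 := by
    rw [h3]
    have h7 : G.k2 s ≤ s / 2 * G.a ^ N := by linarith
    have := mul_le_mul_of_nonneg_right h7 hf.le
    linarith
  have h6 : G.k2 s * G.fu N p ≤ ‖x.1 - p.1‖ - 2 * ‖y - p.1‖ := by linarith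
  have := mul_le_mul_of_nonneg_left h6 (norm_nonneg (x.1 - p.1))
  linarith

lemma str_convex (p : Pt) (y z : ℂ) (t : ℝ) (ht0 : 0 ≤ t) (ht1 : t ≤ 1) (hy : Str G N C s p y)
    (hz : Str G N C s p z) : Str G N C s p (y + t * (z - y)) := by
  refine ⟨?_, fun x hx hxp => ?_⟩
  · have e : y + t * (z - y) - p.1 = ((1 - t : ℝ) : ℂ) * (y - p.1) + (t : ℂ) * (z - p.1) := by
      push_cast; ring
    rw [e]
    refine (norm_add_le _ _).trans ?_
    rw [norm_mul, norm_mul, Complex.norm_real, Complex.norm_real, Real.norm_of_nonneg (by linarith),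
      Real.norm_of_nonneg ht0]
    have h1 := mul_le_mul_of_nonneg_left hy.1 (by linarith : 0 ≤ 1 - t)
    have h2 := mul_le_mul_of_nonneg_left hz.1 ht0
    linarith
  · rw [gg_affine]
    have h1 := mul_le_mul_of_nonneg_left (hy.2 x hx hxp) (by linarith : 0 ≤ 1 - t)
    have h2 := mul_le_mul_of_nonneg_left (hz.2 x hx hxp) ht0
    linarith

lemma m0_spec (hS : SepC G r s h) (f : ℝ) (hf : 0 < f) :
    9 * (G.eta * f) ^ 2 < (G.m0 s + 1) * (s / G.a * f) ^ 2 := by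
  have h1 := Nat.le_ceil (9 * G.eta ^ 2 / (s / G.a) ^ 2)
  have h2 : 0 < (s / G.a) ^ 2 := by
    have := hS.s0; have := G.a0; positivity
  rw [div_le_iff₀ h2] at h1
  have hf2 : 0 < f ^ 2 := by positivity
  have h3 : 9 * G.eta ^ 2 < (G.m0 s + 1) * (s / G.a) ^ 2 := by
    unfold m0; linarith
  calc 9 * (G.eta * f) ^ 2 = 9 * G.eta ^ 2 * f ^ 2 := by ring
    _ < (G.m0 s + 1) * (s / G.a) ^ 2 * f ^ 2 := mul_lt_mul_of_pos_right h3 hf2
    _ = _ := by ring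

lemma MM_spec (hS : SepC G r s h) (f : ℝ) (hf : 0 < f) (x : ℝ) (hx0 : 0 ≤ x) (hx : x ≤ G.c5 s * f) :
    x ^ 2 < (G.MM s + 1) * (s / G.a * f) ^ 2 := by
  have h1 := Nat.le_ceil (G.c5 s ^ 2 / (s / G.a) ^ 2)
  have h2 : 0 < (s / G.a) ^ 2 := by
    have := hS.s0; have := G.a0; positivity
  rw [div_le_iff₀ h2] at h1
  have hf2 : 0 < f ^ 2 := by positivity
  have h3 : G.c5 s ^ 2 < (G.MM s + 1) * (s / G.a) ^ 2 := by
    unfold MM; linarith
  calc x ^ 2 ≤ (G.c5 s * f) ^ 2 := pow_le_pow_left₀ hx0 hx 2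
    _ = G.c5 s ^ 2 * f ^ 2 := by ring
    _ < (G.MM s + 1) * (s / G.a) ^ 2 * f ^ 2 := mul_lt_mul_of_pos_right h3 hf2
    _ = _ := by ring

/-- general tube path near a coarse point. -/
lemma tube_near (hS : SepC G r s h) (hb : Big G r N) (hb2 : G.Big2 r s h N) (hA : r ≤ A)
    (hC : G.Good r C A A') {p : Pt} (hp : p ∈ C) (u v : Pt) (hu : u ∈ G.next N C) (hv : v ∈ G.next N C)
    (hseg : ∀ t : ℝ, 0 ≤ t → t ≤ 1 → ‖u.1 + t * (v.1 - u.1) - p.1‖ ≤ 6 * G.R * G.a * G.a ^ p.2) :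
    Relation.ReflTransGen (fun x y => Adj (G.next N C) x y ∧
      (∃ t : ℝ, 0 ≤ t ∧ t ≤ 1 ∧ ‖x.1 - (u.1 + t * (v.1 - u.1))‖ ≤ G.ct s * G.fu N p) ∧
      (∃ t : ℝ, 0 ≤ t ∧ t ≤ 1 ∧ ‖y.1 - (u.1 + t * (v.1 - u.1))‖ ≤ G.ct s * G.fu N p)) u v := by
  have hR := G.hR
  have ha1 := G.a1
  have hf := G.fu_pos N p
  have hap := G.ap p.2
  have hbr := hb.hr
  have hr1 := hb.hr1
  have hRa : 0 < G.R * G.a := mul_pos hR G.a0
  have key := tube_path (X := G.next N C) (d := s / G.a * G.fu N p) (eta := G.eta * G.fu N p)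
    (rho := r / 2 * G.a ^ p.2) (rho' := 6 * G.R * G.a * G.a ^ p.2) p.1
    (by have := hS.s0; have := G.a0; positivity) (mul_pos G.eta_pos hf)
    (fun w hw hwp x hx hxw => fine_sep hS hb (by linarith) hC hp w hw hwp x hx hxw)
    (fun z hz => by
      have hz' : ‖z - p.1‖ ≤ r / 4 * G.a ^ p.2 :=
        hz.trans (mul_le_mul_of_nonneg_right (by nlinarith) hap.le)
      obtain ⟨q, hq, hzq⟩ := fine_cov hb hA hC hp z hz'
      exact ⟨q, hq, hzq⟩)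
    (G.m0 s) (m0_spec hS _ hf) ?_ u v hu hv hseg
  · refine Relation.ReflTransGen.mono ?_ _ _ key
    rintro x y ⟨h1, ⟨t, ht0, ht1, ht⟩, ⟨t', ht0', ht1', ht'⟩⟩
    have e : (3 * (G.m0 s : ℝ) + 1) * (G.eta * G.fu N p) = G.ct s * G.fu N p := by unfold ct; ring
    rw [e] at ht ht'
    exact ⟨h1, ⟨t, ht0, ht1, ht⟩, ⟨t', ht0', ht1', ht'⟩⟩
  · have e : (3 * (G.m0 s : ℝ) + 1) * (G.eta * G.fu N p) = G.ct s * G.fu N p := by unfold ct; ring
    rw [e]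
    have h1 := mul_le_mul_of_nonneg_right hb2.b1 hf.le
    have h2 := G.fu_mul N p
    have h3 : G.R * G.a * G.a ^ N * G.fu N p = G.R * G.a * G.a ^ p.2 := by rw [h2]; ring
    rw [h3] at h1
    have h4 : 7 * (G.R * G.a) * G.a ^ p.2 ≤ r / 2 * G.a ^ p.2 := by
      refine mul_le_mul_of_nonneg_right ?_ hap.le
      nlinarith
    nlinarith

lemma ct_fu_le (hb2 : G.Big2 r s h N) (p : Pt) : G.ct s * G.fu N p ≤ G.R * G.a * G.a ^ p.2 := by
  have h1 := mul_le_mul_of_nonneg_right hb2.b1 (G.fu_pos N p).le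
  have h2 := G.fu_mul N p
  have h3 : G.R * G.a * G.a ^ N * G.fu N p = G.R * G.a * G.a ^ p.2 := by rw [h2]; ring
  rw [h3] at h1
  exact h1

/-- strong points are connected inside Deep -/
lemma deep_path (hS : SepC G r s h) (hb : Big G r N) (hb2 : G.Big2 r s h N) (hA : r ≤ A)
    (hC : G.Good r C A A') {p : Pt} (hp : p ∈ C) (u v : Pt) (hu : u ∈ G.next N C) (hv : v ∈ G.next N C)
    (hsu : Str G N C s p u.1) (hsv : Str G N C s p v.1) :
    Relation.ReflTransGen (fun x y => Adj (G.next N C) x y ∧ x ∈ Deep G N C p ∧ y ∈ Deep G N C p) u v := by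
  have hR := G.hR
  have hRa : 0 < G.R * G.a * G.a ^ p.2 := mul_pos (mul_pos hR G.a0) (G.ap _)
  have key := tube_near hS hb hb2 hA hC hp u v hu hv (fun t ht0 ht1 => by
    have := (str_convex p u.1 v.1 t ht0 ht1 hsu hsv).1
    linarith)
  refine Relation.ReflTransGen.mono ?_ _ _ key
  have hgen : ∀ w : Pt, w ∈ G.next N C →
      (∃ t : ℝ, 0 ≤ t ∧ t ≤ 1 ∧ ‖w.1 - (u.1 + t * (v.1 - u.1))‖ ≤ G.ct s * G.fu N p) →
      w ∈ Deep G N C p := by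
    rintro w hw ⟨t, ht0, ht1, ht⟩
    have hst := str_convex p u.1 v.1 t ht0 ht1 hsu hsv
    refine ⟨hw, ?_, fun x hx hxp _ => ?_⟩
    · have h1 := norm_sub_le_norm_sub_add_norm_sub w.1 (u.1 + t * (v.1 - u.1)) p.1
      have h2 := hst.1
      have h3 := ct_fu_le (G := G) hb2 p
      linarith
    · have h1 := gg_move p.1 x.1 w.1 (u.1 + t * (v.1 - u.1))
      have h2 := hst.2 x hx hxp
      have h3 : 2 * ‖w.1 - (u.1 + t * (v.1 - u.1))‖ * ‖x.1 - p.1‖ ≤ 2 * (G.ct s * G.fu N p) * ‖x.1 - p.1‖ :=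
        mul_le_mul_of_nonneg_right (by linarith) (norm_nonneg _)
      unfold k2 at h2
      linarith
  rintro x y ⟨h1, hx, hy⟩
  exact ⟨h1, hgen x h1.1 hx, hgen y h1.2.1 hy⟩

end Alg
end Pool.Agent.H475R3
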