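import Pool.Agent.H475R3.Par2

set_option autoImplicit false
open Set

namespace Pool.Agent.H475R3
namespace Alg
open TS (sh)
variable {W : Type} [NormedAddCommGroup W] [NormedSpace ℝ W] {G : Alg W}
variable {r A A' s h : ℝ} {C : Cfg} {N : ℕ}

lemma PP_edge (hb : Big G r N) (hA : 0 ≤ A) (hC : G.Good r C A A') {p : Pt} (hp : p ∈ C) (u v : Pt)
    (hu : ‖u.1 - p.1‖ ≤ r / 2 * G.a ^ p.2) (h : Adj (G.next N C) u v) :
    ‖u.1 - v.1‖ ≤ G.e1 * G.fu N p := by
  have hR := G.hR
  have ha := G.a0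
  have h1 := (good_next hb hA hC).adj_len hb.hr4 h
  have h2 := fine_unit_le (G := G) (fine_label hb hC hp h.1 hu)
  have h3 := mul_le_mul_of_nonneg_left h2 (mul_pos (mul_pos two_pos hR) ha).le
  unfold e1
  linarith

lemma c5_pos (hS : SepC G r s h) : 0 < G.c5 s := by
  have h1 := G.eta_pos
  have h2 := G.k2_pos s
  have h3 := hS.s0
  have hR := G.hR
  have ha := G.a0
  unfold c5 c4
  positivity

lemma PP_dist (hS : SepC G r s h) (hb : Big G r N) (hb2 : G.Big2 r s h N) (hA : 0 ≤ A)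
    (hC : G.Good r C A A') (i : ℕ) (hi : i ≤ G.MM s) (q p : Pt) (hPP : PP G N C i q p) :
    ‖q.1 - p.1‖ ≤ 4 * G.R * G.a * G.a ^ p.2 := by
  have hR := G.hR
  have ha1 := G.a1
  have hbr := hb.hr
  have hap := G.ap p.2
  have hf := G.fu_pos N p
  have hfm := G.fu_mul N p
  have he := G.e1_pos
  have hc5 := c5_pos hS
  have hRa : 0 < G.R * G.a := mul_pos hR G.a0
  have hlast : ∀ k : ℕ, k ≤ G.MM s → 3 * G.R * G.a * G.a ^ p.2 + k * (G.e1 * G.fu N p)
      ≤ 4 * G.R * G.a * G.a ^ p.2 := by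
    intro k hk
    have h1 : (k : ℝ) ≤ G.MM s := by exact_mod_cast hk
    have h2 := mul_le_mul_of_nonneg_right hb2.b4 hf.le
    have h4 : (k : ℝ) * (G.e1 * G.fu N p) ≤ (G.MM s + 1) * (G.c5 s + G.e1) * G.fu N p := by
      have h5 : (k : ℝ) * G.e1 ≤ (G.MM s + 1) * (G.c5 s + G.e1) := by
        have h6 : (0 : ℝ) ≤ k := Nat.cast_nonneg _
        have := mul_le_mul (h1.trans (by linarith : (G.MM s : ℝ) ≤ G.MM s + 1))
          (by linarith : G.e1 ≤ G.c5 s + G.e1) he.le (by positivity)
        exact this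
      have := mul_le_mul_of_nonneg_right h5 hf.le
      linarith
    have h3 : G.R * G.a * G.a ^ N * G.fu N p = G.R * G.a * G.a ^ p.2 := by rw [hfm]; ring
    linarith
  have key : ∀ k : ℕ, k ≤ G.MM s → ∀ q, PP G N C k q p →
      ‖q.1 - p.1‖ ≤ 3 * G.R * G.a * G.a ^ p.2 + k * (G.e1 * G.fu N p) := by
    intro k
    induction k with
    | zero =>
      intro _ q hq
      have := hq.2.1.2.1
      simpa using this
    | succ k ih =>
      intro hk q hq
      have hef : 0 < G.e1 * G.fu N p := mul_pos he hf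
      rcases hq with hq | ⟨-, q', hq', hq⟩
      · have := ih (by omega) q hq
        push_cast
        linarith
      · have h1 := ih (by omega) q' hq
        have h2 := hlast k (by omega)
        have h3 : ‖q'.1 - p.1‖ ≤ r / 2 * G.a ^ p.2 := by
          refine (h1.trans h2).trans (mul_le_mul_of_nonneg_right ?_ hap.le)
          nlinarith
        have h4 := PP_edge hb hA hC (PP_C k q' p hq) q' q h3 hq'.1.symm
        have h5 := norm_sub_le_norm_sub_add_norm_sub q.1 q'.1 p.1
        rw [norm_sub_rev q.1 q'.1] at h5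
        push_cast
        linarith
  exact (key i hi q hPP).trans (hlast i hi)

end Alg
end Pool.Agent.H475R3
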