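import Pool.Agent.H475R3.Par3

set_option autoImplicit false
open Set

namespace Pool.Agent.H475R3
namespace Alg
open TS (sh)
variable {W : Type} [NormedAddCommGroup W] [NormedSpace ℝ W] {G : Alg W}
variable {r A A' s h : ℝ} {C : Cfg} {N : ℕ}

lemma k2_one (G : Alg W) (s : ℝ) : 1 ≤ G.k2 s := by have := G.ct_pos s; unfold k2; linarith

lemma str_deep {p : Pt} (u : Pt) (hu : u ∈ G.next N C) (hst : Str G N C s p u.1) : u ∈ Deep G N C p := by
  have hR := G.hR
  have hRa : 0 < G.R * G.a * G.a ^ p.2 := mul_pos (mul_pos hR G.a0) (G.ap _)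
  refine ⟨hu, ?_, fun x hx hxp _ => ?_⟩
  · have := hst.1; linarith
  · have h1 := hst.2 x hx hxp
    have h2 := mul_le_mul_of_nonneg_right (k2_one G s) (mul_nonneg (G.fu_pos N p).le (norm_nonneg (x.1 - p.1)))
    linarith

lemma eta_fu (hS : SepC G r s h) (hb2 : G.Big2 r s h N) (p : Pt) :
    8 * (G.eta * G.fu N p) ≤ s * G.a ^ p.2 := by
  have h1 := mul_le_mul_of_nonneg_right hb2.b6 (G.fu_pos N p).le
  have hfm := G.fu_mul N p
  have hf := G.fu_pos N p
  have he := G.e1_pos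
  have hct := G.ct_pos s
  have hM : (0 : ℝ) ≤ G.MM s := Nat.cast_nonneg _
  have h2 : s * G.a ^ N * G.fu N p = s * G.a ^ p.2 := by rw [hfm]; ring
  rw [h2] at h1
  have h3 : 0 ≤ G.MM s * G.e1 * G.fu N p := by positivity
  have h4 : 0 ≤ G.ct s * G.fu N p := by positivity
  linarith

lemma near_str (hS : SepC G r s h) (hb : Big G r N) (hb2 : G.Big2 r s h N) (hC : G.Good r C A A')
    (hsR : s ≤ G.R * G.a) {p : Pt} (hp : p ∈ C) (y : ℂ) (hy : ‖y - p.1‖ ≤ s / 4 * G.a ^ p.2) :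
    Str G N C s p y := by
  refine str_near hS hb hb2 hC hp y hy (hy.trans (mul_le_mul_of_nonneg_right ?_ (G.ap _).le))
  have := hS.s0
  linarith

/-- the seed of the core -/
lemma exists_seed (hS : SepC G r s h) (hb : Big G r N) (hb2 : G.Big2 r s h N) (hA : r ≤ A)
    (hC : G.Good r C A A') (hsR : s ≤ G.R * G.a) {p : Pt} (hp : p ∈ C) :
    ∃ q0 ∈ G.next N C, ‖q0.1 - p.1‖ ≤ G.eta * G.fu N p ∧ Str G N C s p q0.1 := by
  have hr1 := hb.hr1
  obtain ⟨q0, hq0, hd⟩ := fine_cov hb hA hC hp p.1 (by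
    rw [sub_self, norm_zero]; have := G.ap p.2; positivity)
  rw [norm_sub_rev] at hd
  refine ⟨q0, hq0, hd, near_str hS hb hb2 hC hsR hp _ ?_⟩
  have h1 := eta_fu hS hb2 p
  have h2 : ‖q0.1 - p.1‖ ≤ G.eta * G.fu N p := hd
  have h3 : 0 < s * G.a ^ p.2 := mul_pos hS.s0 (G.ap _)
  linarith

lemma str_core (hS : SepC G r s h) (hb : Big G r N) (hb2 : G.Big2 r s h N) (hA : r ≤ A)
    (hC : G.Good r C A A') (hsR : s ≤ G.R * G.a) {p : Pt} (hp : p ∈ C) (u : Pt)
    (hu : u ∈ G.next N C) (hst : Str G N C s p u.1) : u ∈ Core G N C p := by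
  obtain ⟨q0, hq0, hd, hst0⟩ := exists_seed hS hb hb2 hA hC hsR hp
  exact ⟨str_deep u hu hst, q0, str_deep q0 hq0 hst0, hd, deep_path hS hb hb2 hA hC hp q0 u hq0 hu hst0 hst⟩

lemma near_PP (hS : SepC G r s h) (hb : Big G r N) (hb2 : G.Big2 r s h N) (hA : r ≤ A)
    (hC : G.Good r C A A') (hsR : s ≤ G.R * G.a) {p : Pt} (hp : p ∈ C) (u : Pt)
    (hu : u ∈ G.next N C) (hd : ‖u.1 - p.1‖ ≤ s / 4 * G.a ^ p.2) (i : ℕ) : PP G N C i u p := by
  have h0 : PP G N C 0 u p := ⟨hp, str_core hS hb hb2 hA hC hsR hp u hu (near_str hS hb hb2 hC hsR hp _ hd)⟩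
  have := PP_mono 0 i u p h0
  rwa [zero_add] at this

lemma exists_nearest (hb : Big G r N) (hC : G.Good r C A A') (z : ℂ) (hz : z ≠ 0) :
    ∃ p ∈ C, (∀ x ∈ C, ‖z - p.1‖ ≤ ‖z - x.1‖) ∧ ‖z - p.1‖ ≤ G.R * G.a * G.a ^ p.2 := by
  have hR := G.hR
  have hr1 := hb.hr1
  have hr4 := hb.hr4
  obtain ⟨x0, hx0, hd0⟩ := hC.g5 z hz
  have hfin : {x | x ∈ C ∧ ‖z - x.1‖ ≤ ‖z - x0.1‖}.Finite := by
    refine (hC.near_finite (by linarith) hx0).subset ?_
    rintro x ⟨hx, hxd⟩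
    refine ⟨hx, ?_⟩
    have h1 := norm_sub_le_norm_sub_add_norm_sub x0.1 z x.1
    rw [norm_sub_rev x0.1 z] at h1
    have h2 : G.a ^ x0.2 ≤ max (G.a ^ x0.2) (G.a ^ x.2) := le_max_left _ _
    have h3 := G.ap x0.2
    nlinarith
  obtain ⟨p, ⟨hp, hpd⟩, hmin⟩ := Set.exists_min_image _ (fun x : Pt => ‖z - x.1‖) hfin ⟨x0, hx0, le_rfl⟩
  have hall : ∀ x ∈ C, ‖z - p.1‖ ≤ ‖z - x.1‖ := by
    intro x hx
    by_cases hxx : ‖z - x.1‖ ≤ ‖z - x0.1‖
    · exact hmin x ⟨hx, hxx⟩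
    · push Not at hxx
      linarith
  refine ⟨p, hp, hall, ?_⟩
  have hnear : ‖p.1 - x0.1‖ ≤ r * max (G.a ^ p.2) (G.a ^ x0.2) := by
    have h1 := norm_sub_le_norm_sub_add_norm_sub p.1 z x0.1
    rw [norm_sub_rev p.1 z] at h1
    have h2 : G.a ^ x0.2 ≤ max (G.a ^ p.2) (G.a ^ x0.2) := le_max_right _ _
    have h3 := G.ap x0.2
    nlinarith
  have hl := (hC.g6 p hp x0 hx0 hnear).1
  have h5 : G.a ^ x0.2 ≤ G.a * G.a ^ p.2 := G.zpow_le_succ (by rw [abs_le] at hl; omega)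
  have h6 := mul_le_mul_of_nonneg_left h5 hR.le
  linarith

theorem PP_total (hS : SepC G r s h) (hb : Big G r N) (hb2 : G.Big2 r s h N) (hA : r ≤ A)
    (hC : G.Good r C A A') (hsR : s ≤ G.R * G.a) (q : Pt) (hq : q ∈ G.next N C) :
    ∃ p, PP G N C (G.MM s) q p := by
  have hR := G.hR
  have ha0 := G.a0
  have ha1 := G.a1
  have hr1 := hb.hr1
  have hbr := hb.hr
  have hs0 := hS.s0
  have hRa : 0 < G.R * G.a := mul_pos hR G.a0
  have hGn := good_next hb (by linarith) hC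
  have hq0 : q.1 ≠ 0 := by
    intro h0
    have := hGn.g4 q hq
    rw [h0, norm_zero] at this
    have h1 := G.ap q.2
    have h2 : 0 < A * G.a ^ N + 2 * G.R := by
      have : 0 < A * G.a ^ N := mul_pos (by linarith) (pow_pos G.a0 N)
      linarith
    nlinarith [mul_pos h2 h1]
  obtain ⟨p, hp, hnear, hpd⟩ := exists_nearest hb hC q.1 hq0
  have hap := G.ap p.2
  have hf := G.fu_pos N p
  have hfm := G.fu_mul N p
  have haN : 0 < G.a ^ N := pow_pos ha0 N
  have hc4 : 0 < G.c4 s := by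
    have h1 := G.eta_pos
    have h2 := G.k2_pos s
    unfold c4; positivity
  set t : ℝ := G.c4 s / G.a ^ N with ht
  have ht0 : 0 < t := by positivity
  have ht1 : t ≤ 1 := by rw [ht, div_le_one haN]; exact hb2.b3
  set z : ℂ := q.1 + t * (p.1 - q.1) with hz
  have hzp : z - p.1 = ((1 - t : ℝ) : ℂ) * (q.1 - p.1) := by rw [hz]; push_cast; ring
  have hzpn : ‖z - p.1‖ ≤ G.R * G.a * G.a ^ p.2 := by
    rw [hzp, norm_mul, Complex.norm_real, Real.norm_of_nonneg (by linarith)]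
    have := norm_nonneg (q.1 - p.1)
    nlinarith
  obtain ⟨y, hy, hyz⟩ := fine_cov hb hA hC hp z (hzpn.trans (mul_le_mul_of_nonneg_right (by nlinarith) hap.le))
  have heta : G.R * G.a * G.fu N p = G.eta * G.fu N p := rfl
  rw [heta] at hyz
  have hctf := ct_fu_le (G := G) hb2 p
  have hect := mul_le_mul_of_nonneg_right (G.eta_le_ct s) hf.le
  have hst : Str G N C s p y.1 := by
    refine ⟨?_, fun x hx hxp => ?_⟩
    · have h1 := norm_sub_le_norm_sub_add_norm_sub y.1 z p.1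
      rw [norm_sub_rev y.1 z] at h1
      linarith
    · have h1 := gg_move p.1 x.1 y.1 z
      have h2 : gg p.1 x.1 z = (1 - t) * gg p.1 x.1 q.1 + t * gg p.1 x.1 p.1 := gg_affine _ _ _ _ _
      have h3 : 0 ≤ gg p.1 x.1 q.1 := by
        unfold gg
        have := pow_le_pow_left₀ (norm_nonneg _) (hnear x hx) 2
        linarith
      have h4 : gg p.1 x.1 p.1 = ‖x.1 - p.1‖ ^ 2 := by
        unfold gg; rw [sub_self, norm_zero, norm_sub_rev p.1 x.1]; ring
      have h5 := hC.sep hS hr1 hp hx hxp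
      rw [norm_sub_rev] at h5
      have h6 : (G.k2 s + 2 * G.eta) * G.fu N p * ‖x.1 - p.1‖ ≤ t * ‖x.1 - p.1‖ ^ 2 := by
        have e : (G.k2 s + 2 * G.eta) * G.fu N p = t * (s * G.a ^ p.2) := by
          rw [ht, hfm]; unfold c4; field_simp
        rw [e]
        calc t * (s * G.a ^ p.2) * ‖x.1 - p.1‖ ≤ t * ‖x.1 - p.1‖ * ‖x.1 - p.1‖ :=
              mul_le_mul_of_nonneg_right (mul_le_mul_of_nonneg_left h5 ht0.le) (norm_nonneg (x.1 - p.1))
          _ = _ := by ring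
      rw [norm_sub_rev y.1 z] at h1
      have h7 : 2 * ‖z - y.1‖ * ‖x.1 - p.1‖ ≤ 2 * (G.eta * G.fu N p) * ‖x.1 - p.1‖ :=
        mul_le_mul_of_nonneg_right (by linarith) (norm_nonneg _)
      have h8 : 0 ≤ (1 - t) * gg p.1 x.1 q.1 := mul_nonneg (by linarith) h3
      rw [h2, h4] at h1
      linarith
  have hcore := str_core hS hb hb2 hA hC hsR hp y hy hst
  have hqy : ‖q.1 - y.1‖ ≤ G.c5 s * G.fu N p := by
    have h1 := norm_sub_le_norm_sub_add_norm_sub q.1 z y.1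
    have h2 : ‖q.1 - z‖ ≤ t * (G.R * G.a * G.a ^ p.2) := by
      have e : q.1 - z = ((t : ℝ) : ℂ) * (q.1 - p.1) := by rw [hz]; ring
      rw [e, norm_mul, Complex.norm_real, Real.norm_of_nonneg ht0.le]
      exact mul_le_mul_of_nonneg_left hpd ht0.le
    have h3 : t * (G.R * G.a * G.a ^ p.2) = G.c4 s * (G.R * G.a) * G.fu N p := by
      rw [ht, hfm]; field_simp
    have h4 : G.c5 s * G.fu N p = G.c4 s * (G.R * G.a) * G.fu N p + G.eta * G.fu N p := by
      unfold c5; ring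
    linarith
  have hc5 := c5_pos hS
  have hspread := gab_spread (X := G.next N C) (d := s / G.a * G.fu N p) (L := G.c5 s * G.fu N p)
    (rho := r / 2 * G.a ^ p.2) p.1 (by positivity) (by positivity)
    (fun w hw hwp x hx hxw => fine_sep hS hb (by linarith) hC hp w hw hwp x hx hxw)
    (fun i u => ∃ x, PP G N C i u x) (fun i u ⟨x, hx⟩ => ⟨x, Or.inl hx⟩)
    (fun i u v huv hv => PP_step i u v huv hv) (G.MM s) 0 q y hq hy
    (MM_spec hS _ hf _ (norm_nonneg (q.1 - y.1)) hqy) hqy ?_ ⟨p, hp, hcore⟩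
  · simpa using hspread
  · have h1 := mul_le_mul_of_nonneg_right hb2.b4 hf.le
    have h3 : G.R * G.a * G.a ^ N * G.fu N p = G.R * G.a * G.a ^ p.2 := by rw [hfm]; ring
    rw [h3] at h1
    have he := G.e1_pos
    have hM : (0 : ℝ) ≤ G.MM s := Nat.cast_nonneg _
    have h4 : (G.MM s : ℝ) * (G.c5 s * G.fu N p) ≤ (G.MM s + 1) * (G.c5 s + G.e1) * G.fu N p := by
      have h5 : (G.MM s : ℝ) * G.c5 s ≤ (G.MM s + 1) * (G.c5 s + G.e1) := by nlinarith
      have := mul_le_mul_of_nonneg_right h5 hf.le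
      linarith
    have h6 : 2 * (G.R * G.a) * G.a ^ p.2 ≤ r / 2 * G.a ^ p.2 :=
      mul_le_mul_of_nonneg_right (by nlinarith) hap.le
    linarith

lemma PP_exists (hS : SepC G r s h) (hb : Big G r N) (hb2 : G.Big2 r s h N) (hA : r ≤ A)
    (hC : G.Good r C A A') (hsR : s ≤ G.R * G.a) {p : Pt} (hp : p ∈ C) (i : ℕ) :
    ∃ q, PP G N C i q p := by
  obtain ⟨q0, hq0, hd, hst⟩ := exists_seed hS hb hb2 hA hC hsR hp
  have h0 : PP G N C 0 q0 p := ⟨hp, str_core hS hb hb2 hA hC hsR hp q0 hq0 hst⟩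
  refine ⟨q0, ?_⟩
  have := PP_mono 0 i q0 p h0
  rwa [zero_add] at this

lemma deep_to_core {p q0 v : Pt} (hq0 : q0 ∈ Deep G N C p) (hd : ‖q0.1 - p.1‖ ≤ G.eta * G.fu N p)
    (h : Relation.ReflTransGen (fun u v => Adj (G.next N C) u v ∧ u ∈ Deep G N C p ∧ v ∈ Deep G N C p) q0 v) :
    v ∈ Core G N C p ∧
      Relation.ReflTransGen (fun u v => Adj (G.next N C) u v ∧ u ∈ Core G N C p ∧ v ∈ Core G N C p) q0 v := by
  induction h with
  | refl => exact ⟨⟨hq0, q0, hq0, hd, Relation.ReflTransGen.refl⟩, Relation.ReflTransGen.refl⟩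
  | tail h1 h2 ih =>
    have hc : _ ∈ Core G N C p := ⟨h2.2.2, q0, hq0, hd, h1.tail h2⟩
    exact ⟨hc, ih.2.tail ⟨h2.1, ih.1, hc⟩⟩

lemma adj_rtg_symm {P : Pt → Prop} {X : Set Pt} {u v : Pt}
    (h : Relation.ReflTransGen (fun x y => Adj X x y ∧ P x ∧ P y) u v) :
    Relation.ReflTransGen (fun x y => Adj X x y ∧ P x ∧ P y) v u := by
  induction h with
  | refl => exact Relation.ReflTransGen.refl
  | tail h1 h2 ih => exact Relation.ReflTransGen.head ⟨h2.1.symm, h2.2.2, h2.2.1⟩ ih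

lemma core_conn (hS : SepC G r s h) (hb : Big G r N) (hb2 : G.Big2 r s h N) (hA : r ≤ A)
    (hC : G.Good r C A A') (hsR : s ≤ G.R * G.a) {p : Pt} (hp : p ∈ C) (u v : Pt)
    (hu : u ∈ Core G N C p) (hv : v ∈ Core G N C p) :
    Relation.ReflTransGen (fun x y => Adj (G.next N C) x y ∧ x ∈ Core G N C p ∧ y ∈ Core G N C p) u v := by
  obtain ⟨-, u0, hu0, hud, hpu⟩ := hu
  obtain ⟨-, v0, hv0, hvd, hpv⟩ := hv
  have h1 := adj_rtg_symm (deep_to_core hu0 hud hpu).2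
  have h2 := (deep_to_core hv0 hvd hpv).2
  have hstr : ∀ w : Pt, ‖w.1 - p.1‖ ≤ G.eta * G.fu N p → Str G N C s p w.1 := by
    intro w hw
    refine near_str hS hb hb2 hC hsR hp _ ?_
    have h1 := eta_fu hS hb2 p
    have h3 : 0 < s * G.a ^ p.2 := mul_pos hS.s0 (G.ap _)
    linarith
  have h3 := deep_path hS hb hb2 hA hC hp u0 v0 hu0.1 hv0.1 (hstr _ hud) (hstr _ hvd)
  exact (h1.trans (deep_to_core hu0 hud h3).2).trans h2

theorem PP_conn (hS : SepC G r s h) (hb : Big G r N) (hb2 : G.Big2 r s h N) (hA : r ≤ A)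
    (hC : G.Good r C A A') (hsR : s ≤ G.R * G.a) {p : Pt} (i : ℕ) (u v : Pt)
    (hu : PP G N C i u p) (hv : PP G N C i v p) :
    Relation.ReflTransGen (fun x y => Adj (G.next N C) x y ∧ PP G N C i x p ∧ PP G N C i y p) u v := by
  have hp := PP_C i u p hu
  have hcorePP : ∀ x, x ∈ Core G N C p → PP G N C i x p := by
    intro x hx
    have := PP_mono 0 i x p ⟨hp, hx⟩
    rwa [zero_add] at this
  have key : ∀ k ≤ i, ∀ w, PP G N C k w p → ∃ w0 ∈ Core G N C p,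
      Relation.ReflTransGen (fun x y => Adj (G.next N C) x y ∧ PP G N C i x p ∧ PP G N C i y p) w w0 := by
    intro k
    induction k with
    | zero => intro _ w hw; exact ⟨w, hw.2, Relation.ReflTransGen.refl⟩
    | succ k ih =>
      intro hk w hw
      have hwi : PP G N C i w p := by
        have := PP_mono (k + 1) (i - (k + 1)) w p hw
        have e : k + 1 + (i - (k + 1)) = i := by omega
        rwa [e] at this
      rcases hw with hw | ⟨-, q', hq', hw⟩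
      · exact ih (by omega) w hw
      · obtain ⟨w0, hw0, hpath⟩ := ih (by omega) q' hw
        have hq'i : PP G N C i q' p := by
          have := PP_mono k (i - k) q' p hw
          have e : k + (i - k) = i := by omega
          rwa [e] at this
        exact ⟨w0, hw0, Relation.ReflTransGen.head ⟨hq'.1, hwi, hq'i⟩ hpath⟩
  obtain ⟨u0, hu0, pu⟩ := key i le_rfl u hu
  obtain ⟨v0, hv0, pv⟩ := key i le_rfl v hv
  have hmid := core_conn hS hb hb2 hA hC hsR hp u0 v0 hu0 hv0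
  have hmid' : Relation.ReflTransGen (fun x y => Adj (G.next N C) x y ∧ PP G N C i x p ∧ PP G N C i y p) u0 v0 := by
    refine Relation.ReflTransGen.mono ?_ _ _ hmid
    rintro x y ⟨h1, h2, h3⟩
    exact ⟨h1, hcorePP x h2, hcorePP y h3⟩
  exact (pu.trans hmid').trans (adj_rtg_symm pv)

/-- every child is close to a deep point. -/
lemma PP_deep (hS : SepC G r s h) (hb : Big G r N) (hb2 : G.Big2 r s h N) (hA : 0 ≤ A)
    (hC : G.Good r C A A') (i : ℕ) (hi : i ≤ G.MM s) (q p : Pt) (hPP : PP G N C i q p) :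
    ∃ v ∈ Deep G N C p, ‖q.1 - v.1‖ ≤ i * (G.e1 * G.fu N p) := by
  have hR := G.hR
  have ha1 := G.a1
  have hbr := hb.hr
  have hap := G.ap p.2
  induction i generalizing q with
  | zero => exact ⟨q, hPP.2.1, by simp⟩
  | succ k ih =>
    have hef : 0 < G.e1 * G.fu N p := mul_pos G.e1_pos (G.fu_pos N p)
    rcases hPP with hq | ⟨-, q', hq', hq⟩
    · obtain ⟨v, hv, hd⟩ := ih (by omega) q hq
      refine ⟨v, hv, ?_⟩
      push_cast
      linarith
    · obtain ⟨v, hv, hd⟩ := ih (by omega) q' hq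
      refine ⟨v, hv, ?_⟩
      have h2 := PP_dist hS hb hb2 hA hC k (by omega) q' p hq
      have h3 : ‖q'.1 - p.1‖ ≤ r / 2 * G.a ^ p.2 := by
        refine h2.trans (mul_le_mul_of_nonneg_right ?_ hap.le)
        nlinarith
      have h4 := PP_edge hb hA hC (PP_C k q' p hq) q' q h3 hq'.1.symm
      rw [norm_sub_rev] at h4
      have h5 := norm_sub_le_norm_sub_add_norm_sub q.1 q'.1 v.1
      push_cast
      linarith

end Alg
end Pool.Agent.H475R3
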