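import Pool.Agent.H475R3.Par4

set_option autoImplicit false
open Set

namespace Pool.Agent.H475R3

lemma sep_finite (S : Set Pt) (c : ℂ) (ρ δ : ℝ) (hδ : 0 < δ) (h1 : ∀ q ∈ S, ‖q.1 - c‖ ≤ ρ)
    (h2 : ∀ q ∈ S, ∀ q' ∈ S, q ≠ q' → δ ≤ ‖q.1 - q'.1‖) : S.Finite := by
  have hK : TotallyBounded (Metric.closedBall c ρ) := (isCompact_closedBall c ρ).totallyBounded
  obtain ⟨t, ht, hcov⟩ := Metric.totallyBounded_iff.1 hK (δ / 2) (by linarith)
  have hex : ∀ q ∈ S, ∃ y ∈ t, ‖q.1 - y‖ < δ / 2 := by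
    intro q hq
    have hq' : q.1 ∈ Metric.closedBall c ρ := by
      rw [mem_closedBall_iff_norm]; exact h1 q hq
    have := hcov hq'
    simp only [mem_iUnion, Metric.mem_ball, exists_prop] at this
    obtain ⟨y, hy, hd⟩ := this
    exact ⟨y, hy, by rwa [dist_eq_norm] at hd⟩
  choose! f hf hfd using hex
  refine Set.Finite.of_finite_image (f := f) (ht.subset ?_) ?_
  · rintro _ ⟨q, hq, rfl⟩
    exact hf q hq
  · intro q hq q' hq' he
    by_contra hne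
    have h3 := h2 q hq q' hq' hne
    have h4 := hfd q hq
    have h5 := hfd q' hq'
    rw [← he, norm_sub_rev] at h5
    have h6 := norm_sub_le_norm_sub_add_norm_sub q.1 (f q) q'.1
    linarith

namespace Alg
open TS (sh)
variable {W : Type} [NormedAddCommGroup W] [NormedSpace ℝ W] {G : Alg W}
variable {r A A' s h : ℝ} {C : Cfg} {N : ℕ}

noncomputable def Dl (G : Alg W) (s : ℝ) : ℝ := G.ct s + G.eta + G.MM s * G.e1 * G.a

lemma Dl_pos (G : Alg W) (s : ℝ) : 0 < G.Dl s := by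
  have h1 := G.ct_pos s
  have h2 := G.eta_pos
  have h3 : (0 : ℝ) ≤ G.MM s := Nat.cast_nonneg _
  have h4 := G.e1_pos
  have h5 := G.a0
  unfold Dl; positivity

/-- third list of numerical requirements -/
structure Big3 (G : Alg W) (s h : ℝ) (N : ℕ) : Prop where
  c1 : 100 * (G.R * G.a ^ 2) * G.Dl s ≤ h * G.a ^ N
  c2 : 8 * G.a * G.Dl s ≤ s * G.a ^ N
  c3 : s ≤ G.R * G.a
  c4 : 100 * (G.R * G.a ^ 4) ≤ s * G.a ^ N
  c5 : 2 * G.a ≤ G.a ^ N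
  c6 : 3 ≤ N

lemma PP_label (hS : SepC G r s h) (hb : Big G r N) (hb2 : G.Big2 r s h N) (hA : 0 ≤ A)
    (hC : G.Good r C A A') (i : ℕ) (hi : i ≤ G.MM s) (q p : Pt) (hPP : PP G N C i q p) :
    |q.2 + N - p.2| ≤ 1 := by
  have hR := G.hR
  have ha1 := G.a1
  have hbr := hb.hr
  refine fine_label hb hC (PP_C i q p hPP) (PP_next i q p hPP)
    ((PP_dist hS hb hb2 hA hC i hi q p hPP).trans (mul_le_mul_of_nonneg_right ?_ (G.ap _).le))
  nlinarith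

lemma num_final (t X X' D s h P a R2 δ : ℝ) (ht0 : 0 ≤ t) (ht1 : t ≤ 1) (hX0 : 0 ≤ X) (hX'0 : 0 ≤ X')
    (hP : 0 < P) (hs0 : 0 < s) (hh0 : 0 < h) (ha : 1 < a) (hR2 : 0 < R2) (hδ : 0 < δ)
    (k1 : -(2 * δ * X) ≤ -((1 - t) * X ^ 2) - t * X' ^ 2 + t * D ^ 2)
    (k2 : -(2 * δ * X') ≤ -((1 - t) * X ^ 2) - t * X' ^ 2 + (1 - t) * D ^ 2)
    (hm : D ^ 2 + h * P ^ 2 ≤ X ^ 2 + X' ^ 2) (hsX : s * P ≤ X) (hsX' : s * P ≤ a * X')
    (hc2 : 8 * a * δ ≤ s * P) (hc1 : 100 * R2 * δ ≤ h * P) (hX : X ≤ 10 * R2 * P) (hX' : X' ≤ 10 * R2 * P) :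
    False := by
  have hsP : 0 < s * P := mul_pos hs0 hP
  have hhP : 0 < h * P ^ 2 := by positivity
  have hbig : ∀ Z : ℝ, Z ≤ 10 * R2 * P → 2 * δ * Z < h * P ^ 2 / 4 := by
    intro Z hZ
    have h1 : 2 * δ * Z ≤ 2 * δ * (10 * R2 * P) := mul_le_mul_of_nonneg_left hZ (by positivity)
    have h2 : 100 * R2 * δ * P ≤ h * P * P := mul_le_mul_of_nonneg_right hc1 hP.le
    have h3 : 0 < R2 * δ * P := by positivity
    nlinarith
  have hpos : 0 ≤ X ^ 2 + X' ^ 2 - D ^ 2 := by linarith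
  by_cases ht : t ≤ 1 / 2
  · by_cases ht4 : t < 1 / 4
    · have h0 : 0 ≤ t * (X ^ 2 + X' ^ 2 - D ^ 2) := mul_nonneg ht0 hpos
      have h1 : (1 - 2 * t) * X ^ 2 ≤ 2 * δ * X := by linarith
      have h2 : 1 / 2 * X ^ 2 ≤ (1 - 2 * t) * X ^ 2 :=
        mul_le_mul_of_nonneg_right (by linarith) (sq_nonneg X)
      have hXpos : 0 < X := lt_of_lt_of_le hsP hsX
      have h3 : X ≤ 4 * δ := by
        have h4 : X * X ≤ 4 * δ * X := by linarith
        exact le_of_mul_le_mul_right h4 hXpos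
      nlinarith
    · push Not at ht4
      have h5 : t * (h * P ^ 2) ≤ t * (X ^ 2 + X' ^ 2 - D ^ 2) :=
        mul_le_mul_of_nonneg_left (by linarith) ht0
      have h6 : 0 ≤ (1 - 2 * t) * X ^ 2 := mul_nonneg (by linarith) (sq_nonneg X)
      have h1 : t * (h * P ^ 2) ≤ 2 * δ * X := by linarith
      have h2 := hbig X hX
      have h3 : 1 / 4 * (h * P ^ 2) ≤ t * (h * P ^ 2) := mul_le_mul_of_nonneg_right ht4 hhP.le
      linarith
  · push Not at ht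
    by_cases ht4 : 3 / 4 < t
    · have h0 : 0 ≤ (1 - t) * (X ^ 2 + X' ^ 2 - D ^ 2) := mul_nonneg (by linarith) hpos
      have h1 : (2 * t - 1) * X' ^ 2 ≤ 2 * δ * X' := by linarith
      have h2 : 1 / 2 * X' ^ 2 ≤ (2 * t - 1) * X' ^ 2 :=
        mul_le_mul_of_nonneg_right (by linarith) (sq_nonneg X')
      have hXpos : 0 < X' := by
        by_contra hc
        have : X' = 0 := le_antisymm (not_lt.1 hc) hX'0
        rw [this, mul_zero] at hsX'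
        linarith
      have h3 : X' ≤ 4 * δ := by
        have h4 : X' * X' ≤ 4 * δ * X' := by linarith
        exact le_of_mul_le_mul_right h4 hXpos
      have h4 := mul_le_mul_of_nonneg_left h3 (by linarith : 0 ≤ a)
      have h5 : 0 < a * δ := by positivity
      linarith
    · push Not at ht4
      have h5 : (1 - t) * (h * P ^ 2) ≤ (1 - t) * (X ^ 2 + X' ^ 2 - D ^ 2) :=
        mul_le_mul_of_nonneg_left (by linarith) (by linarith)
      have h6 : 0 ≤ (2 * t - 1) * X' ^ 2 := mul_nonneg (by linarith) (sq_nonneg X')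
      have h1 : (1 - t) * (h * P ^ 2) ≤ 2 * δ * X' := by linarith
      have h2 := hbig X' hX'
      have h3 : 1 / 4 * (h * P ^ 2) ≤ (1 - t) * (h * P ^ 2) :=
        mul_le_mul_of_nonneg_right (by linarith) hhP.le
      linarith

/-- the quantitative Gabriel margin -/
lemma margin (hS : SepC G r s h) (hr0 : 0 ≤ r) (hC : G.Good r C A A') {p p' x : Pt} (hadj : Adj C p p')
    (hDr : ‖p.1 - p'.1‖ ≤ r * max (G.a ^ p.2) (G.a ^ p'.2)) (hx : x ∈ C) (hxp : x ≠ p) (hxp' : x ≠ p')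
    (hnear : ‖p.1 - x.1‖ ≤ r * max (G.a ^ p.2) (G.a ^ x.2)) :
    ‖p.1 - p'.1‖ ^ 2 + h * (G.a ^ p.2) ^ 2 ≤ ‖x.1 - p.1‖ ^ 2 + ‖x.1 - p'.1‖ ^ 2 := by
  obtain ⟨hp, hp', hpp', hall⟩ := id hadj
  have hu1 := hC.diffDD hr0 hp hp' hDr
  have hv1 := hC.diffDD hr0 hp hx hnear
  have hh := hS.hh _ hu1 _ hv1
  have e1 : G.lam ^ (-p.2) * (p.1 - p'.1) - G.lam ^ (-p.2) * (p.1 - x.1)
      = G.lam ^ (-p.2) * (x.1 - p'.1) := by ring
  rw [e1] at hh
  have n1 := norm_norm G p.2 (p.1 - p'.1)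
  have n2 := norm_norm G p.2 (p.1 - x.1)
  have n3 := norm_norm G p.2 (x.1 - p'.1)
  rw [norm_sub_rev p.1 x.1] at n2
  have hlt := hall x hx hxp hxp'
  generalize ‖G.lam ^ (-p.2) * (p.1 - p'.1)‖ = U at *
  generalize ‖G.lam ^ (-p.2) * (p.1 - x.1)‖ = V at *
  generalize ‖G.lam ^ (-p.2) * (x.1 - p'.1)‖ = Y at *
  rw [← n1, ← n2, ← n3] at hlt
  have hap2 : 0 < (G.a ^ p.2) ^ 2 := pow_pos (G.ap _) 2
  have hlt2 : U ^ 2 < V ^ 2 + Y ^ 2 := by
    by_contra hc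
    push Not at hc
    have := mul_le_mul_of_nonneg_right hc hap2.le
    linarith
  have h3 := mul_le_mul_of_nonneg_right (hh hlt2) hap2.le
  rw [← n1, ← n2, ← n3]
  linarith

lemma seg_child (hS : SepC G r s h) (hb : Big G r N) (hb2 : G.Big2 r s h N) (hb3 : Big3 G s h N)
    (hA : 0 ≤ A) (hC : G.Good r C A A') {p p' : Pt} (hadj : Adj C p p') (u x : Pt) (t : ℝ)
    (ht0 : 0 ≤ t) (ht1 : t ≤ 1)
    (hut : ‖u.1 - (p.1 + t * (p'.1 - p.1))‖ ≤ (G.ct s + G.eta) * G.fu N p)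
    (hPP : PP G N C (G.MM s) u x) : x = p ∨ x = p' := by
  by_contra hcon
  push Not at hcon
  obtain ⟨hxp, hxp'⟩ := hcon
  obtain ⟨hp, hp', hpp', hall⟩ := id hadj
  have hx := PP_C _ u x hPP
  have hR := G.hR
  have ha1 := G.a1
  have ha0 := G.a0
  have hr1 := hb.hr1
  have hbr := hb.hr
  have hs0 := hS.s0
  have hRa : 0 < G.R * G.a := mul_pos hR G.a0
  have hap := G.ap p.2
  have hf := G.fu_pos N p
  have hfm := G.fu_mul N p
  have haN : 0 < G.a ^ N := pow_pos ha0 N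
  have hDl := G.Dl_pos s
  have he1 := G.e1_pos
  have hMM : (0 : ℝ) ≤ G.MM s := Nat.cast_nonneg _
  obtain ⟨z, hz⟩ : ∃ z : ℂ, z = p.1 + t * (p'.1 - p.1) := ⟨_, rfl⟩
  rw [← hz] at hut
  have hD := hC.adj_len hb.hr4 hadj
  have hzp : ‖z - p.1‖ ≤ 2 * G.R * G.a * G.a ^ p.2 := by
    have e : z - p.1 = ((t : ℝ) : ℂ) * (p'.1 - p.1) := by rw [hz]; ring
    rw [e, norm_mul, Complex.norm_real, Real.norm_of_nonneg ht0, norm_sub_rev p'.1 p.1]
    have := norm_nonneg (p.1 - p'.1)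
    nlinarith
  have hctf := ct_fu_le (G := G) hb2 p
  have hect := mul_le_mul_of_nonneg_right (G.eta_le_ct s) hf.le
  have hup : ‖u.1 - p.1‖ ≤ 4 * G.R * G.a * G.a ^ p.2 := by
    have := norm_sub_le_norm_sub_add_norm_sub u.1 z p.1
    linarith
  have hux := PP_dist hS hb hb2 hA hC _ le_rfl u x hPP
  have hm1 : G.a ^ p.2 ≤ max (G.a ^ p.2) (G.a ^ x.2) := le_max_left _ _
  have hm2 : G.a ^ x.2 ≤ max (G.a ^ p.2) (G.a ^ x.2) := le_max_right _ _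
  have hpx0 : ‖p.1 - x.1‖ ≤ 4 * G.R * G.a * G.a ^ p.2 + 4 * G.R * G.a * G.a ^ x.2 := by
    have := norm_sub_le_norm_sub_add_norm_sub p.1 u.1 x.1
    rw [norm_sub_rev p.1 u.1] at this
    linarith
  have hnear : ‖p.1 - x.1‖ ≤ r * max (G.a ^ p.2) (G.a ^ x.2) := by
    have h1 : 4 * G.R * G.a * G.a ^ p.2 + 4 * G.R * G.a * G.a ^ x.2
        ≤ 8 * (G.R * G.a) * max (G.a ^ p.2) (G.a ^ x.2) := by nlinarith
    have h2 : 8 * (G.R * G.a) * max (G.a ^ p.2) (G.a ^ x.2) ≤ r * max (G.a ^ p.2) (G.a ^ x.2) :=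
      mul_le_mul_of_nonneg_right (by nlinarith) (lt_max_of_lt_left hap).le
    linarith
  have hl := (hC.g6 p hp x hx hnear).1
  have hlx : G.a ^ x.2 ≤ G.a * G.a ^ p.2 := G.zpow_le_succ (by rw [abs_le] at hl; omega)
  have hfux : G.fu N x ≤ G.a * G.fu N p := by
    unfold fu
    exact G.zpow_le_succ (by rw [abs_le] at hl; omega)
  have hpx : ‖p.1 - x.1‖ ≤ 8 * (G.R * G.a ^ 2) * G.a ^ p.2 := by
    have h1 : 4 * G.R * G.a * G.a ^ p.2 ≤ 4 * (G.R * G.a ^ 2) * G.a ^ p.2 :=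
      mul_le_mul_of_nonneg_right (by nlinarith) hap.le
    have h2 : 4 * G.R * G.a * G.a ^ x.2 ≤ 4 * G.R * G.a * (G.a * G.a ^ p.2) :=
      mul_le_mul_of_nonneg_left hlx (by positivity)
    nlinarith
  have hpx' : ‖p'.1 - x.1‖ ≤ 10 * (G.R * G.a ^ 2) * G.a ^ p.2 := by
    have h1 := norm_sub_le_norm_sub_add_norm_sub p'.1 p.1 x.1
    rw [norm_sub_rev p'.1 p.1] at h1
    have h2 : 2 * G.R * G.a * G.a ^ p.2 ≤ 2 * (G.R * G.a ^ 2) * G.a ^ p.2 :=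
      mul_le_mul_of_nonneg_right (by nlinarith) hap.le
    linarith
  obtain ⟨v, hv, huv⟩ := PP_deep hS hb hb2 hA hC _ le_rfl u x hPP
  have hzv : ‖z - v.1‖ ≤ G.Dl s * G.fu N p := by
    have h1 := norm_sub_le_norm_sub_add_norm_sub z u.1 v.1
    rw [norm_sub_rev z u.1] at h1
    have h2 : (G.MM s : ℝ) * (G.e1 * G.fu N x) ≤ G.MM s * (G.e1 * (G.a * G.fu N p)) :=
      mul_le_mul_of_nonneg_left (mul_le_mul_of_nonneg_left hfux he1.le) hMM
    unfold Dl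
    linarith
  set X : ℝ := ‖x.1 - p.1‖ with hX
  set X' : ℝ := ‖x.1 - p'.1‖ with hX'
  set D : ℝ := ‖p.1 - p'.1‖ with hDdef
  have hX0 : 0 ≤ X := norm_nonneg _
  have hX'0 : 0 ≤ X' := norm_nonneg _
  have hD0 : 0 ≤ D := norm_nonneg _
  -- the two inequalities
  have key : ∀ y : Pt, y ∈ C → y ≠ x → -(2 * (G.Dl s * G.fu N p) * ‖y.1 - x.1‖) ≤ gg x.1 y.1 z := by
    intro y hy hyx
    have h1 := deep_all hb2 hv y hy hyx
    have h2 := gg_move x.1 y.1 z v.1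
    have h3 : 0 ≤ G.fu N x * ‖y.1 - x.1‖ := mul_nonneg (G.fu_pos N x).le (norm_nonneg _)
    have h4 : 2 * ‖z - v.1‖ * ‖y.1 - x.1‖ ≤ 2 * (G.Dl s * G.fu N p) * ‖y.1 - x.1‖ :=
      mul_le_mul_of_nonneg_right (by linarith) (norm_nonneg _)
    linarith
  have k1 := key p hp (Ne.symm hxp)
  have k2 := key p' hp' (Ne.symm hxp')
  have a1 : gg x.1 p.1 z = -((1 - t) * X ^ 2) - t * X' ^ 2 + t * D ^ 2 := by
    rw [hz, gg_affine]
    unfold gg
    rw [sub_self, norm_zero, norm_sub_rev p.1 x.1, norm_sub_rev p'.1 x.1, norm_sub_rev p'.1 p.1]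
    ring
  have a2 : gg x.1 p'.1 z = -((1 - t) * X ^ 2) - t * X' ^ 2 + (1 - t) * D ^ 2 := by
    rw [hz, gg_affine]
    unfold gg
    rw [sub_self, norm_zero, norm_sub_rev p.1 x.1, norm_sub_rev p'.1 x.1]
    ring
  rw [a1, norm_sub_rev p.1 x.1] at k1
  rw [a2, norm_sub_rev p'.1 x.1] at k2
  rw [norm_sub_rev p.1 x.1] at hpx
  rw [norm_sub_rev p'.1 x.1] at hpx'
  -- the margin
  have hDr : D ≤ r * max (G.a ^ p.2) (G.a ^ p'.2) := by
    have h1 : G.a ^ p.2 ≤ max (G.a ^ p.2) (G.a ^ p'.2) := le_max_left _ _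
    have h2 : 2 * (G.R * G.a) * G.a ^ p.2 ≤ r * max (G.a ^ p.2) (G.a ^ p'.2) :=
      mul_le_mul (by nlinarith) h1 hap.le (by linarith)
    linarith
  have hmargin := margin hS (by linarith) hC hadj hDr hx hxp hxp' hnear
  have hsX : s * G.a ^ p.2 ≤ X := by
    have := hC.sep hS hr1 hp hx hxp
    rwa [norm_sub_rev] at this
  have hsX' : s * G.a ^ p.2 ≤ G.a * X' := by
    have h1 := hC.sep hS hr1 hp' hx hxp'
    rw [norm_sub_rev, ← hX'] at h1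
    have hl2 : |p.2 - p'.2| ≤ 1 := (hC.g6 p hp p' hp' hDr).1
    have h2 : G.a ^ p.2 ≤ G.a * G.a ^ p'.2 := G.zpow_le_succ (by rw [abs_le] at hl2; omega)
    have h3 := mul_le_mul_of_nonneg_left h2 hs0.le
    have h4 := mul_le_mul_of_nonneg_left h1 ha0.le
    linarith
  have hc2 : 8 * G.a * (G.Dl s * G.fu N p) ≤ s * G.a ^ p.2 := by
    have := mul_le_mul_of_nonneg_right hb3.c2 hf.le
    rw [hfm]
    linarith
  have hc1 : 100 * (G.R * G.a ^ 2) * (G.Dl s * G.fu N p) ≤ h * G.a ^ p.2 := by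
    have := mul_le_mul_of_nonneg_right hb3.c1 hf.le
    rw [hfm]
    linarith
  have hRa2 : 0 < G.R * G.a ^ 2 := by positivity
  have hpx10 : X ≤ 10 * (G.R * G.a ^ 2) * G.a ^ p.2 := by
    have : 0 < (G.R * G.a ^ 2) * G.a ^ p.2 := by positivity
    linarith
  exact num_final t X X' D s h (G.a ^ p.2) G.a (G.R * G.a ^ 2) (G.Dl s * G.fu N p) ht0 ht1 hX0 hX'0 hap hs0
    hS.h0 ha1 hRa2 (mul_pos hDl hf) k1 k2 hmargin hsX hsX' hc2 hc1 hpx10 hpx'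

end Alg
end Pool.Agent.H475R3
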