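import Pool.Agent.H475R3.Par5

set_option autoImplicit false
open Set

namespace Pool.Agent.H475R3

lemma path_switch {α : Type} {Q : α → α → Prop} (P P' : α → Prop) {u v : α}
    (h : Relation.ReflTransGen Q u v) (hall : ∀ x y, Q x y → P y ∨ P' y) (hu : P u)
    (hv : ¬ P v) : ∃ x y, P x ∧ P' y ∧ Q x y := by
  induction h with
  | refl => exact absurd hu hv
  | @tail b c h1 h2 ih =>
    by_cases hb : P b
    · rcases hall b c h2 with h3 | h3
      · exact absurd h3 hv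
      · exact ⟨b, c, hb, h3, h2⟩
    · exact ih hb

namespace Alg
open TS (sh)
variable {W : Type} [NormedAddCommGroup W] [NormedSpace ℝ W] {G : Alg W}
variable {r A A' s h : ℝ} {C : Cfg} {N : ℕ}

theorem PP_link (hS : SepC G r s h) (hb : Big G r N) (hb2 : G.Big2 r s h N) (hb3 : Big3 G s h N)
    (hA : r ≤ A) (hC : G.Good r C A A') {p p' : Pt} (hadj : Adj C p p') :
    ∃ q q', PP G N C (G.MM s) q p ∧ PP G N C (G.MM s) q' p' ∧ Adj (G.next N C) q q' := by
  obtain ⟨hp, hp', hpp', hall⟩ := id hadj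
  have hR := G.hR
  have ha1 := G.a1
  have ha0 := G.a0
  have hr1 := hb.hr1
  have hbr := hb.hr
  have hs0 := hS.s0
  have hRa : 0 < G.R * G.a := mul_pos hR G.a0
  have hap := G.ap p.2
  have hf := G.fu_pos N p
  have hfm := G.fu_mul N p
  have hA0 : 0 ≤ A := by linarith
  have hD := hC.adj_len hb.hr4 hadj
  have hctf := ct_fu_le (G := G) hb2 p
  have hect := mul_le_mul_of_nonneg_right (G.eta_le_ct s) hf.le
  obtain ⟨q0, hq0, hq0d, -⟩ := exists_seed hS hb hb2 hA hC hb3.c3 hp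
  have hDp : ‖p'.1 - p.1‖ ≤ r / 4 * G.a ^ p.2 := by
    rw [norm_sub_rev]
    refine hD.trans (mul_le_mul_of_nonneg_right ?_ hap.le)
    nlinarith
  obtain ⟨q1, hq1, hq1d⟩ := fine_cov hb hA hC hp p'.1 hDp
  have heta : G.R * G.a * G.fu N p = G.eta * G.fu N p := rfl
  rw [heta, norm_sub_rev] at hq1d
  have hes := eta_fu hS hb2 p
  have hsP : 0 < s * G.a ^ p.2 := mul_pos hs0 hap
  have hc0 : PP G N C (G.MM s) q0 p :=
    near_PP hS hb hb2 hA hC hb3.c3 hp q0 hq0 (by linarith) _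
  have hDr : ‖p.1 - p'.1‖ ≤ r * max (G.a ^ p.2) (G.a ^ p'.2) := by
    have h1 : G.a ^ p.2 ≤ max (G.a ^ p.2) (G.a ^ p'.2) := le_max_left _ _
    have h2 : 2 * (G.R * G.a) * G.a ^ p.2 ≤ r * max (G.a ^ p.2) (G.a ^ p'.2) :=
      mul_le_mul (by nlinarith) h1 hap.le (by linarith)
    linarith
  have hl2 : |p.2 - p'.2| ≤ 1 := (hC.g6 p hp p' hp' hDr).1
  have hc1 : PP G N C (G.MM s) q1 p' := by
    refine near_PP hS hb hb2 hA hC hb3.c3 hp' q1 hq1 ?_ _
    have h2 : G.fu N p ≤ G.a * G.fu N p' := by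
      unfold fu; exact G.zpow_le_succ (by rw [abs_le] at hl2; omega)
    have h3 := mul_le_mul_of_nonneg_right hb3.c2 (G.fu_pos N p').le
    have h4 : G.eta ≤ G.Dl s := by
      have h5 := G.ct_pos s
      have h6 : (0 : ℝ) ≤ G.MM s := Nat.cast_nonneg _
      have h7 := G.e1_pos
      have : 0 ≤ (G.MM s : ℝ) * G.e1 * G.a := by positivity
      unfold Dl; linarith
    have hf' := G.fu_pos N p'
    have hfm' := G.fu_mul N p'
    have h5 : G.eta * G.fu N p ≤ G.Dl s * (G.a * G.fu N p') :=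
      mul_le_mul h4 h2 hf.le (by linarith [G.Dl_pos s])
    rw [hfm']
    have h6 : 0 < G.Dl s * (G.a * G.fu N p') := by have := G.Dl_pos s; positivity
    linarith
  have hseg0 : ∀ t : ℝ, 0 ≤ t → t ≤ 1 →
      ‖(q0.1 + t * (q1.1 - q0.1)) - (p.1 + t * (p'.1 - p.1))‖ ≤ G.eta * G.fu N p := by
    intro t ht0 ht1
    have e : (q0.1 + t * (q1.1 - q0.1)) - (p.1 + t * (p'.1 - p.1))
        = ((1 - t : ℝ) : ℂ) * (q0.1 - p.1) + (t : ℂ) * (q1.1 - p'.1) := by push_cast; ring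
    rw [e]
    refine (norm_add_le _ _).trans ?_
    rw [norm_mul, norm_mul, Complex.norm_real, Complex.norm_real, Real.norm_of_nonneg (by linarith),
      Real.norm_of_nonneg ht0]
    have h1 := mul_le_mul_of_nonneg_left hq0d (by linarith : 0 ≤ 1 - t)
    have h2 := mul_le_mul_of_nonneg_left hq1d ht0
    linarith
  have htube := tube_near hS hb hb2 hA hC hp q0 q1 hq0 hq1 (fun t ht0 ht1 => by
    have h1 := hseg0 t ht0 ht1
    have h2 := norm_sub_le_norm_sub_add_norm_sub (q0.1 + t * (q1.1 - q0.1)) (p.1 + t * (p'.1 - p.1)) p.1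
    have h3 : ‖p.1 + t * (p'.1 - p.1) - p.1‖ ≤ 2 * G.R * G.a * G.a ^ p.2 := by
      have e : p.1 + t * (p'.1 - p.1) - p.1 = ((t : ℝ) : ℂ) * (p'.1 - p.1) := by ring
      rw [e, norm_mul, Complex.norm_real, Real.norm_of_nonneg ht0, norm_sub_rev p'.1 p.1]
      have := norm_nonneg (p.1 - p'.1)
      nlinarith
    have h4 : 0 < G.R * G.a * G.a ^ p.2 := by positivity
    linarith)
  have hnot : ¬ PP G N C (G.MM s) q1 p := by
    intro hcon
    exact hpp' (PP_unique hb hb2 hA0 hC _ q1 p p' hcon hc1)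
  obtain ⟨x, y, hx, hy, hxy⟩ := path_switch (fun w => PP G N C (G.MM s) w p)
    (fun w => PP G N C (G.MM s) w p') htube (by
      rintro x y ⟨h1, -, ⟨t, ht0, ht1, hty⟩⟩
      obtain ⟨w, hw⟩ := PP_total hS hb hb2 hA hC hb3.c3 y h1.2.1
      have hyt : ‖y.1 - (p.1 + t * (p'.1 - p.1))‖ ≤ (G.ct s + G.eta) * G.fu N p := by
        have h2 := norm_sub_le_norm_sub_add_norm_sub y.1 (q0.1 + t * (q1.1 - q0.1)) (p.1 + t * (p'.1 - p.1))
        have h3 := hseg0 t ht0 ht1
        linarith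
      rcases seg_child hS hb hb2 hb3 hA0 hC hadj y w t ht0 ht1 hyt hw with rfl | rfl
      · exact Or.inl hw
      · exact Or.inr hw) hc0 hnot
  exact ⟨x, y, hx, hy, hxy.1⟩

lemma PP_fin (hS : SepC G r s h) (hb : Big G r N) (hb2 : G.Big2 r s h N)
    (hA : 0 ≤ A) (hC : G.Good r C A A') (p : Pt) :
    {q | PP G N C (G.MM s) q p}.Finite := by
  have hR := G.hR
  have ha1 := G.a1
  have ha0 := G.a0
  have hbr := hb.hr
  have hs0 := hS.s0
  by_cases hp : p ∈ C
  · have hf := G.fu_pos N p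
    refine sep_finite _ p.1 (4 * G.R * G.a * G.a ^ p.2) (s / G.a * G.fu N p) (by positivity)
      (fun q hq => PP_dist hS hb hb2 hA hC _ le_rfl q p hq) ?_
    intro q hq q' hq' hne
    refine fine_sep hS hb hA hC hp q (PP_next _ q p hq) ?_ q' (PP_next _ q' p hq') hne.symm
    refine (PP_dist hS hb hb2 hA hC _ le_rfl q p hq).trans (mul_le_mul_of_nonneg_right ?_ (G.ap _).le)
    nlinarith
  · have : {q | PP G N C (G.MM s) q p} = ∅ := by
      ext q
      simp only [mem_ofPred_eq, mem_empty_iff_false, iff_false]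
      exact fun h => hp (PP_C _ q p h)
    rw [this]
    exact finite_empty

end Alg
end Pool.Agent.H475R3
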