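import Mathlib

set_option autoImplicit false
open Set Metric Filter Topology

namespace Pool.Agent.H475R3

/-- nested intersection of compact connected sets -/
theorem isConnected_iInter_nested (K : ℕ → Set ℂ) (hK : ∀ m, IsCompact (K m))
    (hc : ∀ m, IsConnected (K m)) (hmono : ∀ m, K (m + 1) ⊆ K m) :
    IsConnected (⋂ m, K m) := by
  have hanti : Antitone K := antitone_nat_of_succ_le hmono
  have hdir : Directed (· ⊇ ·) K := hanti.directed_ge
  have hclosed : ∀ m, IsClosed (K m) := fun m => (hK m).isClosed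
  refine ⟨IsCompact.nonempty_iInter_of_directed_nonempty_isCompact_isClosed K hdir
    (fun m => (hc m).nonempty) hK hclosed, ?_⟩
  have hTclosed : IsClosed (⋂ m, K m) := isClosed_iInter hclosed
  rw [isPreconnected_iff_subset_of_fully_disjoint_closed hTclosed]
  intro u v hu hv huv hdisj
  have hsep : SeparatedNhds u v := normal_separation hu hv hdisj
  obtain ⟨U, V, hU, hV, huU, hvV, hUV⟩ := hsep
  have hsub : (⋂ m, K m) ⊆ U ∪ V := huv.trans (union_subset_union huU hvV)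
  obtain ⟨m, hm⟩ := exists_subset_nhds_of_isCompact' hdir hK hclosed
    (U := U ∪ V) (fun x hx => (hU.union hV).mem_nhds (hsub hx))
  have hpre := (hc m).isPreconnected
  have h1 : K m ⊆ U ∨ K m ⊆ V := by
    apply IsPreconnected.subset_or_subset hU hV hUV hm hpre
  have hKT : (⋂ m, K m) ⊆ K m := iInter_subset _ m
  rcases h1 with h | h
  · left
    intro x hx
    rcases huv hx with h' | h'
    · exact h'
    · exact absurd (hvV h') (fun hh => (disjoint_left.mp hUV) (h (hKT hx)) hh)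
  · right
    intro x hx
    rcases huv hx with h' | h'
    · exact absurd (huU h') (fun hh => (disjoint_left.mp hUV) hh (h (hKT hx)))
    · exact h'

lemma balls_meet (x y : ℂ) (r t : ℝ) (hr : 0 < r) (ht : 0 < t) (h : ‖x - y‖ ≤ r + t) :
    (closedBall x r ∩ closedBall y t).Nonempty := by
  have hrt : 0 < r + t := by linarith
  refine ⟨x + ((r / (r + t) : ℝ) : ℂ) * (y - x), ?_, ?_⟩
  · rw [mem_closedBall, dist_eq_norm, add_sub_cancel_left, norm_mul, Complex.norm_real,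
      Real.norm_of_nonneg (by positivity), norm_sub_rev, div_mul_eq_mul_div, div_le_iff₀ hrt]
    exact mul_le_mul_of_nonneg_left h hr.le
  · have e : x + ((r / (r + t) : ℝ) : ℂ) * (y - x) - y = ((t / (r + t) : ℝ) : ℂ) * (x - y) := by
      have : ((t / (r + t) : ℝ) : ℂ) = 1 - ((r / (r + t) : ℝ) : ℂ) := by
        have : t / (r + t) = 1 - r / (r + t) := by field_simp; ring
        rw [this]; push_cast; ring
      rw [this]; ring
    rw [mem_closedBall, dist_eq_norm, e, norm_mul, Complex.norm_real,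
      Real.norm_of_nonneg (by positivity), div_mul_eq_mul_div, div_le_iff₀ hrt]
    exact mul_le_mul_of_nonneg_left h ht.le

/-- A hierarchical point system. -/
structure TS where
  a : ℝ
  ha : 1 < a
  P : ℕ → Set (ℂ × ℤ)
  Par : ℕ → (ℂ × ℤ) → (ℂ × ℤ) → Prop
  Adj : ℕ → (ℂ × ℤ) → (ℂ × ℤ) → Prop
  E : ℝ
  c : ℝ
  hE : 0 < E
  hc : 0 < c
  hpar1 : ∀ n q p, Par n q p → q ∈ P (n + 1)
  hpar2 : ∀ n q p, Par n q p → p ∈ P n
  hex : ∀ n q, q ∈ P (n + 1) → ∃ p, Par n q p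
  huniq : ∀ n q p p', Par n q p → Par n q p' → p = p'
  hchild : ∀ n p, p ∈ P n → ∃ q, Par n q p
  hnest : ∀ n q p, Par n q p → ‖q.1 - p.1‖ + E * a ^ q.2 ≤ E * a ^ p.2
  hdrop : ∀ n q p, Par n q p → q.2 ≤ p.2 - 1
  hfin : ∀ n p, {q | Par n q p}.Finite
  hsep : ∀ n p q p', p ∈ P n → Par n q p' → ‖q.1 - p.1‖ ≤ c * a ^ p.2 + E * a ^ q.2 → p' = p
  hcov : ∀ n z, z ≠ 0 → ∃ p ∈ P n, ‖z - p.1‖ ≤ E * a ^ p.2
  hloc : ∀ n z, z ≠ 0 → ∃ e, 0 < e ∧
    {p | p ∈ P n ∧ ∃ z', ‖z' - z‖ ≤ e ∧ ‖z' - p.1‖ ≤ E * a ^ p.2}.Finite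
  hsmall : ∀ n p, p ∈ P n → E * a ^ p.2 < ‖p.1‖
  hcE : c ≤ E
  hconn : ∀ n p q q', Par n q p → Par n q' p →
    Relation.ReflTransGen (fun u v => Adj (n + 1) u v ∧ Par n u p ∧ Par n v p) q q'
  hlink : ∀ n p p', Adj n p p' → ∃ q q', Par n q p ∧ Par n q' p' ∧ Adj (n + 1) q q'
  hadj : ∀ n p q, Adj n p q → ‖p.1 - q.1‖ ≤ E * a ^ p.2 + E * a ^ q.2
  hsymm : ∀ n p q, Adj n p q → Adj n q p

namespace TS
variable (S : TS)

def desc (n : ℕ) : ℕ → Set (ℂ × ℤ) → Set (ℂ × ℤ)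
  | 0, A => A
  | m + 1, A => {q | ∃ p ∈ desc n m A, S.Par (n + m) q p}

def K (n m : ℕ) (A : Set (ℂ × ℤ)) : Set ℂ := ⋃ q ∈ S.desc n m A, closedBall q.1 (S.E * S.a ^ q.2)

def T (n : ℕ) (A : Set (ℂ × ℤ)) : Set ℂ := ⋂ m, S.K n m A

lemma apos (k : ℤ) : 0 < S.a ^ k := zpow_pos (lt_trans zero_lt_one S.ha) k

lemma K_succ (n m : ℕ) (A : Set (ℂ × ℤ)) : S.K n (m + 1) A ⊆ S.K n m A := by
  intro l hl
  simp only [K, mem_iUnion] at hl ⊢
  obtain ⟨q, ⟨p, hp, hq⟩, hl⟩ := hl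
  refine ⟨p, hp, ?_⟩
  have h := S.hnest _ _ _ hq
  rw [mem_closedBall, dist_eq_norm] at hl ⊢
  calc ‖l - p.1‖ ≤ ‖l - q.1‖ + ‖q.1 - p.1‖ := norm_sub_le_norm_sub_add_norm_sub _ _ _
    _ ≤ S.E * S.a ^ p.2 := by linarith

lemma K_anti (n : ℕ) (A : Set (ℂ × ℤ)) : Antitone (fun m => S.K n m A) :=
  antitone_nat_of_succ_le (fun m => S.K_succ n m A)

lemma desc_subset (n m : ℕ) (A : Set (ℂ × ℤ)) (hA : A ⊆ S.P n) : S.desc n m A ⊆ S.P (n + m) := by
  cases m with
  | zero => exact hA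
  | succ m =>
    rintro q ⟨p, _, hq⟩
    exact S.hpar1 _ _ _ hq

lemma desc_finite (n m : ℕ) (A : Set (ℂ × ℤ)) (hA : A.Finite) : (S.desc n m A).Finite := by
  induction m with
  | zero => exact hA
  | succ m ih =>
    have : S.desc n (m + 1) A = ⋃ p ∈ S.desc n m A, {q | S.Par (n + m) q p} := by
      ext q; simp [desc]
    rw [this]
    exact ih.biUnion (fun p _ => S.hfin _ _)

lemma K_compact (n m : ℕ) (A : Set (ℂ × ℤ)) (hA : A.Finite) : IsCompact (S.K n m A) :=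
  (S.desc_finite n m A hA).isCompact_biUnion (fun _ _ => isCompact_closedBall _ _)

lemma desc_mono (n m : ℕ) {A B : Set (ℂ × ℤ)} (h : A ⊆ B) : S.desc n m A ⊆ S.desc n m B := by
  induction m with
  | zero => exact h
  | succ m ih =>
    rintro q ⟨p, hp, hq⟩
    exact ⟨p, ih hp, hq⟩

lemma T_mono (n : ℕ) {A B : Set (ℂ × ℤ)} (h : A ⊆ B) : S.T n A ⊆ S.T n B :=
  iInter_mono (fun m => biUnion_subset_biUnion_left (S.desc_mono n m h))

lemma mem_desc_iff (n m : ℕ) (A : Set (ℂ × ℤ)) (q : ℂ × ℤ) :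
    q ∈ S.desc n m A ↔ ∃ p ∈ A, q ∈ S.desc n m {p} := by
  induction m generalizing q with
  | zero => simp [desc]
  | succ m ih =>
    constructor
    · rintro ⟨p, hp, hq⟩
      obtain ⟨r, hr, hr'⟩ := (ih p).1 hp
      exact ⟨r, hr, p, hr', hq⟩
    · rintro ⟨r, hr, p, hp, hq⟩
      exact ⟨p, (ih p).2 ⟨r, hr, hp⟩, hq⟩

lemma T_union (n : ℕ) (A : Set (ℂ × ℤ)) (hA : A.Finite) :
    S.T n A = ⋃ p ∈ A, S.T n {p} := by
  apply Subset.antisymm
  · intro l hl
    by_contra hcon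
    simp only [mem_iUnion, not_exists] at hcon
    have h1 : ∀ p ∈ A, ∃ m, l ∉ S.K n m {p} := by
      intro p hp
      have := hcon p hp
      simpa [T] using this
    choose! f hf using h1
    obtain ⟨M, hM⟩ : ∃ M, ∀ p ∈ A, f p ≤ M := by
      obtain ⟨M, hM⟩ := (hA.image f).bddAbove
      exact ⟨M, fun p hp => hM ⟨p, hp, rfl⟩⟩
    have h2 : l ∈ S.K n M A := mem_iInter.1 hl M
    simp only [K, mem_iUnion] at h2
    obtain ⟨q, hq, hlq⟩ := h2
    obtain ⟨p, hp, hq'⟩ := (S.mem_desc_iff n M A q).1 hq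
    refine hf p hp (S.K_anti n {p} (hM p hp) ?_)
    simp only [K, mem_iUnion]
    exact ⟨q, hq', hlq⟩
  · intro l hl
    simp only [mem_iUnion] at hl
    obtain ⟨p, hp, hl⟩ := hl
    exact S.T_mono n (singleton_subset_iff.2 hp) hl

lemma desc_shift (n m : ℕ) (A : Set (ℂ × ℤ)) :
    S.desc n (m + 1) A = S.desc (n + 1) m (S.desc n 1 A) := by
  induction m with
  | zero => rfl
  | succ m ih =>
    ext q
    constructor
    · rintro ⟨p, hp, hq⟩
      refine ⟨p, ?_, ?_⟩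
      · rw [← ih]; exact hp
      · rw [show n + 1 + m = n + (m + 1) by omega]; exact hq
    · rintro ⟨p, hp, hq⟩
      refine ⟨p, ?_, ?_⟩
      · rw [ih]; exact hp
      · rw [show n + (m + 1) = n + 1 + m by omega]; exact hq

lemma T_shift (n : ℕ) (A : Set (ℂ × ℤ)) : S.T n A = S.T (n + 1) (S.desc n 1 A) := by
  apply Subset.antisymm
  · intro l hl
    refine mem_iInter.2 fun m => ?_
    have := mem_iInter.1 hl (m + 1)
    simpa only [K, S.desc_shift n m A] using this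
  · intro l hl
    refine mem_iInter.2 fun m => ?_
    apply S.K_succ n m A
    have := mem_iInter.1 hl m
    simpa only [K, S.desc_shift n m A] using this

lemma children_eq (n : ℕ) (p : ℂ × ℤ) : S.desc n 1 {p} = {q | S.Par n q p} := by
  ext q; simp [desc]

lemma T_children (n : ℕ) (p : ℂ × ℤ) :
    S.T n {p} = ⋃ q ∈ {q | S.Par n q p}, S.T (n + 1) {q} := by
  rw [S.T_shift, S.children_eq, S.T_union (n + 1) _ (S.hfin n p)]

lemma desc_T (n m : ℕ) (A : Set (ℂ × ℤ)) (hA : A.Finite) :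
    S.T n A = ⋃ q ∈ S.desc n m A, S.T (n + m) {q} := by
  induction m with
  | zero => exact S.T_union n A hA
  | succ m ih =>
    rw [ih]
    ext l
    simp only [mem_iUnion]
    constructor
    · rintro ⟨q, hq, hl⟩
      rw [S.T_children (n + m) q] at hl
      simp only [mem_iUnion] at hl
      obtain ⟨r, hr, hl⟩ := hl
      exact ⟨r, ⟨q, hq, hr⟩, hl⟩
    · rintro ⟨r, ⟨q, hq, hr⟩, hl⟩
      refine ⟨q, hq, ?_⟩
      rw [S.T_children (n + m) q]
      simp only [mem_iUnion]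
      exact ⟨r, hr, hl⟩

/-- chain connectedness of a set of points at level `n` -/
def Chain (n : ℕ) (A : Set (ℂ × ℤ)) : Prop :=
  A.Nonempty ∧ ∀ p ∈ A, ∀ q ∈ A, Relation.ReflTransGen (fun u v => S.Adj n u v ∧ u ∈ A ∧ v ∈ A) p q

lemma chain_desc_one (n : ℕ) (A : Set (ℂ × ℤ)) (hA : S.Chain n A) (hP : A ⊆ S.P n) :
    S.Chain (n + 1) (S.desc n 1 A) := by
  have hmem : ∀ p ∈ A, ∀ q, S.Par n q p → q ∈ S.desc n 1 A := fun p hp q hq => ⟨p, hp, by simpa using hq⟩
  refine ⟨?_, ?_⟩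
  · obtain ⟨p, hp⟩ := hA.1
    obtain ⟨q, hq⟩ := S.hchild n p (hP hp)
    exact ⟨q, hmem p hp q hq⟩
  · -- within one parent
    have h1 : ∀ p ∈ A, ∀ q q', S.Par n q p → S.Par n q' p →
        Relation.ReflTransGen (fun u v => S.Adj (n + 1) u v ∧ u ∈ S.desc n 1 A ∧ v ∈ S.desc n 1 A) q q' := by
      intro p hp q q' hq hq'
      refine Relation.ReflTransGen.mono ?_ _ _ (S.hconn n p q q' hq hq')
      rintro u v ⟨h, hu, hv⟩
      exact ⟨h, hmem p hp u hu, hmem p hp v hv⟩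
    have h2 : ∀ p p', Relation.ReflTransGen (fun u v => S.Adj n u v ∧ u ∈ A ∧ v ∈ A) p p' → p ∈ A →
        ∀ q q', S.Par n q p → S.Par n q' p' →
        Relation.ReflTransGen (fun u v => S.Adj (n + 1) u v ∧ u ∈ S.desc n 1 A ∧ v ∈ S.desc n 1 A) q q' := by
      intro p p' hpp' hp
      induction hpp' with
      | refl => intro q q' hq hq'; exact h1 p hp q q' hq hq'
      | tail _ hbc ih =>
        rename_i b c' _
        intro q q' hq hq'
        obtain ⟨r, r', hr, hr', hadj⟩ := S.hlink n b c' hbc.1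
        have e1 := ih q r hq hr
        have e2 := h1 c' hbc.2.2 r' q' hr' hq'
        exact (e1.tail ⟨hadj, hmem b hbc.2.1 r hr, hmem c' hbc.2.2 r' hr'⟩).trans e2
    rintro q ⟨p, hp, hq⟩ q' ⟨p', hp', hq'⟩
    exact h2 p p' (hA.2 p hp p' hp') hp q q' (by simpa using hq) (by simpa using hq')

lemma chain_desc (n m : ℕ) (A : Set (ℂ × ℤ)) (hA : S.Chain n A) (hP : A ⊆ S.P n) :
    S.Chain (n + m) (S.desc n m A) := by
  induction m with
  | zero => exact hA
  | succ m ih =>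
    have h := S.chain_desc_one (n + m) (S.desc n m A) ih (S.desc_subset n m A hP)
    have e : S.desc (n + m) 1 (S.desc n m A) = S.desc n (m + 1) A := by
      ext q; simp [desc]
    rw [e] at h
    exact h

lemma K_connected (n m : ℕ) (A : Set (ℂ × ℤ)) (hA : S.Chain n A) (hP : A ⊆ S.P n) :
    IsConnected (S.K n m A) := by
  have hch := S.chain_desc n m A hA hP
  have hball : ∀ q : ℂ × ℤ, IsConnected (closedBall q.1 (S.E * S.a ^ q.2)) := by
    intro q
    have hpos : 0 ≤ S.E * S.a ^ q.2 := (mul_pos S.hE (S.apos _)).le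
    exact ⟨⟨q.1, mem_closedBall_self hpos⟩, (convex_closedBall _ _).isPreconnected⟩
  refine ⟨?_, ?_⟩
  · obtain ⟨q, hq⟩ := hch.1
    obtain ⟨x, hx⟩ := (hball q).nonempty
    exact ⟨x, mem_biUnion hq hx⟩
  · apply IsPreconnected.biUnion_of_reflTransGen (fun q _ => (hball q).isPreconnected)
    intro p hp q hq
    refine Relation.ReflTransGen.mono ?_ _ _ (hch.2 p hp q hq)
    intro u v huv
    obtain ⟨h, hu, hv⟩ := huv
    refine ⟨?_, hu⟩
    have hd := S.hadj _ _ _ h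
    -- the balls intersect
    have hu0 : 0 < S.E * S.a ^ u.2 := mul_pos S.hE (S.apos _)
    have hv0 : 0 < S.E * S.a ^ v.2 := mul_pos S.hE (S.apos _)
    exact balls_meet u.1 v.1 _ _ hu0 hv0 hd

lemma T_connected (n : ℕ) (A : Set (ℂ × ℤ)) (hf : A.Finite) (hA : S.Chain n A) (hP : A ⊆ S.P n) :
    IsConnected (S.T n A) :=
  isConnected_iInter_nested _ (fun m => S.K_compact n m A hf) (fun m => S.K_connected n m A hA hP)
    (fun m => S.K_succ n m A)

lemma T_compact (n : ℕ) (A : Set (ℂ × ℤ)) (hf : A.Finite) : IsCompact (S.T n A) := by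
  have h0 := S.K_compact n 0 A hf
  refine h0.of_isClosed_subset (isClosed_iInter fun m => (S.K_compact n m A hf).isClosed) ?_
  exact iInter_subset _ 0

lemma single_connected (n : ℕ) (p : ℂ × ℤ) (hp : p ∈ S.P n) : IsConnected (S.T n {p}) := by
  apply S.T_connected n {p} (finite_singleton p) _ (singleton_subset_iff.2 hp)
  refine ⟨⟨p, rfl⟩, ?_⟩
  rintro q hq q' hq'
  rw [mem_singleton_iff] at hq hq'
  subst hq; subst hq'
  exact Relation.ReflTransGen.refl

lemma T_subset_ball (n : ℕ) (p : ℂ × ℤ) : S.T n {p} ⊆ closedBall p.1 (S.E * S.a ^ p.2) := by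
  intro l hl
  have := mem_iInter.1 hl 0
  simpa [K, desc] using this

end TS
end Pool.Agent.H475R3
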