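import Pool.Agent.H475R3.Tiles

set_option autoImplicit false
open Set Metric Filter Topology

namespace Pool.Agent.H475R3
namespace TS
variable (S : TS)

lemma center_ball (n : ℕ) (p p' : ℂ × ℤ) (hp : p ∈ S.P n) (hne : p' ≠ p) (l : ℂ)
    (hl : l ∈ S.T n {p'}) : S.c * S.a ^ p.2 < ‖l - p.1‖ := by
  by_contra hcon
  push Not at hcon
  have h1 : l ∈ S.K n 1 {p'} := mem_iInter.1 hl 1
  simp only [K, S.children_eq, mem_iUnion, mem_ofPred_eq, mem_closedBall, dist_eq_norm] at h1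
  obtain ⟨q, hq, hlq⟩ := h1
  apply hne
  apply S.hsep n p q p' hp hq
  calc ‖q.1 - p.1‖ ≤ ‖q.1 - l‖ + ‖l - p.1‖ := norm_sub_le_norm_sub_add_norm_sub _ _ _
    _ ≤ _ := by rw [norm_sub_rev q.1 l]; linarith

lemma ancestor (n m : ℕ) (q : ℂ × ℤ) (hq : q ∈ S.P (n + m)) : ∃ p ∈ S.P n, q ∈ S.desc n m {p} := by
  induction m generalizing q with
  | zero => exact ⟨q, hq, rfl⟩
  | succ m ih =>
    obtain ⟨r, hr⟩ := S.hex (n + m) q hq
    obtain ⟨p, hp, hrp⟩ := ih r (S.hpar2 _ _ _ hr)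
    exact ⟨p, hp, r, hrp, hr⟩

lemma ancestor_unique (n m : ℕ) (q p p' : ℂ × ℤ) (h : q ∈ S.desc n m {p}) (h' : q ∈ S.desc n m {p'}) :
    p = p' := by
  induction m generalizing q with
  | zero =>
    have h1 : q = p := h
    have h2 : q = p' := h'
    rw [← h1, ← h2]
  | succ m ih =>
    obtain ⟨r, hr, hqr⟩ := h
    obtain ⟨r', hr', hqr'⟩ := h'
    have := S.huniq _ _ _ _ hqr hqr'
    subst this
    exact ih r hr hr'

lemma cover (n : ℕ) (z : ℂ) (hz : z ≠ 0) : ∃ p ∈ S.P n, z ∈ S.T n {p} := by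
  by_contra hcon
  push Not at hcon
  obtain ⟨e, he, hfin⟩ := S.hloc n z hz
  have hF : {p | p ∈ S.P n ∧ ‖z - p.1‖ ≤ S.E * S.a ^ p.2}.Finite := by
    refine hfin.subset ?_
    rintro p ⟨h1, h2⟩
    exact ⟨h1, z, by simpa using he.le, h2⟩
  have h1 : ∀ p ∈ {p | p ∈ S.P n ∧ ‖z - p.1‖ ≤ S.E * S.a ^ p.2}, ∃ m, z ∉ S.K n m {p} := by
    intro p hp
    have := hcon p hp.1
    simpa [T] using this
  choose! f hf using h1
  obtain ⟨M, hM⟩ := (hF.image f).bddAbove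
  obtain ⟨q, hq, hzq⟩ := S.hcov (n + M) z hz
  obtain ⟨p, hp, hqp⟩ := S.ancestor n M q hq
  have hzK : z ∈ S.K n M {p} := by
    simp only [K, mem_iUnion]
    exact ⟨q, hqp, by rw [mem_closedBall, dist_eq_norm]; exact hzq⟩
  have h0 : z ∈ S.K n 0 {p} := S.K_anti n {p} (Nat.zero_le M) hzK
  have hpF : p ∈ {p | p ∈ S.P n ∧ ‖z - p.1‖ ≤ S.E * S.a ^ p.2} := by
    refine ⟨hp, ?_⟩
    simpa [K, desc, dist_eq_norm] using h0
  exact hf p hpF (S.K_anti n {p} (hM ⟨p, hpF, rfl⟩) hzK)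

lemma ball_sub (n : ℕ) (p : ℂ × ℤ) (hp : p ∈ S.P n) : closedBall p.1 (S.c * S.a ^ p.2) ⊆ S.T n {p} := by
  intro z hz
  rw [mem_closedBall, dist_eq_norm] at hz
  have hz0 : z ≠ 0 := by
    rintro rfl
    have h1 := S.hsmall n p hp
    have h2 : S.c * S.a ^ p.2 ≤ S.E * S.a ^ p.2 := mul_le_mul_of_nonneg_right S.hcE (S.apos _).le
    rw [zero_sub, norm_neg] at hz
    linarith
  obtain ⟨p', hp', hzp'⟩ := S.cover n z hz0
  by_cases h : p' = p
  · rw [← h]; exact hzp'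
  · exact absurd (S.center_ball n p p' hp h z hzp') (not_lt.2 hz)

lemma center_mem (n : ℕ) (p : ℂ × ℤ) (hp : p ∈ S.P n) : p.1 ∈ interior (S.T n {p}) := by
  rw [mem_interior]
  refine ⟨ball p.1 (S.c * S.a ^ p.2), ball_subset_closedBall.trans (S.ball_sub n p hp), isOpen_ball, ?_⟩
  exact mem_ball_self (mul_pos S.hc (S.apos _))

lemma zero_notMem (n : ℕ) (p : ℂ × ℤ) (hp : p ∈ S.P n) : (0 : ℂ) ∉ S.T n {p} := by
  intro h
  have := S.T_subset_ball n p h
  rw [mem_closedBall, dist_eq_norm, zero_sub, norm_neg] at this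
  exact absurd (S.hsmall n p hp) (not_lt.2 this)

lemma T_desc_sub (n m : ℕ) (p q : ℂ × ℤ) (hq : q ∈ S.desc n m {p}) : S.T (n + m) {q} ⊆ S.T n {p} := by
  rw [S.desc_T n m {p} (finite_singleton p)]
  exact subset_biUnion_of_mem (u := fun q => S.T (n + m) {q}) hq

lemma desc_label (n m : ℕ) (p q : ℂ × ℤ) (hq : q ∈ S.desc n m {p}) : q.2 ≤ p.2 - m := by
  induction m generalizing q with
  | zero =>
    have h1 : q = p := hq
    simp [h1]
  | succ m ih =>
    obtain ⟨r, hr, hqr⟩ := hq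
    have := ih r hr
    have := S.hdrop _ _ _ hqr
    push_cast
    omega

lemma small_radius (p : ℂ × ℤ) (e : ℝ) (he : 0 < e) : ∃ m : ℕ, ∀ q : ℂ × ℤ, q.2 ≤ p.2 - m →
    S.E * S.a ^ q.2 < e := by
  have hpos : 0 < S.E * S.a ^ p.2 := mul_pos S.hE (S.apos _)
  obtain ⟨m, hm⟩ := pow_unbounded_of_one_lt (S.E * S.a ^ p.2 / e) S.ha
  refine ⟨m, fun q hq => ?_⟩
  have h1 : S.a ^ q.2 ≤ S.a ^ (p.2 - (m : ℤ)) := zpow_le_zpow_right₀ S.ha.le hq
  have h2 : S.a ^ (p.2 - (m : ℤ)) = S.a ^ p.2 / S.a ^ m := by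
    rw [zpow_sub₀ (ne_of_gt (lt_trans zero_lt_one S.ha)), zpow_natCast]
  have hm0 : 0 < S.a ^ m := pow_pos (lt_trans zero_lt_one S.ha) m
  calc S.E * S.a ^ q.2 ≤ S.E * (S.a ^ p.2 / S.a ^ m) := by
        rw [← h2]; exact mul_le_mul_of_nonneg_left h1 S.hE.le
    _ = S.E * S.a ^ p.2 / S.a ^ m := by ring
    _ < e := by
        rw [div_lt_iff₀ hm0]
        rw [div_lt_iff₀ he] at hm
        linarith

lemma approx (n : ℕ) (p : ℂ × ℤ) (l : ℂ) (hl : l ∈ S.T n {p}) (U : Set ℂ) (hU : IsOpen U)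
    (hlU : l ∈ U) : ∃ m, ∃ q ∈ S.desc n m {p}, q.1 ∈ U := by
  obtain ⟨e, he, hball⟩ := Metric.isOpen_iff.1 hU l hlU
  obtain ⟨m, hm⟩ := S.small_radius p e he
  have h1 : l ∈ S.K n m {p} := mem_iInter.1 hl m
  simp only [K, mem_iUnion, mem_closedBall, dist_eq_norm] at h1
  obtain ⟨q, hq, hlq⟩ := h1
  refine ⟨m, q, hq, hball ?_⟩
  rw [mem_ball, dist_eq_norm, norm_sub_rev]
  exact lt_of_le_of_lt hlq (hm q (S.desc_label n m p q hq))

lemma desc_single_subset (n m : ℕ) (p q : ℂ × ℤ) (hp : p ∈ S.P n) (hq : q ∈ S.desc n m {p}) :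
    q ∈ S.P (n + m) := S.desc_subset n m {p} (singleton_subset_iff.2 hp) hq

lemma closure_int (n : ℕ) (p : ℂ × ℤ) (hp : p ∈ S.P n) :
    closure (interior (S.T n {p})) = S.T n {p} := by
  apply Subset.antisymm
  · exact closure_minimal interior_subset (S.T_compact n {p} (finite_singleton p)).isClosed
  · intro l hl
    rw [_root_.mem_closure_iff]
    intro U hU hlU
    obtain ⟨m, q, hq, hqU⟩ := S.approx n p l hl U hU hlU
    refine ⟨q.1, hqU, ?_⟩
    exact interior_mono (S.T_desc_sub n m p q hq) (S.center_mem (n + m) q (S.desc_single_subset n m p q hp hq))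

/-- a center of level `n+m` lies in the tile of `p` only if it is a descendant. -/
lemma center_desc (n m : ℕ) (p r : ℂ × ℤ) (hp : p ∈ S.P n) (hr : r ∈ S.P (n + m))
    (h : r.1 ∈ S.T n {p}) : r ∈ S.desc n m {p} := by
  rw [S.desc_T n m {p} (finite_singleton p)] at h
  simp only [mem_iUnion] at h
  obtain ⟨q, hq, hrq⟩ := h
  by_cases hqr : q = r
  · rw [← hqr]; exact hq
  · have := S.center_ball (n + m) r q hr hqr r.1 hrq
    rw [sub_self, norm_zero] at this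
    exact absurd this (not_lt.2 (mul_pos S.hc (S.apos _)).le)

/-- If the interiors of a tile and of a set `A` meet, some descendant centre lies in `A`. -/
lemma meet (n : ℕ) (p : ℂ × ℤ) (A : Set ℂ)
    (h : (interior (S.T n {p}) ∩ interior A).Nonempty) : ∃ m, ∃ q ∈ S.desc n m {p}, q.1 ∈ interior A := by
  obtain ⟨l, hl1, hl2⟩ := h
  exact S.approx n p l (interior_subset hl1) _ isOpen_interior hl2

lemma disj_same (n : ℕ) (p p' : ℂ × ℤ) (hp : p ∈ S.P n) (hp' : p' ∈ S.P n) (hne : p ≠ p') :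
    Disjoint (interior (S.T n {p})) (interior (S.T n {p'})) := by
  rw [disjoint_iff_inter_eq_empty]
  by_contra hcon
  obtain ⟨m, q, hq, hqi⟩ := S.meet n p (S.T n {p'}) (nonempty_iff_ne_empty.2 hcon)
  have := S.center_desc n m p' q hp' (S.desc_single_subset n m p q hp hq) (interior_subset hqi)
  exact hne (S.ancestor_unique n m q p p' hq this)

/-- Similarity lemma. -/
lemma sim_desc (n n' : ℕ) (p : ℂ × ℤ) (g : (ℂ × ℤ) → (ℂ × ℤ))
    (R : ℕ → ℕ → (ℂ × ℤ) → Prop)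
    (hR1 : ∀ n n' p, R n n' p → ∀ q', S.Par n' q' (g p) ↔ ∃ q, S.Par n q p ∧ g q = q')
    (hR2 : ∀ n n' p, R n n' p → ∀ q, S.Par n q p → R (n + 1) (n' + 1) q)
    (h0 : R n n' p) (m : ℕ) :
    S.desc n' m {g p} = g '' (S.desc n m {p}) ∧ ∀ q ∈ S.desc n m {p}, R (n + m) (n' + m) q := by
  induction m with
  | zero =>
    refine ⟨by simp [desc], ?_⟩
    intro q hq
    have : q = p := hq
    subst this; exact h0
  | succ m ih =>
    refine ⟨?_, ?_⟩
    · ext q'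
      constructor
      · rintro ⟨r', hr', hq'⟩
        rw [ih.1] at hr'
        obtain ⟨r, hr, rfl⟩ := hr'
        obtain ⟨q, hq, rfl⟩ := (hR1 _ _ _ (ih.2 r hr) q').1 hq'
        exact ⟨q, ⟨r, hr, hq⟩, rfl⟩
      · rintro ⟨q, ⟨r, hr, hq⟩, rfl⟩
        refine ⟨g r, ?_, (hR1 _ _ _ (ih.2 r hr) _).2 ⟨q, hq, rfl⟩⟩
        rw [ih.1]; exact ⟨r, hr, rfl⟩
    · rintro q ⟨r, hr, hq⟩
      exact hR2 _ _ _ (ih.2 r hr) q hq

lemma sim_T (n n' : ℕ) (p : ℂ × ℤ) (mu b : ℂ) (j : ℤ) (hmu : ‖mu‖ = S.a ^ j)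
    (R : ℕ → ℕ → (ℂ × ℤ) → Prop)
    (hR1 : ∀ n n' p, R n n' p → ∀ q', S.Par n' q' (mu * p.1 + b, p.2 + j) ↔
      ∃ q, S.Par n q p ∧ (mu * q.1 + b, q.2 + j) = q')
    (hR2 : ∀ n n' p, R n n' p → ∀ q, S.Par n q p → R (n + 1) (n' + 1) q)
    (h0 : R n n' p) :
    S.T n' {(mu * p.1 + b, p.2 + j)} = (fun z => mu * z + b) '' S.T n {p} := by
  have hmu0 : mu ≠ 0 := by
    rw [← norm_pos_iff, hmu]; exact S.apos j
  have hinj : Function.Injective (fun z : ℂ => mu * z + b) := by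
    intro x y h
    have : mu * x = mu * y := add_right_cancel h
    exact mul_left_cancel₀ hmu0 this
  have hball : ∀ (z : ℂ) (r : ℝ), (fun z => mu * z + b) '' closedBall z r
      = closedBall (mu * z + b) (‖mu‖ * r) := by
    intro z r
    have hmp : 0 < ‖mu‖ := norm_pos_iff.2 hmu0
    ext w
    simp only [mem_image, mem_closedBall, dist_eq_norm]
    constructor
    · rintro ⟨x, hx, rfl⟩
      have : mu * x + b - (mu * z + b) = mu * (x - z) := by ring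
      rw [this, norm_mul]
      exact mul_le_mul_of_nonneg_left hx hmp.le
    · intro hw
      refine ⟨(w - b) / mu, ?_, by field_simp; ring⟩
      have : (w - b) / mu - z = (w - (mu * z + b)) / mu := by field_simp; ring
      rw [this, norm_div, div_le_iff₀ hmp]
      linarith
  have hd := fun m => (S.sim_desc n n' p (fun q => (mu * q.1 + b, q.2 + j)) R hR1 hR2 h0 m).1
  have hK : ∀ m, S.K n' m {(mu * p.1 + b, p.2 + j)} = (fun z => mu * z + b) '' S.K n m {p} := by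
    intro m
    have hdm := hd m
    rw [K, hdm, K, image_iUnion₂]
    ext w
    simp only [mem_iUnion, mem_image, exists_prop]
    constructor
    · rintro ⟨q', ⟨q, hq, rfl⟩, hw⟩
      refine ⟨q, hq, ?_⟩
      have : w ∈ (fun z => mu * z + b) '' closedBall q.1 (S.E * S.a ^ q.2) := by
        rw [hball, hmu]
        have e : S.a ^ j * (S.E * S.a ^ q.2) = S.E * S.a ^ (q.2 + j) := by
          rw [zpow_add₀ (ne_of_gt (lt_trans zero_lt_one S.ha))]; ring
        rw [e]; exact hw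
      exact this
    · rintro ⟨q, hq, hw⟩
      refine ⟨_, ⟨q, hq, rfl⟩, ?_⟩
      have : w ∈ (fun z => mu * z + b) '' closedBall q.1 (S.E * S.a ^ q.2) := hw
      rw [hball, hmu] at this
      have e : S.a ^ j * (S.E * S.a ^ q.2) = S.E * S.a ^ (q.2 + j) := by
        rw [zpow_add₀ (ne_of_gt (lt_trans zero_lt_one S.ha))]; ring
      rw [e] at this; exact this
  rw [T, T, image_iInter ⟨hinj, ?_⟩]
  · exact iInter_congr hK
  · intro w
    exact ⟨(w - b) / mu, by simp only; field_simp; ring⟩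

end TS
end Pool.Agent.H475R3
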